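import Mathlib

/-!
# EXK / KReA: continuity of roots, the input of `exists_dir`
-/

set_option autoImplicit false

namespace Pool.Agent.EXK

open MvPolynomial Metric Filter Topology

/-- The value at a point of a homogeneous polynomial, scaled. -/
private lemma aeval_scale {k : Subfield ℂ} {σ : Type*} {d : ℕ} (L : MvPolynomial σ k)
    (hL : L.IsHomogeneous d) (c : ℂ) (x : σ → ℂ) :
    aeval (fun j => c * x j) L = c ^ d * aeval x L := by
  rw [aeval_def, aeval_def, eval₂_eq, eval₂_eq, Finset.mul_sum]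
  refine Finset.sum_congr rfl fun s hs => ?_
  have hd : ∑ i ∈ s.support, s i = d := by
    have := hL (mem_support_iff.mp hs)
    rw [Finsupp.weight_apply] at this
    simpa [Finsupp.sum] using this
  simp only [mul_pow]
  rw [Finset.prod_mul_distrib, Finset.prod_pow_eq_pow_sum, hd]
  ring

/-- The polynomial function is continuous jointly in the first coordinate and the others. -/
private lemma cont_aeval_cons {k : Subfield ℂ} {m : ℕ} (L : MvPolynomial (Fin (m + 1)) k) :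
    Continuous (fun p : ℂ × (Fin m → ℝ) =>
      aeval (Fin.cons p.1 (fun j => Complex.I * (p.2 j : ℂ)) : Fin (m + 1) → ℂ) L) := by
  have h : Continuous (fun p : ℂ × (Fin m → ℝ) =>
      (Fin.cons p.1 (fun j => Complex.I * (p.2 j : ℂ)) : Fin (m + 1) → ℂ)) := by
    refine continuous_pi fun i => ?_
    refine Fin.cases ?_ (fun j => ?_) i
    · simpa using continuous_fst
    · simp only [Fin.cons_succ]
      fun_prop
  simp only [aeval_def, eval₂_eq]
  refine continuous_finsetSum _ fun s _ => ?_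
  refine continuous_const.mul (continuous_finsetProd _ fun i _ => ?_)
  exact ((continuous_apply i).comp h).pow _

/-- The polynomial function is entire in the first coordinate. -/
private lemma diff_aeval_cons {k : Subfield ℂ} {m : ℕ} (L : MvPolynomial (Fin (m + 1)) k)
    (w : Fin m → ℂ) :
    Differentiable ℂ (fun x : ℂ => aeval (Fin.cons x w : Fin (m + 1) → ℂ) L) := by
  simp only [aeval_def, eval₂_eq]
  refine Differentiable.fun_sum fun s _ => ?_
  refine (differentiable_const _).mul ?_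
  refine Differentiable.fun_finsetProd fun i _ => ?_
  refine Differentiable.fun_pow ?_ _
  refine Fin.cases ?_ (fun j => ?_) i
  · simp
  · simp

/-- Continuity of roots for a family of entire functions. -/
private lemma root_near_fun {m : ℕ} (F : ℂ × (Fin m → ℝ) → ℂ) (hFc : Continuous F)
    (hFd : ∀ z : Fin m → ℝ, Differentiable ℂ (fun x : ℂ => F (x, z)))
    (y : Fin m → ℝ) (x₀ x₁ : ℂ) (h0 : F (x₀, y) = 0) (h1 : F (x₁, y) ≠ 0)
    (R : ℝ) (hR : 0 < R) :
    ∃ ε : ℝ, 0 < ε ∧ ∀ z : Fin m → ℝ, (∀ j, |z j - y j| < ε) →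
      ∃ x : ℂ, ‖x - x₀‖ < R ∧ F (x, z) = 0 := by
  have hFa : ∀ z : Fin m → ℝ, AnalyticOnNhd ℂ (fun x : ℂ => F (x, z)) Set.univ := fun z =>
    (hFd z).differentiableOn.analyticOnNhd isOpen_univ
  -- the zero is isolated
  have hiso : ∀ᶠ x in 𝓝[≠] x₀, F (x, y) ≠ 0 := by
    rcases (hFa y x₀ (Set.mem_univ _)).eventually_eq_zero_or_eventually_ne_zero with h | h
    · exfalso
      have := (hFa y).eqOn_zero_of_preconnected_of_eventuallyEq_zero isPreconnected_univ
        (Set.mem_univ x₀) h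
      exact h1 (this (Set.mem_univ x₁))
    · exact h
  rw [eventually_nhdsWithin_iff, Metric.eventually_nhds_iff] at hiso
  obtain ⟨δ, hδ, hiso⟩ := hiso
  set r : ℝ := min (δ / 2) (R / 2) with hr
  have hr0 : 0 < r := lt_min (by positivity) (by positivity)
  have hrδ : r < δ := lt_of_le_of_lt (min_le_left _ _) (by linarith)
  have hrR : r < R := lt_of_le_of_lt (min_le_right _ _) (by linarith)
  have hsph : ∀ x ∈ sphere x₀ r, F (x, y) ≠ 0 := by
    intro x hx
    have hx' : dist x x₀ = r := hx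
    refine hiso (by rw [hx']; exact hrδ) ?_
    intro hxx
    have : x = x₀ := hxx
    rw [this, dist_self] at hx'
    exact absurd hx' hr0.ne
  -- the minimum on the circle
  have hcomp : IsCompact (sphere x₀ r) := isCompact_sphere x₀ r
  have hne : (sphere x₀ r).Nonempty := NormedSpace.sphere_nonempty.mpr hr0.le
  obtain ⟨xm, hxm, hmin⟩ := hcomp.exists_isMinOn hne
    (f := fun x => ‖F (x, y)‖) (by
      have : Continuous (fun x : ℂ => ‖F (x, y)‖) := by
        exact (hFc.comp (by fun_prop)).norm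
      exact this.continuousOn)
  set c : ℝ := ‖F (xm, y)‖ with hc
  have hc0 : 0 < c := norm_pos_iff.mpr (hsph xm hxm)
  have hmin' : ∀ x ∈ sphere x₀ r, c ≤ ‖F (x, y)‖ := fun x hx => hmin hx
  -- the tube
  set N : Set (ℂ × (Fin m → ℝ)) :=
    {p | c / 2 < ‖F p - F (x₀, p.2)‖} with hN
  have hNo : IsOpen N := by
    refine isOpen_lt continuous_const ?_
    exact (hFc.sub (hFc.comp (by fun_prop))).norm
  have hsub : sphere x₀ r ×ˢ ({y} : Set (Fin m → ℝ)) ⊆ N := by
    rintro ⟨x, z⟩ ⟨hx, hz⟩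
    have hz' : z = y := hz
    subst hz'
    have h00 : F (x₀, z) = 0 := h0
    simp only [hN, Set.mem_ofPred_eq, h00, sub_zero]
    have := hmin' x hx
    linarith
  obtain ⟨u, v, -, hvo, hu, hv, huv⟩ :=
    generalized_tube_lemma hcomp isCompact_singleton hNo hsub
  have hvy : y ∈ v := hv rfl
  have hW : IsOpen {z : Fin m → ℝ | ‖F (x₀, z)‖ < c / 4} := by
    refine isOpen_lt ?_ continuous_const
    exact (hFc.comp (by fun_prop)).norm
  have hyW : y ∈ {z : Fin m → ℝ | ‖F (x₀, z)‖ < c / 4} := by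
    have h00 : F (x₀, y) = 0 := h0
    simp only [Set.mem_ofPred_eq, h00, norm_zero]
    positivity
  have hvW : v ∩ {z : Fin m → ℝ | ‖F (x₀, z)‖ < c / 4} ∈ 𝓝 y :=
    (hvo.inter hW).mem_nhds ⟨hvy, hyW⟩
  obtain ⟨ε, hε, hball⟩ := Metric.mem_nhds_iff.mp hvW
  refine ⟨ε, hε, fun z hz => ?_⟩
  have hzb : z ∈ ball y ε := by
    rw [mem_ball, dist_pi_lt_iff hε]
    intro j
    rw [Real.dist_eq]
    exact hz j
  obtain ⟨hzv, hzW⟩ := hball hzb
  have hzW' : ‖F (x₀, z)‖ < c / 4 := hzW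
  have hbd : ∀ x ∈ sphere x₀ r, c / 2 ≤ ‖F (x, z) - F (x₀, z)‖ := by
    intro x hx
    have : ((x, z) : ℂ × (Fin m → ℝ)) ∈ N := huv ⟨hu hx, hzv⟩
    exact le_of_lt this
  have hfreq : ∃ᶠ x in 𝓝 x₀, F (x, z) ≠ F (x₀, z) := by
    intro hcon
    have hcon' : (fun x => F (x, z)) =ᶠ[𝓝 x₀] (fun _ => F (x₀, z)) := by
      filter_upwards [hcon] with x hx
      simpa using hx
    have heq := (hFa z).eqOn_of_preconnected_of_eventuallyEq
      (analyticOnNhd_const) isPreconnected_univ (Set.mem_univ x₀) hcon'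
    have h3 : F (xm, z) = F (x₀, z) := heq (Set.mem_univ xm)
    have h4 := hbd xm hxm
    rw [h3, sub_self, norm_zero] at h4
    linarith
  have himg := ((hFd z).diffContOnCl (s := ball x₀ r)).ball_subset_image_closedBall hr0 hbd hfreq
  have h0mem : (0 : ℂ) ∈ ball (F (x₀, z)) (c / 2 / 2) := by
    rw [mem_ball, dist_eq_norm, zero_sub, norm_neg]
    linarith
  obtain ⟨x, hx, hx0⟩ := himg h0mem
  refine ⟨x, ?_, hx0⟩
  rw [← dist_eq_norm]
  exact lt_of_le_of_lt (mem_closedBall.mp hx) hrR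

/-- Continuity of roots. -/
private lemma root_near {k : Subfield ℂ} {m : ℕ} (L : MvPolynomial (Fin (m + 1)) k)
    (y : Fin m → ℝ) (x₀ x₁ : ℂ)
    (h0 : aeval (Fin.cons x₀ (fun j => Complex.I * (y j : ℂ)) : Fin (m + 1) → ℂ) L = 0)
    (h1 : aeval (Fin.cons x₁ (fun j => Complex.I * (y j : ℂ)) : Fin (m + 1) → ℂ) L ≠ 0)
    (R : ℝ) (hR : 0 < R) :
    ∃ ε : ℝ, 0 < ε ∧ ∀ z : Fin m → ℝ, (∀ j, |z j - y j| < ε) →
      ∃ x : ℂ, ‖x - x₀‖ < R ∧
        aeval (Fin.cons x (fun j => Complex.I * (z j : ℂ)) : Fin (m + 1) → ℂ) L = 0 :=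
  root_near_fun (fun p : ℂ × (Fin m → ℝ) =>
      aeval (Fin.cons p.1 (fun j => Complex.I * (p.2 j : ℂ)) : Fin (m + 1) → ℂ) L)
    (cont_aeval_cons L) (fun z => diff_aeval_cons L (fun j => Complex.I * (z j : ℂ)))
    y x₀ x₁ h0 h1 R hR

/-- `exists_dir` for a direction with a root of positive imaginary part. -/
private lemma exists_dir_pos (k : Subfield ℂ) {m d : ℕ}
    (hind : ∀ (y : Fin m → ℝ) (ε : ℝ), 0 < ε → ∃ z : Fin m → ℝ, (∀ j, |z j - y j| < ε) ∧
      AlgebraicIndependent k (fun j => Complex.I * (z j : ℂ)))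
    (L : MvPolynomial (Fin (m + 1)) k) (hL : L.IsHomogeneous d) (y : Fin m → ℝ) (ρ ρ' : ℂ)
    (hρ : 0 < ρ.im)
    (h0 : aeval (Fin.cons ρ (fun j => (y j : ℂ)) : Fin (m + 1) → ℂ) L = 0)
    (h1 : aeval (Fin.cons ρ' (fun j => (y j : ℂ)) : Fin (m + 1) → ℂ) L ≠ 0) :
    ∃ (α : Fin m → ℂ) (ρ₀ : ℂ), (∀ j, (α j).re = 0) ∧ AlgebraicIndependent k α ∧ ρ₀.re < 0 ∧
      aeval (Fin.cons ρ₀ α : Fin (m + 1) → ℂ) L = 0 := by
  have hsc : ∀ x : ℂ, aeval (Fin.cons (Complex.I * x)
      (fun j => Complex.I * (y j : ℂ)) : Fin (m + 1) → ℂ) L =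
      Complex.I ^ d * aeval (Fin.cons x (fun j => (y j : ℂ)) : Fin (m + 1) → ℂ) L := by
    intro x
    rw [← aeval_scale L hL]
    congr 2
    funext i
    refine Fin.cases ?_ (fun j => ?_) i
    · simp
    · simp
  obtain ⟨ε, hε, hroot⟩ := root_near L y (Complex.I * ρ) (Complex.I * ρ')
    (by rw [hsc, h0, mul_zero])
    (by rw [hsc]; exact mul_ne_zero (pow_ne_zero _ Complex.I_ne_zero) h1) ρ.im hρ
  obtain ⟨z, hz, hzi⟩ := hind y ε hε
  obtain ⟨x, hx, hx0⟩ := hroot z hz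
  refine ⟨fun j => Complex.I * (z j : ℂ), x, fun j => by simp, hzi, ?_, hx0⟩
  have h2 : |(x - Complex.I * ρ).re| ≤ ‖x - Complex.I * ρ‖ := Complex.abs_re_le_norm _
  have h3 : (x - Complex.I * ρ).re = x.re + ρ.im := by simp
  rw [h3] at h2
  have h4 := le_abs_self (x.re + ρ.im)
  linarith

/-- `exists_dir` from `exists_ind_near`. -/
theorem exists_dir_aux (k : Subfield ℂ) {m d : ℕ}
    (hind : ∀ (y : Fin m → ℝ) (ε : ℝ), 0 < ε → ∃ z : Fin m → ℝ, (∀ j, |z j - y j| < ε) ∧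
      AlgebraicIndependent k (fun j => Complex.I * (z j : ℂ)))
    (L : MvPolynomial (Fin (m + 1)) k) (hL : L.IsHomogeneous d) (y : Fin m → ℝ) (ρ ρ' : ℂ)
    (hρ : ρ.im ≠ 0)
    (h0 : aeval (Fin.cons ρ (fun j => (y j : ℂ)) : Fin (m + 1) → ℂ) L = 0)
    (h1 : aeval (Fin.cons ρ' (fun j => (y j : ℂ)) : Fin (m + 1) → ℂ) L ≠ 0) :
    ∃ (α : Fin m → ℂ) (ρ₀ : ℂ), (∀ j, (α j).re = 0) ∧ AlgebraicIndependent k α ∧ ρ₀.re < 0 ∧
      aeval (Fin.cons ρ₀ α : Fin (m + 1) → ℂ) L = 0 := by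
  rcases lt_or_gt_of_ne hρ with hneg | hpos
  · have hsc : ∀ x : ℂ, aeval (Fin.cons (-x)
        (fun j => (((-y j : ℝ)) : ℂ)) : Fin (m + 1) → ℂ) L =
        (-1) ^ d * aeval (Fin.cons x (fun j => (y j : ℂ)) : Fin (m + 1) → ℂ) L := by
      intro x
      rw [← aeval_scale L hL]
      congr 2
      funext i
      refine Fin.cases ?_ (fun j => ?_) i
      · simp
      · simp
    refine exists_dir_pos k hind L hL (fun j => -y j) (-ρ) (-ρ') ?_ ?_ ?_
    · simpa using hneg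
    · rw [hsc, h0, mul_zero]
    · rw [hsc]
      exact mul_ne_zero (pow_ne_zero _ (by norm_num)) h1
  · exact exists_dir_pos k hind L hL y ρ ρ' hpos h0 h1

end Pool.Agent.EXK
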