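import Mathlib

/-!
# EXK / KReB: algebraically independent purely imaginary points near a given one
-/

set_option autoImplicit false

namespace Pool.Agent.EXK

private lemma countable_adjoin (k : Subfield ℂ) (hk : (k : Set ℂ).Countable) {m : ℕ}
    (w : Fin m → ℂ) : Countable (Algebra.adjoin k (Set.range w)) := by
  have : Countable k := hk.to_subtype
  have h1 : Countable (MvPolynomial (Fin m) k) := by
    rw [← Cardinal.mk_le_aleph0_iff]
    refine (MvPolynomial.cardinalMk_le_max (σ := Fin m) (R := k)).trans ?_
    refine max_le (max_le ?_ ?_) le_rfl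
    · exact Cardinal.mk_le_aleph0
    · exact Cardinal.mk_le_aleph0
  have h2 : Algebra.adjoin k (Set.range w) = (MvPolynomial.aeval (R := k) w).range :=
    Algebra.adjoin_range_eq_range_aeval k w
  rw [h2]
  exact (Set.countable_range (MvPolynomial.aeval (R := k) w)).to_subtype

/-- The statement `exists_ind_near`. -/
theorem exists_ind_near_aux (k : Subfield ℂ) (hk : (k : Set ℂ).Countable) {m : ℕ}
    (y : Fin m → ℝ) (ε : ℝ) (hε : 0 < ε) :
    ∃ z : Fin m → ℝ, (∀ j, |z j - y j| < ε) ∧
      AlgebraicIndependent k (fun j => Complex.I * (z j : ℂ)) := by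
  induction m with
  | zero =>
    refine ⟨y, fun j => j.elim0, ?_⟩
    exact algebraicIndependent_empty_type_iff.mpr (algebraMap k ℂ).injective
  | succ m ih =>
    obtain ⟨z', hz', hi⟩ := ih (fun j => y j.succ)
    set w : Fin m → ℂ := fun j => Complex.I * (z' j : ℂ) with hw
    have := countable_adjoin k hk w
    have hc : Set.Countable {x : ℂ | IsAlgebraic (Algebra.adjoin k (Set.range w)) x} :=
      Algebraic.countable (Algebra.adjoin k (Set.range w)) ℂ
    have hS : Set.Countable {t : ℝ | IsAlgebraic (Algebra.adjoin k (Set.range w))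
        (Complex.I * (t : ℂ))} := by
      refine hc.preimage_of_injOn (f := fun t : ℝ => Complex.I * (t : ℂ)) ?_
      intro s _ t _ hst
      have : (s : ℂ) = t := mul_left_cancel₀ Complex.I_ne_zero hst
      exact_mod_cast this
    obtain ⟨t, ht1, ht2⟩ := (hS.dense_compl ℝ).exists_mem_open
      (isOpen_Ioo (a := y 0 - ε) (b := y 0 + ε)) ⟨y 0, by constructor <;> linarith⟩
    have htr : Transcendental (Algebra.adjoin k (Set.range w)) (Complex.I * (t : ℂ)) := ht1
    have h3 : AlgebraicIndependent k
        (fun o : Option (Fin m) => o.elim (Complex.I * (t : ℂ)) w) :=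
      (hi.option_iff_transcendental _).2 htr
    refine ⟨Fin.cons t z', ?_, ?_⟩
    · intro j
      refine Fin.cases ?_ (fun i => ?_) j
      · simp only [Fin.cons_zero]
        rw [abs_lt]
        constructor <;> linarith [ht2.1, ht2.2]
      · simp only [Fin.cons_succ]
        exact hz' i
    · have h4 := (algebraicIndependent_equiv (finSuccEquiv m)
        (f := fun o : Option (Fin m) => o.elim (Complex.I * (t : ℂ)) w) (R := k)).2 h3
      convert! h4 using 1
      funext j
      refine Fin.cases ?_ (fun i => ?_) j
      · simp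
      · simp [hw]

end Pool.Agent.EXK
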