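import Pool.Agent.EXK.KDefs
import Pool.Agent.EXK.KReA
import Pool.Agent.EXK.KReB

/-!
# EXK / KRe: a purely imaginary generic direction with a root of negative real part

PROOF of `exists_dir`.  `L` is homogeneous, so `aeval (c x) L = c ^ d * aeval x L`. Replacing
`(ρ, y, ρ')` by `(-ρ, -y, -ρ')` we may assume `0 < ρ.im`. Then `x₀ = i ρ` has real part `-ρ.im < 0`, and
`aeval (cons (i ρ) (i y)) L = 0`, `aeval (cons (i ρ') (i y)) L ≠ 0`. Let `p_z(X) = aeval (cons X (i z)) L`
for `z ∈ ℝ^m` (a polynomial in `X`, jointly continuous in `(X, z)`), `p_y ≠ 0`. Take `r > 0`,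
`r < ρ.im / 2`, such that `p_y` has no zero on the circle `|X - x₀| = r` (finitely many zeros), `c` the
minimum of `|p_y|` on it. For `z` near `y` (uniform continuity on the compact circle):
`|p_z| ≥ c/2` on the circle and `|p_z(x₀)| < c/2`, so `p_z` has a zero in the disc
(otherwise the maximum principle for `1/p_z`). Finally choose `z` near `y` with `i z` algebraically
independent over `k` (`exists_ind_near`).
PROOF of `exists_ind_near`.  Induction on `m` (`Fin.snoc` / `Fin.init`, or `Fin.cons`): the numbers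
algebraic over the countable field generated by `k` and the previous coordinates are countable, the
interval is not countable; `AlgebraicIndependent.option_iff_transcendental` (see `top_alg` in
EXI/CTd.lean) for the last step.
-/

set_option autoImplicit false

namespace Pool.Agent.EXK

open MvPolynomial Pool.Agent.EXL Pool.Agent.EXI

theorem exists_ind_near (k : Subfield ℂ) (hk : (k : Set ℂ).Countable) {m : ℕ} (y : Fin m → ℝ)
    (ε : ℝ) (hε : 0 < ε) :
    ∃ z : Fin m → ℝ, (∀ j, |z j - y j| < ε) ∧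
      AlgebraicIndependent k (fun j => Complex.I * (z j : ℂ)) := by
  exact exists_ind_near_aux k hk y ε hε

theorem exists_dir (k : Subfield ℂ) (hk : (k : Set ℂ).Countable) {m d : ℕ}
    (L : MvPolynomial (Fin (m + 1)) k) (hL : L.IsHomogeneous d) (y : Fin m → ℝ) (ρ ρ' : ℂ)
    (hρ : ρ.im ≠ 0)
    (h0 : aeval (Fin.cons ρ (fun j => (y j : ℂ)) : Fin (m + 1) → ℂ) L = 0)
    (h1 : aeval (Fin.cons ρ' (fun j => (y j : ℂ)) : Fin (m + 1) → ℂ) L ≠ 0) :
    ∃ (α : Fin m → ℂ) (ρ₀ : ℂ), (∀ j, (α j).re = 0) ∧ AlgebraicIndependent k α ∧ ρ₀.re < 0 ∧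
      aeval (Fin.cons ρ₀ α : Fin (m + 1) → ℂ) L = 0 := by
  exact exists_dir_aux k (fun y ε hε => exists_ind_near k hk y ε hε) L hL y ρ ρ' hρ h0 h1

end Pool.Agent.EXK
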