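import Pool.Agent.EXJ.JDefs

/-!
# EXK / KGen: generic points of varieties over countable fields containing given constants

Copy of EXJ/JGen with a countable set `C₀` of constants instead of the coefficients of `h`.

PROOF.  `P` is generated by finitely many polynomials `f_1, .., f_r` (Hilbert's basis theorem). Let `k`
be the algebraic closure in `ℂ` of the field generated by the coefficients of the `f_i` and of `h`:
`k = consts (DerOver S)`, `S` the finite set of these coefficients; it is countable (`countable_consts`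
in JRed; or prove it here: `Algebraic.countable`) and algebraically closed. Let
`P_k = P.comap (map (algebraMap k ℂ))`, a prime ideal of `k[X]`; `f_i`, `h` are images of polynomials
over `k`. The field `F = Frac (k[X]/P_k)` is a countable extension of `k`. There is a `k`-embedding
`F → ℂ`: let `B ⊆ F` be a transcendence basis of `F/k` (countable); `ℂ` has uncountable transcendence
degree over the countable field `k`, so there is an algebraically independent family `B → ℂ`; it gives
`k(B) → ℂ`, which extends to the algebraic extension `F/k(B)` since `ℂ` is algebraically closed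
(`IsAlgClosed.lift`). (Mathlib: `IsAlgClosed.lift`, `IsTranscendenceBasis`,
`Algebra.trdeg`/`Cardinal` lemmas; see also the proof of `exists_aut` in `EXL/Aut.lean` for the
cardinality argument. Alternative: only finitely many generators: choose a subset of the coordinates
which is a transcendence basis of `F/k` and induct.) `p_i` := image of `X_i`.
-/

set_option autoImplicit false

namespace Pool.Agent.EXK

open MvPolynomial Pool.Agent.EXL Pool.Agent.EXI

open Cardinal in
/-- Uncountable algebraically closed fields containing the same countable ring are isomorphic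
over it. -/
private theorem gen_iso {R K L : Type} [CommRing R] [Field K] [Field L] [Algebra R K] [Algebra R L]
    [IsAlgClosed K] [IsAlgClosed L] [FaithfulSMul R K] [FaithfulSMul R L]
    (hR : #R ≤ ℵ₀) (hK : ℵ₀ < #K) (hKL : #K = #L) :
    ∃ σ : K ≃+* L, ∀ r, σ (algebraMap R K r) = algebraMap R L r := by
  obtain ⟨s, hs⟩ := exists_isTranscendenceBasis R K
  obtain ⟨t, ht⟩ := exists_isTranscendenceBasis R L
  have : Nontrivial R := RingHom.domain_nontrivial (algebraMap R K)
  have h1 := IsAlgClosed.cardinal_eq_cardinal_transcendence_basis_of_aleph0_lt' _ hs hR hK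
  have h2 := IsAlgClosed.cardinal_eq_cardinal_transcendence_basis_of_aleph0_lt' _ ht hR (hKL ▸ hK)
  obtain ⟨e⟩ := Cardinal.eq.1 (h1.symm.trans (hKL.trans h2))
  let := IsAlgClosed.isAlgClosure_of_transcendence_basis _ hs
  let := IsAlgClosed.isAlgClosure_of_transcendence_basis _ ht
  have e' : Algebra.adjoin R (Set.range (Subtype.val : s → K)) ≃ₐ[R]
      Algebra.adjoin R (Set.range (Subtype.val : t → L)) :=
    (hs.1.aevalEquiv.symm.trans (MvPolynomial.renameEquiv R e)).trans ht.1.aevalEquiv
  refine ⟨IsAlgClosure.equivOfEquiv K L e'.toRingEquiv, fun r => ?_⟩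
  have h3 : algebraMap R K r = algebraMap (Algebra.adjoin R (Set.range (Subtype.val : s → K))) K
    (algebraMap R _ r) := rfl
  rw [h3, IsAlgClosure.equivOfEquiv_algebraMap]
  have h4 : e'.toRingEquiv (algebraMap R _ r) = algebraMap R _ r := e'.commutes r
  rw [h4]
  rfl

open Cardinal in
/-- A countable domain over a countable subfield of `ℂ` embeds into `ℂ` over this subfield. -/
private theorem gen_embed {k : Subfield ℂ} (hk : #k ≤ ℵ₀) {R : Type} [CommRing R] [IsDomain R]
    [Algebra k R] (hR : #R ≤ ℵ₀) : ∃ φ : R →ₐ[k] ℂ, Function.Injective φ := by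
  have hc : #(AlgebraicClosure (FractionRing (MvPolynomial ℝ R))) = #ℂ := by
    have h1 : #(MvPolynomial ℝ R) = 𝔠 := by
      rw [MvPolynomial.cardinalMk_eq_max, Cardinal.mk_real]
      rw [max_eq_right (hR.trans Cardinal.aleph0_le_continuum),
        max_eq_left Cardinal.aleph0_le_continuum]
    have h2 : #(FractionRing (MvPolynomial ℝ R)) = 𝔠 := by
      rw [FractionRing.cardinalMk, h1]
    have h3 := Algebra.IsAlgebraic.cardinalMk_le_max (FractionRing (MvPolynomial ℝ R))
      (AlgebraicClosure (FractionRing (MvPolynomial ℝ R)))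
    rw [h2, max_eq_left Cardinal.aleph0_le_continuum] at h3
    rw [Cardinal.mk_complex]
    refine le_antisymm h3 ?_
    rw [← h2]
    exact Cardinal.mk_le_of_injective
      (algebraMap (FractionRing (MvPolynomial ℝ R))
        (AlgebraicClosure (FractionRing (MvPolynomial ℝ R)))).injective
  have hK : ℵ₀ < #(AlgebraicClosure (FractionRing (MvPolynomial ℝ R))) := by
    rw [hc, Cardinal.mk_complex]
    exact Cardinal.aleph0_lt_continuum
  have f1 : FaithfulSMul k (AlgebraicClosure (FractionRing (MvPolynomial ℝ R))) :=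
    (faithfulSMul_iff_algebraMap_injective _ _).2 (algebraMap k _).injective
  have f2 : FaithfulSMul k ℂ :=
    (faithfulSMul_iff_algebraMap_injective _ _).2 (algebraMap k _).injective
  obtain ⟨σ, hσ⟩ := gen_iso (R := k) (K := AlgebraicClosure (FractionRing (MvPolynomial ℝ R)))
    (L := ℂ) hk hK hc
  let ψ : R →ₐ[k] AlgebraicClosure (FractionRing (MvPolynomial ℝ R)) :=
    (IsScalarTower.toAlgHom k (FractionRing (MvPolynomial ℝ R)) _).comp
      ((IsScalarTower.toAlgHom k (MvPolynomial ℝ R) _).comp (IsScalarTower.toAlgHom k R _))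
  have hψ : Function.Injective ψ := by
    intro a b hab
    have h1 : algebraMap (FractionRing (MvPolynomial ℝ R))
        (AlgebraicClosure (FractionRing (MvPolynomial ℝ R)))
        (algebraMap (MvPolynomial ℝ R) (FractionRing (MvPolynomial ℝ R)) (C a)) =
        algebraMap (FractionRing (MvPolynomial ℝ R))
        (AlgebraicClosure (FractionRing (MvPolynomial ℝ R)))
        (algebraMap (MvPolynomial ℝ R) (FractionRing (MvPolynomial ℝ R)) (C b)) := hab
    exact MvPolynomial.C_injective ℝ R (IsFractionRing.injective (MvPolynomial ℝ R)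
      (FractionRing (MvPolynomial ℝ R))
      ((algebraMap (FractionRing (MvPolynomial ℝ R)) _).injective h1))
  refine ⟨{ toRingHom := (σ : _ →+* ℂ).comp ψ.toRingHom, commutes' := fun r => ?_ }, ?_⟩
  · show σ (ψ (algebraMap k R r)) = algebraMap k ℂ r
    rw [ψ.commutes, hσ]
  · exact σ.injective.comp hψ

theorem exists_generic2 {σ : Type} [Finite σ] (P : Ideal (MvPolynomial σ ℂ)) (hP : P.IsPrime)
    (C₀ : Set ℂ) (hC₀ : C₀.Countable) :
    ∃ (k : Subfield ℂ) (_ : (k : Set ℂ).Countable) (p : σ → ℂ), C₀ ⊆ k ∧
      (∀ f : MvPolynomial σ k, aeval p f = 0 ↔ map (algebraMap k ℂ) f ∈ P) ∧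
      ∀ x : σ → ℂ, (∀ f : MvPolynomial σ k, map (algebraMap k ℂ) f ∈ P → aeval x f = 0) →
        ∀ f ∈ P, eval x f = 0 := by
  classical
  obtain ⟨S, hS⟩ := IsNoetherian.noetherian P
  -- the countable field of coefficients
  let C : Set ℂ := C₀ ∪ ⋃ f ∈ S, ((f : MvPolynomial σ ℂ).coeffs : Set ℂ)
  let k : Subfield ℂ := Subfield.closure C
  have hC : C.Countable := by
    refine hC₀.union (Set.Countable.biUnion (Finset.countable_toSet _) fun f _ => ?_)
    exact Finset.countable_toSet _
  have hk' : Cardinal.mk k ≤ Cardinal.aleph0 := by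
    refine (Subfield.cardinalMk_closure_le_max C).trans ?_
    exact max_le (Cardinal.mk_le_aleph0_iff.2 hC.to_subtype) le_rfl
  have hk : (k : Set ℂ).Countable := by
    rw [← Set.countable_coe_iff]
    exact Cardinal.mk_le_aleph0_iff.1 hk'
  have hrange : ∀ f ∈ S, ∃ g : MvPolynomial σ k, map (algebraMap k ℂ) g = f := by
    intro f hf
    have : f ∈ Set.range (MvPolynomial.map (algebraMap k ℂ)) := by
      rw [MvPolynomial.mem_range_map_iff_coeffs_subset]
      intro c hc
      refine ⟨⟨c, Subfield.subset_closure (Or.inr (Set.mem_biUnion hf hc))⟩, rfl⟩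
    exact this
  let Pk : Ideal (MvPolynomial σ k) := P.comap (map (algebraMap k ℂ))
  have hPk : Pk.IsPrime := Ideal.IsPrime.comap _
  have hcQ : Cardinal.mk (MvPolynomial σ k ⧸ Pk) ≤ Cardinal.aleph0 := by
    refine (Cardinal.mk_le_of_surjective Ideal.Quotient.mk_surjective).trans ?_
    refine MvPolynomial.cardinalMk_le_max.trans ?_
    exact max_le (max_le hk' Cardinal.mk_le_aleph0) le_rfl
  obtain ⟨φ, hφ⟩ := gen_embed (k := k) hk' (R := MvPolynomial σ k ⧸ Pk) hcQ
  refine ⟨k, hk, fun i => φ (Ideal.Quotient.mk Pk (X i)), ?_, ?_, ?_⟩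
  · exact fun c hc => Subfield.subset_closure (Or.inl hc)
  · intro f
    have h1 : aeval (fun i => φ (Ideal.Quotient.mk Pk (X i))) f = φ (Ideal.Quotient.mk Pk f) := by
      have h2 : aeval (fun i => φ (Ideal.Quotient.mk Pk (X i))) =
          φ.comp (Ideal.Quotient.mkₐ k Pk) := by
        refine MvPolynomial.algHom_ext fun i => ?_
        rw [aeval_X]
        rfl
      rw [h2]
      rfl
    rw [h1, map_eq_zero_iff φ hφ, Ideal.Quotient.eq_zero_iff_mem]
    rfl
  · intro x hx f hf
    have h1 : P ≤ RingHom.ker (eval x : MvPolynomial σ ℂ →+* ℂ) := by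
      rw [← hS]
      refine Submodule.span_le.2 fun s hs => ?_
      obtain ⟨g, hg⟩ := hrange s hs
      have h2 : map (algebraMap k ℂ) g ∈ P := by
        rw [hg, ← hS]
        exact Submodule.subset_span hs
      have h3 := hx g h2
      show eval x s = 0
      rw [← hg, eval_map]
      exact h3
    exact h1 hf

/-- Descent of a polynomial to a subfield containing its coefficients. -/
theorem exists_descent {σ : Type} (k : Subfield ℂ) (f : MvPolynomial σ ℂ)
    (hf : (f.coeffs : Set ℂ) ⊆ k) : ∃ g : MvPolynomial σ k, map (algebraMap k ℂ) g = f := by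
  have : f ∈ Set.range (MvPolynomial.map (algebraMap k ℂ)) := by
    rw [MvPolynomial.mem_range_map_iff_coeffs_subset]
    intro c hc
    exact ⟨⟨c, hf hc⟩, rfl⟩
  exact this

theorem exists_gen {σ : Type} [Finite σ] (P : Ideal (MvPolynomial σ ℂ)) (hP : P.IsPrime)
    (T : Finset (MvPolynomial σ ℂ)) :
    ∃ (k : Subfield ℂ) (_ : (k : Set ℂ).Countable) (p : σ → ℂ),
      (∀ h ∈ T, ∃ h₀ : MvPolynomial σ k, map (algebraMap k ℂ) h₀ = h) ∧
      (∀ f : MvPolynomial σ k, aeval p f = 0 ↔ map (algebraMap k ℂ) f ∈ P) ∧
      ∀ x : σ → ℂ, (∀ f : MvPolynomial σ k, map (algebraMap k ℂ) f ∈ P → aeval x f = 0) →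
        ∀ f ∈ P, eval x f = 0 := by
  classical
  obtain ⟨k, hk, p, hC, hp, hx⟩ := exists_generic2 P hP
    (⋃ f ∈ T, ((f : MvPolynomial σ ℂ).coeffs : Set ℂ))
    (Set.Countable.biUnion (Finset.countable_toSet _) fun f _ => Finset.countable_toSet _)
  exact ⟨k, hk, p, fun h hh => exists_descent k h
    fun c hc => hC (Set.mem_biUnion hh hc), hp, hx⟩

end Pool.Agent.EXK
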