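import Pool.Agent.EXI.CTd

/-!
# EXK / KKer: hypersurfaces

PROOF of `td_of_ker`.  `td k a ≤ m`: `rk_le_card` and `ind_iff` (`td = m + 1` iff `a` is algebraically
independent; but `F(a) = 0`, `F ≠ 0`). `td k a ≥ m`: let `S` be a set of coordinates with `a|S` a
transcendence basis (`exists_basis`, EXL/Tdi). If `|S| ≤ m - 1` there are `i ≠ j` not in `S`; there are
nonzero polynomials `G_i ∈ k[X_S, X_i]`, `G_j ∈ k[X_S, X_j]` vanishing at `a`; `F ∣ G_i`, `F ∣ G_j`, so `F`
does not contain `X_j` (degree of a product in `X_j`) and not `X_i`, and no other variable outside `S`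
(take `G_i` for the other variables); so `F ∈ k[X_S]` vanishes at `a|S`, `F ≠ 0`: a contradiction.
(With `vars` or `degreeOf`: `MvPolynomial.degreeOf_mul_eq` ..)
PROOF of `dvd_of_map`.  Let `r : ℂ → k` be `k`-linear with `r 1 = 1` (`k` is a direct summand of `ℂ`,
`exists_leftInverse` of `algebraMap`/`LinearMap`); apply `r` to the coefficients: `R : MvPolynomial σ ℂ →
MvPolynomial σ k` is `k[X]`-linear, so `map f = map F * q` gives `f = F * R q`.
-/

set_option autoImplicit false

namespace Pool.Agent.EXK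

open MvPolynomial Pool.Agent.EXL Pool.Agent.EXI

theorem td_of_ker (k : Subfield ℂ) {m : ℕ} (a : Fin (m + 1) → ℂ) (F : MvPolynomial (Fin (m + 1)) k)
    (hF0 : F ≠ 0) (hF : ∀ f : MvPolynomial (Fin (m + 1)) k, aeval a f = 0 ↔ F ∣ f) :
    td (k : Set ℂ) a = m := by
  classical
  have hFa : aeval a F = 0 := (hF F).2 dvd_rfl
  have hle : td (k : Set ℂ) a ≤ m + 1 := by
    have := rk_le_card (DerOver (k : Set ℂ)) a
    rwa [Fintype.card_fin] at this
  have hne : td (k : Set ℂ) a ≠ m + 1 := by
    intro h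
    have h1 := (ind_iff k a).2 h
    exact hF0 ((algebraicIndependent_iff.1 h1) F hFa)
  -- a variable of `F`
  have hv : F.vars.Nonempty := by
    rw [Finset.nonempty_iff_ne_empty]
    intro h
    rw [vars_eq_empty_iff_eq_C] at h
    rw [h] at hFa hF0
    rw [aeval_C] at hFa
    apply hF0
    rw [(map_eq_zero (algebraMap k ℂ)).1 hFa, C_0]
  obtain ⟨i0, hi0⟩ := hv
  have hd : F.degreeOf i0 ≠ 0 := mem_vars_iff_degreeOf_ne_zero.1 hi0
  have hind : AlgebraicIndependent k (fun i : (Finset.univ.erase i0 : Finset (Fin (m + 1))) =>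
      a i) := by
    rw [algebraicIndependent_iff]
    intro p hp
    by_contra hp0
    have h1 : aeval a (rename (fun i : (Finset.univ.erase i0 : Finset (Fin (m + 1))) =>
        (i : Fin (m + 1))) p) = 0 := by
      rw [aeval_rename]
      exact hp
    obtain ⟨q, hq⟩ := (hF _).1 h1
    have h2 : rename (fun i : (Finset.univ.erase i0 : Finset (Fin (m + 1))) =>
        (i : Fin (m + 1))) p ≠ 0 := by
      intro h
      exact hp0 (rename_injective _ Subtype.val_injective (h.trans (map_zero _).symm))
    have hq0 : q ≠ 0 := by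
      rintro rfl
      rw [mul_zero] at hq
      exact h2 hq
    have h3 : degreeOf i0 (rename (fun i : (Finset.univ.erase i0 : Finset (Fin (m + 1))) =>
        (i : Fin (m + 1))) p) ≠ 0 := by
      rw [hq, degreeOf_mul_eq hF0 hq0]
      omega
    rw [← mem_vars_iff_degreeOf_ne_zero] at h3
    obtain ⟨i, -, hi⟩ := mem_vars_rename _ _ h3
    exact (Finset.mem_erase.1 i.2).1 hi
  have hge := card_le_td (k := k) a (Finset.univ.erase i0) hind
  have hr : Set.range (algebraMap k ℂ) = (k : Set ℂ) := by
    ext x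
    constructor
    · rintro ⟨c, rfl⟩
      exact c.2
    · intro hx
      exact ⟨⟨x, hx⟩, rfl⟩
  rw [hr, Finset.card_erase_of_mem (Finset.mem_univ _), Finset.card_univ, Fintype.card_fin] at hge
  omega

theorem dvd_of_map (k : Subfield ℂ) {σ : Type} (F f : MvPolynomial σ k)
    (h : map (algebraMap k ℂ) F ∣ map (algebraMap k ℂ) f) : F ∣ f := by
  classical
  obtain ⟨q, hq⟩ := h
  obtain ⟨r, hr⟩ := LinearMap.exists_leftInverse_of_injective (Algebra.linearMap k ℂ)
    (LinearMap.ker_eq_bot.2 (algebraMap k ℂ).injective)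
  have hr' : ∀ c : k, r (algebraMap k ℂ c) = c := fun c => LinearMap.congr_fun hr c
  let R : MvPolynomial σ k := ∑ m ∈ q.support, monomial m (r (coeff m q))
  have hR : ∀ n, coeff n R = r (coeff n q) := by
    intro n
    rw [coeff_sum]
    simp only [coeff_monomial]
    rw [Finset.sum_ite_eq' q.support n (fun m => r (coeff m q))]
    split_ifs with hn
    · rfl
    · rw [notMem_support_iff.1 hn, map_zero]
  refine ⟨R, ?_⟩
  ext1 n
  have h1 := congrArg (fun p => r (coeff n p)) hq
  simp only [coeff_map, hr', coeff_mul, map_sum] at h1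
  rw [h1, coeff_mul]
  refine Finset.sum_congr rfl (fun x _ => ?_)
  rw [hR, ← Algebra.smul_def, map_smul, smul_eq_mul]

end Pool.Agent.EXK
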