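import Mathlib

/-!
# EXK / KNr: forms with a nonreal irreducible factor

`Gbar` is `G` with complex conjugate coefficients. If `G` is irreducible, homogeneous, `Gbar` is not a
multiple of `G`, and `G` is not invariant under the translation by `v`, then for every `K ≠ 0` there is
a real line in the direction `v` on which `G K` does not vanish identically and `G` has a nonreal zero.

PROOF.  Write `G(x + ρ v) = ∑_{i ≤ D} c_i(x) ρ^i`, `c_D ≠ 0` (polynomials in `x`), `D ≥ 1` (otherwise
`G(x + v) = G(x)`). `c_D(x + t v) = c_D(x)`, so `G ∤ c_D`: if `c_D(x) ≠ 0` then `G(x + ρ v) = 0` for some `ρ`, but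
`c_D(x + ρ v) = c_D(x) ≠ 0`. Suppose the conclusion is false. Let `y` be real with `c_D(y) ≠ 0`, `K(y) ≠ 0`: all zeros `ρ_i` of
`p(ρ) = G(y + ρ v)` are real, `p = c_D(y) ∏ (ρ - ρ_i)`, so `c_D(y) Gbar(y) = cbar_D(y) G(y)` (`ρ = 0`).
So the polynomial `(c_D Gbar - cbar_D G) c_D K` vanishes at all real points, hence is
zero, so `G ∣ c_D Gbar`, and as `G` is prime, `G ∣ c_D` or `G ∣ Gbar`.
-/

set_option autoImplicit false

namespace Pool.Agent.EXK

open MvPolynomial

/-- `G (x + ρ v)` as a polynomial in `ρ` -/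
private noncomputable def nrP {n : ℕ} (v : Fin n → ℤ) (G : MvPolynomial (Fin n) ℂ) :
    Polynomial (MvPolynomial (Fin n) ℂ) :=
  aeval (fun j => Polynomial.C (X j : MvPolynomial (Fin n) ℂ) +
    Polynomial.C (C (v j : ℂ) : MvPolynomial (Fin n) ℂ) * Polynomial.X) G

private theorem nrP_eval {n : ℕ} (v : Fin n → ℤ) (G : MvPolynomial (Fin n) ℂ) (x : Fin n → ℂ)
    (ρ : ℂ) : ((nrP v G).map (eval x)).eval ρ = eval (fun j => x j + ρ * v j) G := by
  unfold nrP
  induction G using MvPolynomial.induction_on with
  | C a =>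
    rw [MvPolynomial.aeval_C, Polynomial.algebraMap_apply, MvPolynomial.algebraMap_eq,
      Polynomial.map_C, Polynomial.eval_C, eval_C, eval_C]
  | add p q hp hq =>
    rw [map_add, Polynomial.map_add, Polynomial.eval_add, hp, hq, map_add]
  | mul_X p j hp =>
    rw [map_mul, Polynomial.map_mul, Polynomial.eval_mul, hp, map_mul, aeval_X, eval_X]
    congr 1
    simp only [Polynomial.map_add, Polynomial.map_mul, Polynomial.map_C, Polynomial.map_X,
      Polynomial.eval_add, Polynomial.eval_mul, Polynomial.eval_C, Polynomial.eval_X, eval_X,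
      eval_C]
    ring

private theorem nrP_zero {n : ℕ} (v : Fin n → ℤ) (G : MvPolynomial (Fin n) ℂ) (x : Fin n → ℂ) :
    ((nrP v G).map (eval x)).eval 0 = eval x G := by
  rw [nrP_eval]
  congr 2
  funext j
  rw [zero_mul, add_zero]

/-- the leading coefficient does not change along `v` -/
private theorem nrP_shift {n : ℕ} (v : Fin n → ℤ) (G : MvPolynomial (Fin n) ℂ) (x : Fin n → ℂ)
    (t : ℂ) (hx : eval x (nrP v G).leadingCoeff ≠ 0) :
    eval (fun j => x j + t * v j) (nrP v G).leadingCoeff = eval x (nrP v G).leadingCoeff := by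
  have h1 : (nrP v G).map (eval fun j => x j + t * v j) =
      ((nrP v G).map (eval x)).comp (Polynomial.X + Polynomial.C t) := by
    apply Polynomial.funext
    intro ρ
    rw [nrP_eval, Polynomial.eval_comp, nrP_eval]
    congr 2
    funext j
    rw [Polynomial.eval_add, Polynomial.eval_X, Polynomial.eval_C]
    ring
  have h2 : ((nrP v G).map (eval x)).natDegree = (nrP v G).natDegree :=
    Polynomial.natDegree_map_of_leadingCoeff_ne_zero _ hx
  have h3 : ((nrP v G).map (eval x)).leadingCoeff = eval x (nrP v G).leadingCoeff :=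
    Polynomial.leadingCoeff_map_of_leadingCoeff_ne_zero _ hx
  have h4 := congrArg (fun p => Polynomial.coeff p (nrP v G).natDegree) h1
  simp only [Polynomial.coeff_map] at h4
  have h5 : (((nrP v G).map (eval x)).comp (Polynomial.X + Polynomial.C t)).natDegree =
      (nrP v G).natDegree := by
    rw [Polynomial.natDegree_comp, Polynomial.natDegree_X_add_C, mul_one, h2]
  have h6 : (((nrP v G).map (eval x)).comp (Polynomial.X + Polynomial.C t)).leadingCoeff =
      eval x (nrP v G).leadingCoeff := by
    rw [Polynomial.leadingCoeff_comp (by rw [Polynomial.natDegree_X_add_C]; exact one_ne_zero),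
      Polynomial.leadingCoeff_X_add_C, one_pow, mul_one, h3]
  rw [Polynomial.leadingCoeff, h5] at h6
  rw [h6] at h4
  exact h4

private theorem eval_conj {n : ℕ} (G : MvPolynomial (Fin n) ℂ) (y : Fin n → ℝ) :
    eval (fun j => (y j : ℂ)) (map (starRingEnd ℂ) G) =
      starRingEnd ℂ (eval (fun j => (y j : ℂ)) G) := by
  induction G using MvPolynomial.induction_on with
  | C a => rw [map_C, eval_C, eval_C]
  | add p q hp hq => rw [map_add, map_add, map_add, map_add, hp, hq]
  | mul_X p j hp => rw [map_mul, map_mul, map_mul, map_mul, hp, map_X, eval_X, Complex.conj_ofReal]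

private theorem exists_eval_ne {n : ℕ} {G : MvPolynomial (Fin n) ℂ} (hG : G ≠ 0) :
    ∃ x : Fin n → ℂ, eval x G ≠ 0 := by
  by_contra h
  push Not at h
  exact hG (MvPolynomial.funext fun x => by rw [h x, map_zero])

/-- a polynomial which vanishes at all real points is zero -/
private theorem eq_zero_of_real {n : ℕ} {W : MvPolynomial (Fin n) ℂ}
    (h : ∀ y : Fin n → ℝ, eval (fun j => (y j : ℂ)) W = 0) : W = 0 := by
  refine MvPolynomial.funext_set (fun _ => Set.range (fun r : ℝ => (r : ℂ)))
    (fun _ => Set.infinite_range_of_injective Complex.ofReal_injective) (fun x hx => ?_)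
  have h1 : ∀ j, ∃ r : ℝ, (r : ℂ) = x j := fun j => hx j (Set.mem_univ j)
  choose y hy using h1
  have h2 := h y
  have h3 : (fun j => (y j : ℂ)) = x := funext hy
  rw [h3] at h2
  rw [h2, map_zero]

theorem nonreal_factor {n : ℕ} (G K : MvPolynomial (Fin n) ℂ) (d : ℕ) (hG : G.IsHomogeneous d)
    (hirr : Irreducible G) (hconj : ¬ G ∣ map (starRingEnd ℂ) G) (hK : K ≠ 0) (v : Fin n → ℤ)
    (hv : ∃ x : Fin n → ℂ, eval (fun j => x j + v j) G ≠ eval x G) :
    ∃ (y : Fin n → ℝ) (ρ ρ' : ℂ), ρ.im ≠ 0 ∧ eval (fun j => (y j : ℂ) + ρ * v j) (G * K) = 0 ∧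
      eval (fun j => (y j : ℂ) + ρ' * v j) (G * K) ≠ 0 := by
  have hG0 : G ≠ 0 := hirr.ne_zero
  have hP0 : nrP v G ≠ 0 := by
    intro h
    obtain ⟨x, hx⟩ := exists_eval_ne hG0
    apply hx
    rw [← nrP_zero v G x, h, Polynomial.map_zero, Polynomial.eval_zero]
  obtain ⟨c, hc⟩ : ∃ c, (nrP v G).leadingCoeff = c := ⟨_, rfl⟩
  have hc0 : c ≠ 0 := by
    rw [← hc]
    exact Polynomial.leadingCoeff_ne_zero.2 hP0
  have hD : (nrP v G).natDegree ≠ 0 := by
    intro h
    obtain ⟨x, hx⟩ := hv
    have h1 := Polynomial.eq_C_of_natDegree_eq_zero h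
    apply hx
    have e1 := nrP_eval v G x 1
    have e0 := nrP_zero v G x
    rw [h1, Polynomial.map_C, Polynomial.eval_C] at e1 e0
    rw [← e0, e1]
    congr 2
    funext j
    rw [one_mul]
  -- `G` does not divide the leading coefficient
  have hGc : ¬ G ∣ c := by
    rintro ⟨H, hH⟩
    obtain ⟨x, hx⟩ := exists_eval_ne hc0
    have hx' : eval x (nrP v G).leadingCoeff ≠ 0 := by rw [hc]; exact hx
    have h2 : ((nrP v G).map (eval x)).natDegree = (nrP v G).natDegree :=
      Polynomial.natDegree_map_of_leadingCoeff_ne_zero _ hx'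
    obtain ⟨ρ, hρ⟩ := IsAlgClosed.exists_root ((nrP v G).map (eval x)) (by
      intro h
      apply hD
      rw [← h2]
      exact Polynomial.natDegree_eq_of_degree_eq_some h)
    have h3 := nrP_eval v G x ρ
    rw [hρ.eq_zero] at h3
    have h4 := nrP_shift v G x ρ hx'
    rw [hc] at h4
    apply hx
    rw [← h4, hH, map_mul, ← h3, zero_mul]
  by_contra hcon
  push Not at hcon
  have hW : (c * map (starRingEnd ℂ) G - map (starRingEnd ℂ) c * G) * (c * K) = 0 := by
    apply eq_zero_of_real
    intro y
    by_cases hcy : eval (fun j => (y j : ℂ)) c = 0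
    · rw [map_mul, map_mul, hcy, zero_mul, mul_zero]
    by_cases hKy : eval (fun j => (y j : ℂ)) K = 0
    · rw [map_mul, map_mul, hKy, mul_zero, mul_zero]
    obtain ⟨x, hx⟩ : ∃ x : Fin n → ℂ, (fun j => (y j : ℂ)) = x := ⟨_, rfl⟩
    have hc' : eval x (nrP v G).leadingCoeff ≠ 0 := by
      rw [hc, ← hx]
      exact hcy
    have hlead : ((nrP v G).map (eval x)).leadingCoeff = eval x c := by
      rw [← hc]
      exact Polynomial.leadingCoeff_map_of_leadingCoeff_ne_zero _ hc'
    have hq0 : (nrP v G).map (eval x) ≠ 0 := by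
      intro h
      rw [h, Polynomial.leadingCoeff_zero] at hlead
      rw [← hx] at hlead
      exact hcy hlead.symm
    have hqK : (nrP v K).map (eval x) ≠ 0 := by
      intro h
      have h1 := nrP_zero v K x
      rw [h, Polynomial.eval_zero, ← hx] at h1
      exact hKy h1.symm
    have hreal : ∀ r ∈ ((nrP v G).map (eval x)).roots, r.im = 0 := by
      intro r hr
      by_contra him
      have h1 : eval (fun j => x j + r * v j) G = 0 := by
        rw [← nrP_eval]
        exact (Polynomial.mem_roots'.1 hr).2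
      have h2 : ∀ ρ' : ℂ, eval (fun j => x j + ρ' * v j) (G * K) = 0 := by
        intro ρ'
        have h3 := hcon y r ρ' him
        have hxy : ∀ ρ : ℂ, (fun j => (y j : ℂ) + ρ * v j) = fun j => x j + ρ * v j := by
          intro ρ
          rw [← hx]
        rw [hxy, hxy] at h3
        exact h3 (by rw [map_mul, h1, zero_mul])
      have h4 : (nrP v G).map (eval x) * (nrP v K).map (eval x) = 0 := by
        apply Polynomial.funext
        intro ρ'
        rw [Polynomial.eval_mul, nrP_eval, nrP_eval, ← map_mul, h2 ρ', Polynomial.eval_zero]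
      rcases mul_eq_zero.1 h4 with h5 | h5
      · exact hq0 h5
      · exact hqK h5
    have hval : eval x G = eval x c *
        (Multiset.map (fun r => 0 - r) ((nrP v G).map (eval x)).roots).prod := by
      rw [← nrP_zero v G x, (IsAlgClosed.splits _).eval_eq_prod_roots, hlead]
    have hprod : starRingEnd ℂ (Multiset.map (fun r => 0 - r) ((nrP v G).map (eval x)).roots).prod =
        (Multiset.map (fun r => 0 - r) ((nrP v G).map (eval x)).roots).prod := by
      rw [map_multiset_prod, Multiset.map_map]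
      congr 1
      apply Multiset.map_congr rfl
      intro r hr
      rw [Function.comp_apply, map_sub, map_zero, Complex.conj_eq_iff_im.2 (hreal r hr)]
    have hcG : eval (fun j => (y j : ℂ)) (map (starRingEnd ℂ) G) =
        eval (fun j => (y j : ℂ)) (map (starRingEnd ℂ) c) *
        (Multiset.map (fun r => 0 - r) ((nrP v G).map (eval x)).roots).prod := by
      rw [eval_conj, eval_conj, hx, hval, map_mul, hprod]
    have hval' := hval
    rw [← hx] at hval'
    rw [map_mul, map_sub, map_mul, map_mul (eval _) (map (starRingEnd ℂ) c) G, hcG, hval', ← hx]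
    ring
  have hcK : c * K ≠ 0 := mul_ne_zero hc0 hK
  have hsub := (mul_eq_zero.1 hW).resolve_right hcK
  have hdvd : G ∣ c * map (starRingEnd ℂ) G := by
    rw [sub_eq_zero.1 hsub]
    exact dvd_mul_left _ _
  rcases hirr.prime.dvd_or_dvd hdvd with h | h
  · exact hGc h
  · exact hconj h

end Pool.Agent.EXK
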