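import Pool.Agent.EXK.KRe
import Pool.Agent.EXL.Aut
import Pool.Agent.EXI.CTd

/-!
# EXK / KTrd: the dimension of a variety and the transcendence degree of a generic point

PROOF.  `exists_basis` (EXL/Tdi): `s : Finset ι`, `s.card = td k p`, with `p` on `s` algebraically independent over `k`, and
every `p i` together with `p` on `s` is dependent. Show that the classes `x i` of `X i`, `i ∈ s`, in `R = ℂ[X]/P` are a
transcendence basis over `ℂ`.
Algebraic: a nontrivial relation of `p i` and `p` on `s` over `k`; its image over `ℂ` is in `P` (by `hp`), and nonzero.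
Independent: let `g ∈ ℂ[Y_s]`, `g ≠ 0`, `g(X) ∈ P`. Let `k'` be the field generated by `k` and the
coefficients of `g` (countable). `exists_ind_near` (file KRe) for `k'` gives `y : s → ℂ`
algebraically independent over `k'`, so over `k`; so `p` on `s` and `y` have the same relations over `k`
and `exists_aut` (EXL/Aut) gives `τ : ℂ ≃+* ℂ` over `k` with `τ (p i) = y i`. Let `x = τ ∘ p`: all `f`
over `k` with `map f ∈ P` vanish at `p`, so at `x`. By `hx`, `g(y) = g(x) = 0`, a contradiction to the
independence of `y` over `k'`.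
-/

set_option autoImplicit false

namespace Pool.Agent.EXK

open MvPolynomial Pool.Agent.EXL Pool.Agent.EXI

private theorem ktrd_range (K : Subfield ℂ) : Set.range (algebraMap K ℂ) = (K : Set ℂ) := by
  ext x
  constructor
  · rintro ⟨c, rfl⟩
    exact c.2
  · intro hx
    exact ⟨⟨x, hx⟩, rfl⟩

private theorem ktrd_mk {ι κ : Type} (P : Ideal (MvPolynomial ι ℂ)) (e : κ → ι) (g : MvPolynomial κ ℂ) :
    aeval (fun i => Ideal.Quotient.mk P (X (e i))) g = Ideal.Quotient.mk P (rename e g) := by
  have h : aeval (fun i => Ideal.Quotient.mk P (X (e i))) = (Ideal.Quotient.mkₐ ℂ P).comp (rename e) := by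
    refine MvPolynomial.algHom_ext fun i => ?_
    rw [aeval_X, AlgHom.comp_apply, rename_X]
    rfl
  rw [h]
  rfl

private theorem ktrd_aut {ι : Type} (k : Subfield ℂ) (σ : ℂ ≃+* ℂ) (hσ : ∀ c ∈ k, σ c = c) (p : ι → ℂ)
    (f : MvPolynomial ι k) : aeval (fun i => σ (p i)) f = σ (aeval p f) := by
  induction f using MvPolynomial.induction_on with
  | C a =>
    rw [aeval_C, aeval_C]
    exact (hσ _ a.2).symm
  | add f g hf hg => rw [map_add, map_add, map_add, hf, hg]
  | mul_X f i hf => rw [map_mul, map_mul, map_mul, hf, aeval_X, aeval_X]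

/-- the field generated by `k` and the coefficients of `g` -/
private theorem ktrd_field {κ : Type} (k : Subfield ℂ) (hk : (k : Set ℂ).Countable)
    (g : MvPolynomial κ ℂ) : ∃ (k' : Subfield ℂ) (_ : (k' : Set ℂ).Countable) (_ : k ≤ k')
      (g' : MvPolynomial κ k'), map (algebraMap k' ℂ) g' = g := by
  have hC : ((k : Set ℂ) ∪ (g.coeffs : Set ℂ)).Countable := hk.union (Finset.countable_toSet _)
  refine ⟨Subfield.closure ((k : Set ℂ) ∪ (g.coeffs : Set ℂ)), ?_, ?_, ?_⟩
  · rw [← Set.countable_coe_iff]
    refine Cardinal.mk_le_aleph0_iff.1 ((Subfield.cardinalMk_closure_le_max _).trans ?_)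
    exact max_le (Cardinal.mk_le_aleph0_iff.2 hC.to_subtype) le_rfl
  · exact fun c hc => Subfield.subset_closure (Or.inl hc)
  · have : g ∈ Set.range (MvPolynomial.map (algebraMap
        (Subfield.closure ((k : Set ℂ) ∪ (g.coeffs : Set ℂ)) : Subfield ℂ) ℂ)) := by
      rw [MvPolynomial.mem_range_map_iff_coeffs_subset]
      intro c hc
      exact ⟨⟨c, Subfield.subset_closure (Or.inr hc)⟩, rfl⟩
    exact this

private theorem ktrd_ind {ι : Type} [Fintype ι] (P : Ideal (MvPolynomial ι ℂ))
    (k : Subfield ℂ) (hk : (k : Set ℂ).Countable) (p : ι → ℂ)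
    (hp : ∀ f : MvPolynomial ι k, aeval p f = 0 ↔ map (algebraMap k ℂ) f ∈ P)
    (hx : ∀ x : ι → ℂ, (∀ f : MvPolynomial ι k, map (algebraMap k ℂ) f ∈ P → aeval x f = 0) →
        ∀ f ∈ P, eval x f = 0) (s : Finset ι) (hind : AlgebraicIndependent k (fun i : s => p i)) :
    AlgebraicIndependent ℂ (fun i : s => Ideal.Quotient.mk P (X (i : ι))) := by
  classical
  rw [algebraicIndependent_iff]
  intro g hg
  rw [ktrd_mk P (fun i : s => (i : ι)) g, Ideal.Quotient.eq_zero_iff_mem] at hg
  obtain ⟨k', hk', hle, g', hg'⟩ := ktrd_field k hk g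
  obtain ⟨z, _, hz⟩ := exists_ind_near k' hk' (m := s.card) (fun _ => 0) 1 one_pos
  have hy : AlgebraicIndependent k' (fun i : s => Complex.I * (z (s.equivFin i) : ℂ)) :=
    hz.comp s.equivFin s.equivFin.injective
  set y : s → ℂ := fun i => Complex.I * (z (s.equivFin i) : ℂ) with hyd
  rw [algebraicIndependent_iff] at hy hind
  have hyk : ∀ f : MvPolynomial s k, aeval y f = 0 → f = 0 := by
    intro f hf
    have h1 : map (Subfield.inclusion hle) f = 0 := by
      apply hy
      rw [← hf, aeval_def, eval₂_map, aeval_def]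
      rfl
    exact (map_injective _ (Subfield.inclusion hle).injective) (by rw [h1, map_zero])
  obtain ⟨σ, hσ1, hσ2⟩ := exists_aut k hk (fun i : s => p i) y (fun f =>
    ⟨fun h => by rw [hind f h, map_zero], fun h => by rw [hyk f h, map_zero]⟩)
  have h1 := hx (fun i => σ (p i)) (fun f hf => by
    rw [ktrd_aut k σ hσ1, (hp f).2 hf, map_zero]) _ hg
  rw [eval_rename] at h1
  have h2 : ((fun i => σ (p i)) ∘ fun i : s => (i : ι)) = y := funext hσ2
  rw [h2, ← hg', eval_map] at h1
  have h3 := hy g' h1
  rw [← hg', h3, map_zero]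

theorem td_of_trdeg {ι : Type} [Fintype ι] (P : Ideal (MvPolynomial ι ℂ)) (hP : P.IsPrime)
    (k : Subfield ℂ) (hk : (k : Set ℂ).Countable) (p : ι → ℂ)
    (hp : ∀ f : MvPolynomial ι k, aeval p f = 0 ↔ map (algebraMap k ℂ) f ∈ P)
    (hx : ∀ x : ι → ℂ, (∀ f : MvPolynomial ι k, map (algebraMap k ℂ) f ∈ P → aeval x f = 0) →
        ∀ f ∈ P, eval x f = 0) (n : ℕ)
    (h : Algebra.trdeg ℂ (MvPolynomial ι ℂ ⧸ P) = n) : td (k : Set ℂ) p = n := by
  classical
  have hdom : IsDomain (MvPolynomial ι ℂ ⧸ P) := (Ideal.Quotient.isDomain_iff_prime P).2 hP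
  obtain ⟨s, hs, hind, -⟩ := exists_basis (k := k) p
  rw [ktrd_range] at hs
  have hA := ktrd_ind P k hk p hp hx s hind
  -- the coordinates are algebraic
  have hB : ∀ i : ι, IsAlgebraic (Algebra.adjoin ℂ (Set.range fun i : s => Ideal.Quotient.mk P (X (i : ι))))
      (Ideal.Quotient.mk P (X i)) := by
    intro i
    by_contra hna
    have h1 : AlgebraicIndependent ℂ (fun o : Option s =>
        o.elim (Ideal.Quotient.mk P (X i)) fun j => Ideal.Quotient.mk P (X (j : ι))) :=
      (hA.option_iff_transcendental _).2 hna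
    have h2 : ¬ AlgebraicIndependent k (fun o : Option s => p (o.elim i fun j => (j : ι))) := by
      intro h3
      have h4 := (algInd_iff (k := k) _).1 h3
      rw [ktrd_range, Fintype.card_option, Fintype.card_coe] at h4
      have h5 : td (k : Set ℂ) (fun o : Option s => p (o.elim i fun j => (j : ι))) ≤ td (k : Set ℂ) p :=
        rk_le_of_dep _ _ _ fun D _ hz o => hz _
      omega
    apply h2
    rw [algebraicIndependent_iff] at h1 ⊢
    intro f hf
    have h3 : map (algebraMap k ℂ) (rename (fun o : Option s => o.elim i fun j => (j : ι)) f) ∈ P := by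
      rw [← hp, aeval_rename]
      exact hf
    have h4 : aeval (fun o : Option s => Ideal.Quotient.mk P (X (o.elim i fun j => (j : ι))))
        (map (algebraMap k ℂ) f) = 0 := by
      rw [ktrd_mk, ← map_rename, Ideal.Quotient.eq_zero_iff_mem]
      exact h3
    have h5 : (fun o : Option s => Ideal.Quotient.mk P (X (o.elim i fun j => (j : ι)) : MvPolynomial ι ℂ)) =
        fun o : Option s => o.elim (Ideal.Quotient.mk P (X i)) fun j => Ideal.Quotient.mk P (X (j : ι)) := by
      funext o
      cases o <;> rfl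
    rw [h5] at h4
    have h6 := h1 _ h4
    exact (map_injective _ (algebraMap k ℂ).injective) (by rw [h6, map_zero])
  have hC : Algebra.IsAlgebraic (Algebra.adjoin ℂ (Set.range fun i : s => Ideal.Quotient.mk P (X (i : ι))))
      (MvPolynomial ι ℂ ⧸ P) := by
    refine ⟨fun q => ?_⟩
    obtain ⟨f, rfl⟩ := Ideal.Quotient.mk_surjective q
    have h1 : ∀ f : MvPolynomial ι ℂ, Ideal.Quotient.mk P f ∈ Subalgebra.algebraicClosure
        (Algebra.adjoin ℂ (Set.range fun i : s => Ideal.Quotient.mk P (X (i : ι)))) (MvPolynomial ι ℂ ⧸ P) := by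
      intro f
      induction f using MvPolynomial.induction_on with
      | C a =>
        rw [Subalgebra.mem_algebraicClosure]
        exact isAlgebraic_algebraMap (algebraMap ℂ (Algebra.adjoin ℂ
          (Set.range fun i : s => Ideal.Quotient.mk P (X (i : ι)))) a)
      | add f g hf hg =>
        rw [map_add]
        exact add_mem hf hg
      | mul_X f i hf =>
        rw [map_mul]
        exact mul_mem hf (hB i)
    exact h1 f
  have hD := hA.isTranscendenceBasis_iff_isAlgebraic.2 hC
  have hE := hD.cardinalMk_eq_trdeg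
  rw [h, Cardinal.mk_fintype, Fintype.card_coe] at hE
  rw [← hs]
  exact_mod_cast hE

end Pool.Agent.EXK
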