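import Pool.Agent.EXK.KConcl
import Pool.Agent.EXK.KGen
import Pool.Agent.EXK.KTrd
import Pool.Agent.EXK.KKer
import Pool.Agent.EXK.KNr

/-!
# EXK / KFin: exact exponential-algebraic closedness in codimension one

PROOF.  `exists_gen` for `T = {h, rename inl F}`: `k`, `p`, `h₀`, `F₁` with `map F₁ = rename inl F`; `F` has
coefficients in `k` (same coefficients): `F₀` with `map F₀ = F`. `a = p ∘ inl`, `b = p ∘ inr`, `b j ≠ 0` (`hY`).
`aeval a f = 0 ↔ map (rename inl f) ∈ P ↔ rename inl (map f) ∈ P ↔ F ∣ map f ↔ F₀ ∣ f` (`dvd_of_map`).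
`n = m + 1` (`n = 0`: `F` is a nonzero constant, so `1 ∈ P`). `td_of_trdeg`, `td_of_ker`. `Fc i =
homogeneousComponent i F₀`, `d = F₀.totalDegree = F.totalDegree`, `map (Fc d) = homogeneousComponent d F`.
`NonHyp (Fc d) v` from `NonHypC (homogeneousComponent d F) v` (`aeval x f = eval x (map f)`), resp. from
`nonreal_factor`. `concl_codim`.
-/

set_option autoImplicit false

namespace Pool.Agent.EXK

open MvPolynomial Pool.Agent.EXL Pool.Agent.EXI

/-- The form `L` is not hyperbolic in the direction of the integer vector `v`: on some real line in the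
direction `v` it has a nonreal zero but does not vanish identically. -/
def NonHypC {n : ℕ} (L : MvPolynomial (Fin n) ℂ) (v : Fin n → ℤ) : Prop :=
  ∃ (y : Fin n → ℝ) (ρ ρ' : ℂ), ρ.im ≠ 0 ∧ eval (fun j => (y j : ℂ) + ρ * v j) L = 0 ∧
    eval (fun j => (y j : ℂ) + ρ' * v j) L ≠ 0

private lemma aeval_eq (k : Subfield ℂ) {ι : Type} (x : ι → ℂ) (f : MvPolynomial ι k) :
    aeval x f = eval x (map (algebraMap k ℂ) f) := by
  rw [eval_map, aeval_def]

private lemma map_hc (k : Subfield ℂ) {ι : Type} (i : ℕ) (f : MvPolynomial ι k) :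
    map (algebraMap k ℂ) (homogeneousComponent i f) =
      homogeneousComponent i (map (algebraMap k ℂ) f) := by
  ext d
  rw [coeff_map, coeff_homogeneousComponent, coeff_homogeneousComponent, coeff_map]
  split_ifs with h
  · rfl
  · exact map_zero _

private lemma tdeg_map (k : Subfield ℂ) {ι : Type} (f : MvPolynomial ι k) :
    (map (algebraMap k ℂ) f).totalDegree = f.totalDegree := by
  rw [totalDegree, totalDegree, support_map_of_injective f (algebraMap k ℂ).injective]

private lemma hc_ne {ι : Type} (f : MvPolynomial ι ℂ) (hf : f ≠ 0) :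
    homogeneousComponent f.totalDegree f ≠ 0 := by
  obtain ⟨b, hb, hd⟩ := f.support.exists_mem_eq_sup
    (support_nonempty.2 hf) (fun s => s.sum fun _ e => e)
  intro h0
  have h1 := congrArg (coeff b) h0
  rw [coeff_homogeneousComponent, coeff_zero] at h1
  have h2 : b.degree = f.totalDegree := by
    rw [totalDegree, hd]
    rfl
  rw [if_pos h2] at h1
  exact (mem_support_iff.1 hb) h1

theorem main {n : ℕ} (P : Ideal (MvPolynomial (Fin n ⊕ Fin n) ℂ)) (hP : P.IsPrime)
    (hY : ∀ j : Fin n, (X (Sum.inr j) : MvPolynomial (Fin n ⊕ Fin n) ℂ) ∉ P)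
    (hdim : Algebra.trdeg ℂ (MvPolynomial (Fin n ⊕ Fin n) ℂ ⧸ P) = n)
    (F : MvPolynomial (Fin n) ℂ) (hF0 : F ≠ 0)
    (hF : ∀ f : MvPolynomial (Fin n) ℂ, rename Sum.inl f ∈ P ↔ F ∣ f)
    (hL : (∀ v : Fin n → ℤ, v ≠ 0 → NonHypC (homogeneousComponent F.totalDegree F) v) ∨
      ∃ (G R : MvPolynomial (Fin n) ℂ) (r : ℕ), homogeneousComponent F.totalDegree F = G * R ∧
        G.IsHomogeneous r ∧ Irreducible G ∧ ¬ G ∣ map (starRingEnd ℂ) G ∧
        ∀ v : Fin n → ℤ, v ≠ 0 → ∃ x : Fin n → ℂ, eval (fun j => x j + v j) G ≠ eval x G)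
    (h : MvPolynomial (Fin n ⊕ Fin n) ℂ) (hh : h ∉ P) :
    ∃ z : Fin n → ℂ, (∀ f ∈ P, eval (Sum.elim z fun j => Complex.exp (z j)) f = 0) ∧
      eval (Sum.elim z fun j => Complex.exp (z j)) h ≠ 0 := by
  classical
  obtain ⟨k, hk, p, hC, hp, hx⟩ := exists_generic2 P hP
    ((h.coeffs : Set ℂ) ∪ (F.coeffs : Set ℂ))
    ((Finset.countable_toSet _).union (Finset.countable_toSet _))
  obtain ⟨h₀, hh₀⟩ := exists_descent k h (fun c hc => hC (Or.inl hc))
  obtain ⟨F₀, hF₀⟩ := exists_descent k F (fun c hc => hC (Or.inr hc))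
  have hpe : Sum.elim (fun j => p (Sum.inl j)) (fun j => p (Sum.inr j)) = p := by
    funext i
    rcases i with i | i <;> rfl
  have hb : ∀ j, p (Sum.inr j) ≠ 0 := by
    intro j h0
    apply hY j
    have h2 := (hp (X (Sum.inr j))).1 (by rw [aeval_X, h0])
    rwa [map_X] at h2
  have hk0 : F₀ ≠ 0 := by
    rintro rfl
    rw [map_zero] at hF₀
    exact hF0 hF₀.symm
  have hker : ∀ f : MvPolynomial (Fin n) k, aeval (fun j => p (Sum.inl j)) f = 0 ↔ F₀ ∣ f := by
    intro f
    have h1 : aeval (fun j => p (Sum.inl j)) f = aeval p (rename Sum.inl f) := by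
      rw [aeval_rename]
      rfl
    rw [h1, hp, map_rename, hF, ← hF₀]
    exact ⟨dvd_of_map k F₀ f, fun h2 => map_dvd (map (algebraMap k ℂ)) h2⟩
  have hNH0 : ∀ v : Fin n → ℤ, v ≠ 0 → NonHypC (homogeneousComponent F.totalDegree F) v := by
    rcases hL with hL | ⟨G, R, r, hGR, hG, hirr, hconj, hper⟩
    · exact hL
    · intro v hv
      have hR : R ≠ 0 := by
        rintro rfl
        rw [mul_zero] at hGR
        exact hc_ne F hF0 hGR
      have h1 := nonreal_factor G R r hG hirr hconj hR v (hper v hv)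
      rw [← hGR] at h1
      exact h1
  have hNH : ∀ v : Fin n → ℤ, v ≠ 0 → NonHyp (homogeneousComponent F₀.totalDegree F₀) v := by
    intro v hv
    obtain ⟨y, ρ, ρ', h1, h2, h3⟩ := hNH0 v hv
    refine ⟨y, ρ, ρ', h1, ?_, ?_⟩
    · rw [aeval_eq, map_hc, ← tdeg_map, hF₀]
      exact h2
    · rw [aeval_eq, map_hc, ← tdeg_map, hF₀]
      exact h3
  have htd := td_of_trdeg P hP k hk p hp hx n hdim
  cases n with
  | zero =>
    exfalso
    have h1 : rename Sum.inl F ∈ P := (hF F).2 dvd_rfl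
    obtain ⟨c, rfl⟩ := C_surjective (Fin 0) F
    have hc : c ≠ 0 := by
      rintro rfl
      exact hF0 C_0
    rw [rename_C] at h1
    apply hP.ne_top
    rw [Ideal.eq_top_iff_one]
    have h2 := P.mul_mem_left (C c⁻¹) h1
    rwa [← C_mul, inv_mul_cancel₀ hc, C_1] at h2
  | succ m =>
    have hta := td_of_ker k (fun j => p (Sum.inl j)) F₀ hk0 hker
    obtain ⟨a', b', hexp, hsp, hne⟩ := concl_codim k hk (fun j => p (Sum.inl j))
      (fun j => p (Sum.inr j)) hb F₀ hker (by rw [hpe]; exact htd) hta F₀.totalDegree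
      (fun i => homogeneousComponent i F₀) (fun i => homogeneousComponent_isHomogeneous i F₀)
      (sum_homogeneousComponent F₀).symm hNH h₀ (by
        rw [hpe]
        intro h0
        exact hh (hh₀ ▸ (hp h₀).1 h0))
    rw [hpe] at hsp
    have hb' : b' = fun j => Complex.exp (a' j) := funext hexp
    subst hb'
    refine ⟨a', ?_, ?_⟩
    · exact hx _ fun f hf => hsp f ((hp f).2 hf)
    · rw [← hh₀, ← aeval_eq]
      exact hne

end Pool.Agent.EXK
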