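import Pool.Agent.EXI.CTd

/-!
# EXK / KPlA: transcendence bases for a place over `k(a)` (first half of KPl)
-/

set_option autoImplicit false

namespace Pool.Agent.EXK

open MvPolynomial Pool.Agent.EXL Pool.Agent.EXI

/-- a family stays independent after adding a transcendental element -/
private lemma kpl_option (k : Subfield ℂ) {n : ℕ} {x : Fin n → ℂ} (hx : AlgebraicIndependent k x)
    {y : ℂ} (hy : ¬ IsAlgebraic (Algebra.adjoin k (Set.range x)) y) :
    AlgebraicIndependent k (Fin.snoc x y : Fin (n + 1) → ℂ) := by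
  have h3 : AlgebraicIndependent k (fun o : Option (Fin n) => o.elim y x) :=
    (hx.option_iff_transcendental y).2 hy
  have h4 := h3.comp finSuccEquivLast (finSuccEquivLast (n := n)).injective
  have e : (Fin.snoc x y : Fin (n + 1) → ℂ) =
      (fun o : Option (Fin n) => o.elim y x) ∘ finSuccEquivLast := by
    funext i
    refine Fin.lastCases ?_ (fun j => ?_) i
    · simp
    · simp
  rw [e]
  exact h4

/-- an element is algebraic if the transcendence degree does not allow one more -/
private lemma kpl_alg (k : Subfield ℂ) {n : ℕ} {x : Fin n → ℂ} (hx : AlgebraicIndependent k x)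
    {ι : Type} [Fintype ι] (z : ι → ℂ) (hz : td (k : Set ℂ) z ≤ n) {y : ℂ}
    (h : ∀ D ∈ DerOver (k : Set ℂ), (∀ i, D (z i) = 0) → (∀ i, D (x i) = 0) ∧ D y = 0) :
    IsAlgebraic (Algebra.adjoin k (Set.range x)) y := by
  by_contra hna
  have h3 := (ind_iff k _).1 (kpl_option k hx hna)
  have h5 : td (k : Set ℂ) (Fin.snoc x y : Fin (n + 1) → ℂ) ≤ td (k : Set ℂ) z := by
    refine rk_le_of_dep _ _ _ ?_
    intro D hD hzD i
    obtain ⟨h6, h7⟩ := h D hD hzD
    refine Fin.lastCases ?_ (fun j => ?_) i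
    · rw [Fin.snoc_last]
      exact h7
    · rw [Fin.snoc_castSucc]
      exact h6 j
  rw [h3] at h5
  omega

theorem exists_sj (k : Subfield ℂ) {m : ℕ} (a b : Fin (m + 1) → ℂ)
    (htd : td (k : Set ℂ) (Sum.elim a b) = m + 1) (hta : td (k : Set ℂ) a = m) :
    ∃ (s : Fin m → Fin (m + 1)) (j1 : Fin (m + 1)),
      AlgebraicIndependent k (fun i => a (s i)) ∧
      AlgebraicIndependent k (Fin.snoc (fun i => a (s i)) (b j1) : Fin (m + 1) → ℂ) ∧
      (∀ j, IsAlgebraic (Algebra.adjoin k (Set.range fun i => a (s i))) (a j)) ∧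
      (∀ j, IsAlgebraic (Algebra.adjoin k
        (Set.range (Fin.snoc (fun i => a (s i)) (b j1) : Fin (m + 1) → ℂ))) (b j)) := by
  obtain ⟨s, hs⟩ := td_basis k a hta
  have ha : ∀ j, IsAlgebraic (Algebra.adjoin k (Set.range fun i => a (s i))) (a j) := fun j =>
    kpl_alg k hs a hta.le fun D _ hz => ⟨fun i => hz (s i), hz j⟩
  have hj1 : ∃ j1, ¬ IsAlgebraic (Algebra.adjoin k (Set.range fun i => a (s i))) (b j1) := by
    by_contra hcon
    rw [not_exists] at hcon
    have h1 := (ind_iff k _).1 hs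
    have h2 : td (k : Set ℂ) (Sum.elim a b) ≤ td (k : Set ℂ) (fun i => a (s i)) := by
      refine rk_le_of_dep _ _ _ ?_
      intro D hD hz i
      rcases i with j | j
      · exact kill_of_algebraic k _ D hD hz _ (ha j)
      · exact kill_of_algebraic k _ D hD hz _ (not_not.1 (hcon j))
    rw [htd, h1] at h2
    omega
  obtain ⟨j1, hj1⟩ := hj1
  have ht := kpl_option k hs hj1
  refine ⟨s, j1, hs, ht, ha, fun j => ?_⟩
  refine kpl_alg k ht (Sum.elim a b) htd.le fun D _ hz => ⟨fun i => ?_, hz (Sum.inr j)⟩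
  refine Fin.lastCases ?_ (fun l => ?_) i
  · rw [Fin.snoc_last]
    exact hz (Sum.inr j1)
  · rw [Fin.snoc_castSucc]
    exact hz (Sum.inl (s l))

end Pool.Agent.EXK
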