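import Pool.Agent.EXK.KDefs
import Pool.Agent.EXI.CPlace
import Pool.Agent.EXI.TFEmb
import Pool.Agent.EXI.TFTor
import Pool.Agent.EXI.TFSetup

/-!
# EXK / KPlB: a place over `k(a)`, from a transcendence basis
-/

set_option autoImplicit false

namespace Pool.Agent.EXK

open MvPolynomial Pool.Agent.EXL Pool.Agent.EXI

theorem mem_Om' (k : Subfield ℂ) {n : ℕ} (a : Fin n → ℂ) (i : Fin n) : a i ∈ Om k a :=
  fun _ hD => hD _ (Or.inr ⟨i, rfl⟩)

/-- a root in a field containing `Ω` of a nonzero polynomial over an algebraically closed `Ω` -/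
theorem root_const {Ω L : Type*} [Field Ω] [IsAlgClosed Ω] [Field L] (C0 : Ω →+* L)
    (p : Polynomial Ω) (hp : p ≠ 0) (y : L) (hy : p.eval₂ C0 y = 0) : ∃ θ : Ω, y = C0 θ := by
  have h1 := (IsAlgClosed.splits p).eq_prod_roots
  rw [h1, Polynomial.eval₂_mul, Polynomial.eval₂_C, Polynomial.eval₂_multiset_prod] at hy
  rcases mul_eq_zero.1 hy with h2 | h2
  · exfalso
    have : p.leadingCoeff = 0 := (map_eq_zero C0).1 h2
    exact hp (Polynomial.leadingCoeff_eq_zero.1 this)
  · rw [Multiset.prod_eq_zero_iff, Multiset.map_map, Multiset.mem_map] at h2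
    obtain ⟨θ, -, h3⟩ := h2
    refine ⟨θ, ?_⟩
    simp only [Function.comp_apply, Polynomial.eval₂_sub, Polynomial.eval₂_X,
      Polynomial.eval₂_C] at h3
    exact sub_eq_zero.1 h3

/-- Puiseux embedding of `k(a, b)` over `k(a)`. -/
theorem emb_pl (k : Subfield ℂ) {m : ℕ} (a b : Fin (m + 1) → ℂ) (as : Fin m → ℂ)
    (s : Fin m → Fin (m + 1)) (hasi : ∀ i, as i = a (s i)) (j1 : Fin (m + 1))
    (hs : AlgebraicIndependent k as)
    (ht : AlgebraicIndependent k (Fin.snoc as (b j1) : Fin (m + 1) → ℂ))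
    (haa : ∀ j, IsAlgebraic (Algebra.adjoin k (Set.range as)) (a j))
    (hba : ∀ j, IsAlgebraic (Algebra.adjoin k
      (Set.range (Fin.snoc as (b j1) : Fin (m + 1) → ℂ))) (b j)) :
    ∃ (e : ℕ) (σ : IntermediateField.adjoin k (Set.range (Sum.elim a b)) →+*
        LaurentSeries (Om k as)), 0 < e ∧
      (∀ c : k, σ (algebraMap k _ c) = HahnSeries.C (⟨c, le_Om k as c.2⟩ : Om k as)) ∧
      (∀ i, σ ⟨a (s i), IntermediateField.subset_adjoin k _ ⟨Sum.inl (s i), rfl⟩⟩ =
        HahnSeries.C (⟨as i, mem_Om' k as i⟩ : Om k as)) ∧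
      σ ⟨b j1, IntermediateField.subset_adjoin k _ ⟨Sum.inr j1, rfl⟩⟩ =
        HahnSeries.single (e : ℤ) 1 := by
  classical
  let t : Fin (m + 1) → ℂ := Fin.snoc as (b j1)
  let c : Fin (m + 1) → Om k as := Fin.snoc (fun i => ⟨as i, mem_Om' k as i⟩) 1
  let mm : Fin (m + 1) → ℤ := Fin.snoc (fun _ => 0) 1
  have hcast : ∀ i : Fin m, c i.castSucc = ⟨as i, mem_Om' k as i⟩ := fun i =>
    Fin.snoc_castSucc (α := fun _ => Om k as) _ _ _
  have hclast : c (Fin.last m) = 1 := Fin.snoc_last (α := fun _ => Om k as) _ _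
  have hmcast : ∀ i : Fin m, mm i.castSucc = 0 := fun i =>
    Fin.snoc_castSucc (α := fun _ => ℤ) _ _ _
  have hmlast : mm (Fin.last m) = 1 := Fin.snoc_last (α := fun _ => ℤ) _ _
  have htcast : ∀ i : Fin m, t i.castSucc = as i := fun i =>
    Fin.snoc_castSucc (α := fun _ => ℂ) _ _ _
  have htlast : t (Fin.last m) = b j1 := Fin.snoc_last (α := fun _ => ℂ) _ _
  have hind : AlgebraicIndependent k
      fun l : {l : Fin (m + 1) // l ≠ Fin.last m} => ((c l : Om k as) : ℂ) := by
    have h1 := hs.comp (fun l : {l : Fin (m + 1) // l ≠ Fin.last m} => l.1.castPred l.2) (by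
      intro x y hxy
      have := congrArg Fin.castSucc hxy
      simp only [Fin.castSucc_castPred] at this
      exact Subtype.ext this)
    have h2 : (fun l : {l : Fin (m + 1) // l ≠ Fin.last m} => ((c l : Om k as) : ℂ)) =
        as ∘ (fun l : {l : Fin (m + 1) // l ≠ Fin.last m} => l.1.castPred l.2) := by
      funext l
      have h3 : (l : Fin (m + 1)) = (l.1.castPred l.2).castSucc := (Fin.castSucc_castPred _ _).symm
      have h4 : c (l : Fin (m + 1)) = c (l.1.castPred l.2).castSucc := congrArg c h3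
      rw [h4, hcast]
      rfl
    rw [h2]
    exact h1
  obtain ⟨κ, hκc, hκt⟩ := tor_base (le_Om k as) t ht c mm (Fin.last m)
    (by rw [hmlast]; exact one_ne_zero) hclast hind
  let F : IntermediateField (IntermediateField.adjoin k (Set.range t)) ℂ :=
    IntermediateField.adjoin (IntermediateField.adjoin k (Set.range t)) (Set.range (Sum.elim a b))
  have hle := IntermediateField.algebra_adjoin_le_adjoin k (Set.range t)
  have hle2 : Algebra.adjoin k (Set.range as) ≤ (IntermediateField.adjoin k (Set.range t)).toSubalgebra := by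
    refine (Algebra.adjoin_mono ?_).trans hle
    rintro x ⟨i, rfl⟩
    exact ⟨i.castSucc, htcast i⟩
  have hfd : FiniteDimensional (IntermediateField.adjoin k (Set.range t)) F := by
    refine IntermediateField.finiteDimensional_adjoin ?_
    rintro x ⟨j | j, rfl⟩
    · have h2 : IsAlgebraic (IntermediateField.adjoin k (Set.range t)) (a j) := by
        obtain ⟨p, hp0, hp⟩ := haa j
        refine ⟨p.map (Subalgebra.inclusion hle2).toRingHom,
          (Polynomial.map_ne_zero_iff (Subalgebra.inclusion_injective hle2)).2 hp0, ?_⟩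
        rw [Polynomial.aeval_def, Polynomial.eval₂_map]
        exact hp
      exact h2.isIntegral
    · have h2 : IsAlgebraic (IntermediateField.adjoin k (Set.range t)) (b j) := by
        obtain ⟨p, hp0, hp⟩ := hba j
        refine ⟨p.map (Subalgebra.inclusion hle).toRingHom,
          (Polynomial.map_ne_zero_iff (Subalgebra.inclusion_injective hle)).2 hp0, ?_⟩
        rw [Polynomial.aeval_def, Polynomial.eval₂_map]
        exact hp
      exact h2.isIntegral
  have hac := isAlgClosed_Om k as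
  obtain ⟨e, he, χ, hχc, hχ1, ss, hss, hmin⟩ := emb (F := F) (Ω := Om k as) κ 0
  have hs0 : ss ≠ 0 := by
    rintro rfl
    have hdeg := congrArg Polynomial.natDegree hmin
    rw [minpoly.zero, Polynomial.map_X, Polynomial.natDegree_X, Multiset.map_zero,
      Multiset.prod_zero, Polynomial.natDegree_one] at hdeg
    exact one_ne_zero hdeg
  obtain ⟨σ, hσs⟩ := Multiset.exists_mem_of_ne_zero hs0
  have hσ := hss σ hσs
  have hKF : ∀ x ∈ IntermediateField.adjoin k (Set.range (Sum.elim a b)), x ∈ F := by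
    intro x hx
    induction hx using IntermediateField.adjoin_induction with
    | mem x hx => exact IntermediateField.subset_adjoin _ _ hx
    | algebraMap x =>
      exact F.algebraMap_mem (algebraMap k (IntermediateField.adjoin k (Set.range t)) x)
    | add x y hx hy h1 h2 => exact F.add_mem h1 h2
    | inv x hx h1 => exact F.inv_mem h1
    | mul x y hx hy h1 h2 => exact F.mul_mem h1 h2
  let incl : IntermediateField.adjoin k (Set.range (Sum.elim a b)) →+* F :=
    { toFun := fun x => ⟨x, hKF x x.2⟩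
      map_one' := rfl
      map_mul' := fun _ _ => rfl
      map_zero' := rfl
      map_add' := fun _ _ => rfl }
  have hσκ : ∀ z : IntermediateField.adjoin k (Set.range t),
      σ (algebraMap (IntermediateField.adjoin k (Set.range t)) F z) = χ (κ z) := fun z => by
    have := congrArg (fun g => g z) hσ
    simpa only [RingHom.comp_apply] using this
  refine ⟨e, σ.comp incl, he, ?_, ?_, ?_⟩
  · intro c0
    have h1 := hσκ (algebraMap k (IntermediateField.adjoin k (Set.range t)) c0)
    rw [hκc] at h1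
    change σ (algebraMap (IntermediateField.adjoin k (Set.range t)) F
      (algebraMap k (IntermediateField.adjoin k (Set.range t)) c0)) = _
    rw [h1]
    exact hχc _
  · intro i
    have h1 := hσκ ⟨t i.castSucc, IntermediateField.subset_adjoin k _ ⟨i.castSucc, rfl⟩⟩
    rw [hκt, hcast, hmcast] at h1
    have h2 : incl ⟨a (s i), IntermediateField.subset_adjoin k _ ⟨Sum.inl (s i), rfl⟩⟩ =
        algebraMap (IntermediateField.adjoin k (Set.range t)) F
          ⟨t i.castSucc, IntermediateField.subset_adjoin k _ ⟨i.castSucc, rfl⟩⟩ := by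
      apply Subtype.ext
      change a (s i) = t i.castSucc
      rw [htcast, hasi]
    rw [RingHom.comp_apply, h2, h1]
    change χ (HahnSeries.C _) = _
    rw [hχc]
  · have h1 := hσκ ⟨t (Fin.last m), IntermediateField.subset_adjoin k _ ⟨Fin.last m, rfl⟩⟩
    rw [hκt, hclast, hmlast] at h1
    have h2 : incl ⟨b j1, IntermediateField.subset_adjoin k _ ⟨Sum.inr j1, rfl⟩⟩ =
        algebraMap (IntermediateField.adjoin k (Set.range t)) F
          ⟨t (Fin.last m), IntermediateField.subset_adjoin k _ ⟨Fin.last m, rfl⟩⟩ := by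
      apply Subtype.ext
      change b j1 = t (Fin.last m)
      rw [htlast]
    rw [RingHom.comp_apply, h2, h1, hχ1]

/-- The place over `k(a)` given by a Puiseux embedding. -/
theorem pl_aux (k : Subfield ℂ) {m : ℕ} (a b : Fin (m + 1) → ℂ) (hb : ∀ j, b j ≠ 0)
    (Ω : Subfield ℂ) (hkΩ : k ≤ Ω) (hac : IsAlgClosed Ω) (as : Fin m → ℂ)
    (s : Fin m → Fin (m + 1)) (hasi : ∀ i, as i = a (s i)) (hasm : ∀ i, as i ∈ Ω)
    (j1 : Fin (m + 1))
    (haa : ∀ j, IsAlgebraic (Algebra.adjoin k (Set.range as)) (a j)) (e : ℕ) (he : 0 < e)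
    (σ : IntermediateField.adjoin k (Set.range (Sum.elim a b)) →+* LaurentSeries Ω)
    (hσc : ∀ c : k, σ (algebraMap k _ c) = HahnSeries.C (⟨c, hkΩ c.2⟩ : Ω))
    (hσa : ∀ i, σ ⟨a (s i), IntermediateField.subset_adjoin k _ ⟨Sum.inl (s i), rfl⟩⟩ =
        HahnSeries.C (⟨as i, hasm i⟩ : Ω))
    (hσb : σ ⟨b j1, IntermediateField.subset_adjoin k _ ⟨Sum.inr j1, rfl⟩⟩ =
        HahnSeries.single (e : ℤ) 1) :
    ∃ (pl : Place k (IntermediateField.adjoin k (Set.range (Sum.elim a b))))
      (A B : Fin (m + 1) → IntermediateField.adjoin k (Set.range (Sum.elim a b)))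
      (v : Fin (m + 1) → ℤ) (θ : Fin (m + 1) → pl.O),
      (∀ j, (A j : ℂ) = a j) ∧ (∀ j, (B j : ℂ) = b j) ∧ (∀ j, (θ j :
        IntermediateField.adjoin k (Set.range (Sum.elim a b))) = A j) ∧
      (∀ f : MvPolynomial (Fin (m + 1)) k, aeval (fun j => pl.ρ (θ j)) f = 0 ↔ aeval a f = 0) ∧
      v ≠ 0 ∧ ∀ j, ∃ ε : pl.O, pl.ρ ε ≠ 0 ∧ B j = pl.t ^ v j * ε := by
  classical
  let A : Fin (m + 1) → IntermediateField.adjoin k (Set.range (Sum.elim a b)) := fun j =>
    ⟨a j, IntermediateField.subset_adjoin k _ ⟨Sum.inl j, rfl⟩⟩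
  let B : Fin (m + 1) → IntermediateField.adjoin k (Set.range (Sum.elim a b)) := fun j =>
    ⟨b j, IntermediateField.subset_adjoin k _ ⟨Sum.inr j, rfl⟩⟩
  have hBne : ∀ j, B j ≠ 0 := fun j h0 => hb j (congrArg Subtype.val h0)
  have hΩ1 : (1 : Ω) ≠ 0 := one_ne_zero
  have hord : (σ (B j1)).order = e := by
    rw [show σ (B j1) = HahnSeries.single (e : ℤ) 1 from hσb, HahnSeries.order_single hΩ1]
  obtain ⟨pl, hO, hρ⟩ := exists_place k Ω hkΩ σ hσc (B j1)
    (by rw [hord]; exact_mod_cast he.ne')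
  -- the subalgebra generated by the `a (s i)`
  have hsub : ∀ x ∈ Algebra.adjoin k (Set.range as),
      ∃ (h1 : x ∈ Ω) (h2 : x ∈ IntermediateField.adjoin k (Set.range (Sum.elim a b))),
        σ ⟨x, h2⟩ = HahnSeries.C (⟨x, h1⟩ : Ω) := by
    intro x hx
    induction hx using Algebra.adjoin_induction with
    | mem x hx =>
      obtain ⟨i, rfl⟩ := hx
      refine ⟨hasm i, IntermediateField.subset_adjoin k _ ⟨Sum.inl (s i), (hasi i).symm⟩, ?_⟩
      rw [← hσa i]
      congr 1
      exact Subtype.ext (hasi i)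
    | algebraMap r =>
      exact ⟨hkΩ r.2, (algebraMap k (IntermediateField.adjoin k
        (Set.range (Sum.elim a b))) r).2, hσc r⟩
    | add x y _ _ h1 h2 =>
      obtain ⟨p1, q1, r1⟩ := h1
      obtain ⟨p2, q2, r2⟩ := h2
      refine ⟨Ω.add_mem p1 p2, (IntermediateField.adjoin k _).add_mem q1 q2, ?_⟩
      have e1 : (⟨x + y, (IntermediateField.adjoin k _).add_mem q1 q2⟩ :
          IntermediateField.adjoin k (Set.range (Sum.elim a b))) = ⟨x, q1⟩ + ⟨y, q2⟩ := rfl
      have e2 : (⟨x + y, Ω.add_mem p1 p2⟩ : Ω) = ⟨x, p1⟩ + ⟨y, p2⟩ := rfl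
      rw [e1, e2, map_add, map_add, r1, r2]
    | mul x y _ _ h1 h2 =>
      obtain ⟨p1, q1, r1⟩ := h1
      obtain ⟨p2, q2, r2⟩ := h2
      refine ⟨Ω.mul_mem p1 p2, (IntermediateField.adjoin k _).mul_mem q1 q2, ?_⟩
      have e1 : (⟨x * y, (IntermediateField.adjoin k _).mul_mem q1 q2⟩ :
          IntermediateField.adjoin k (Set.range (Sum.elim a b))) = ⟨x, q1⟩ * ⟨y, q2⟩ := rfl
      have e2 : (⟨x * y, Ω.mul_mem p1 p2⟩ : Ω) = ⟨x, p1⟩ * ⟨y, p2⟩ := rfl
      rw [e1, e2, map_mul, map_mul, r1, r2]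
  let g1 : Algebra.adjoin k (Set.range as) →+* Ω :=
    { toFun := fun x => ⟨x, (hsub x x.2).1⟩
      map_one' := rfl
      map_mul' := fun _ _ => rfl
      map_zero' := rfl
      map_add' := fun _ _ => rfl }
  let g2 : Algebra.adjoin k (Set.range as) →+*
      IntermediateField.adjoin k (Set.range (Sum.elim a b)) :=
    { toFun := fun x => ⟨x, (hsub x x.2).2.1⟩
      map_one' := rfl
      map_mul' := fun _ _ => rfl
      map_zero' := rfl
      map_add' := fun _ _ => rfl }
  have hg : σ.comp g2 = (HahnSeries.C : Ω →+* LaurentSeries Ω).comp g1 :=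
    RingHom.ext fun x => (hsub x x.2).2.2
  have hg1 : Function.Injective g1 := by
    intro x y hxy
    have h := congrArg (fun z : Ω => (z : ℂ)) hxy
    exact Subtype.ext h
  have hcon : ∀ j, ∃ θ : Ω, σ (A j) = HahnSeries.C θ := by
    intro j
    obtain ⟨p, hp0, hp⟩ := haa j
    refine root_const (HahnSeries.C : Ω →+* LaurentSeries Ω) (p.map g1)
      ((Polynomial.map_ne_zero_iff hg1).2 hp0) (σ (A j)) ?_
    rw [Polynomial.eval₂_map, ← hg, ← Polynomial.hom_eval₂]
    have h1 : p.eval₂ g2 (A j) = 0 := by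
      apply Subtype.ext
      have h2 := Polynomial.hom_eval₂ p g2
        (IntermediateField.adjoin k (Set.range (Sum.elim a b))).val.toRingHom (A j)
      change ((p.eval₂ g2 (A j) : IntermediateField.adjoin k (Set.range (Sum.elim a b))) : ℂ) = 0
      rw [Polynomial.aeval_def] at hp
      exact h2.trans hp
    rw [h1, map_zero]
  choose θ hθ using hcon
  have hAO : ∀ j, A j ∈ pl.O := by
    intro j
    rw [hO]
    intro i hi
    rw [hθ, HahnSeries.C_apply, HahnSeries.coeff_single_of_ne hi.ne]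
  choose v ε hε hBε using fun j => pl.fac (B j) (hBne j)
  refine ⟨pl, A, B, v, fun j => ⟨A j, hAO j⟩, fun _ => rfl, fun _ => rfl, fun _ => rfl, ?_, ?_,
    fun j => ⟨ε j, hε j, hBε j⟩⟩
  · intro f
    have hρθ : ∀ j, pl.ρ ⟨A j, hAO j⟩ = (θ j : ℂ) := by
      intro j
      rw [hρ]
      change (((σ (A j)).coeff 0 : Ω) : ℂ) = _
      rw [hθ, HahnSeries.C_apply, HahnSeries.coeff_single_same]
    simp only [hρθ]
    have e1 : σ (aeval A f) = HahnSeries.C
        (eval₂ (Subfield.inclusion hkΩ) θ f) := by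
      have h1 : (σ.comp (aeval A : MvPolynomial (Fin (m + 1)) k →ₐ[k]
          IntermediateField.adjoin k (Set.range (Sum.elim a b))).toRingHom) =
          (HahnSeries.C : Ω →+* LaurentSeries Ω).comp
            (eval₂Hom (Subfield.inclusion hkΩ) θ) := by
        apply MvPolynomial.ringHom_ext
        · intro r
          simp only [RingHom.comp_apply, AlgHom.toRingHom_eq_coe, RingHom.coe_coe, aeval_C,
            eval₂Hom_C]
          exact hσc r
        · intro i
          simp only [RingHom.comp_apply, AlgHom.toRingHom_eq_coe, RingHom.coe_coe, aeval_X,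
            eval₂Hom_X']
          exact hθ i
      have h2 := congrArg (fun g => g f) h1
      exact h2
    have e2 : aeval (fun j => (θ j : ℂ)) f =
        ((eval₂ (Subfield.inclusion hkΩ) θ f : Ω) : ℂ) := by
      have h3 := MvPolynomial.eval₂_comp_left Ω.subtype
        (Subfield.inclusion hkΩ) θ f
      rw [aeval_def]
      exact h3.symm
    have e3 : aeval a f = ((aeval A f : IntermediateField.adjoin k (Set.range (Sum.elim a b))) :
        ℂ) := by
      have h4 := MvPolynomial.comp_aeval_apply A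
        (IntermediateField.adjoin k (Set.range (Sum.elim a b))).val f
      exact h4.symm
    constructor
    · intro h0
      rw [e2] at h0
      have h5 : eval₂ (Subfield.inclusion hkΩ) θ f = 0 := Subtype.ext h0
      rw [h5, map_zero] at e1
      have h6 := (map_eq_zero σ).1 e1
      rw [e3, h6]
      rfl
    · intro h0
      rw [e3] at h0
      have h5 : aeval A f = 0 := Subtype.ext h0
      rw [h5, map_zero] at e1
      have h6 := HahnSeries.C_injective (e1.symm.trans (map_zero _).symm)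
      rw [e2, h6]
      rfl
  · intro hv
    have h1 := hBε j1
    rw [hv, Pi.zero_apply, zpow_zero, one_mul] at h1
    apply hε j1
    rw [hρ, ← h1]
    rw [show σ (B j1) = HahnSeries.single (e : ℤ) 1 from hσb,
      HahnSeries.coeff_single_of_ne (by exact_mod_cast he.ne)]
    rfl

/-- The place over `k(a)` given by a transcendence basis. -/
theorem pl_of_basis (k : Subfield ℂ) {m : ℕ} (a b : Fin (m + 1) → ℂ) (hb : ∀ j, b j ≠ 0)
    (s : Fin m → Fin (m + 1)) (j1 : Fin (m + 1))
    (hs : AlgebraicIndependent k (fun i => a (s i)))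
    (ht : AlgebraicIndependent k (Fin.snoc (fun i => a (s i)) (b j1) : Fin (m + 1) → ℂ))
    (haa : ∀ j, IsAlgebraic (Algebra.adjoin k (Set.range fun i => a (s i))) (a j))
    (hba : ∀ j, IsAlgebraic (Algebra.adjoin k
      (Set.range (Fin.snoc (fun i => a (s i)) (b j1) : Fin (m + 1) → ℂ))) (b j)) :
    ∃ (pl : Place k (IntermediateField.adjoin k (Set.range (Sum.elim a b))))
      (A B : Fin (m + 1) → IntermediateField.adjoin k (Set.range (Sum.elim a b)))
      (v : Fin (m + 1) → ℤ) (θ : Fin (m + 1) → pl.O),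
      (∀ j, (A j : ℂ) = a j) ∧ (∀ j, (B j : ℂ) = b j) ∧ (∀ j, (θ j :
        IntermediateField.adjoin k (Set.range (Sum.elim a b))) = A j) ∧
      (∀ f : MvPolynomial (Fin (m + 1)) k, aeval (fun j => pl.ρ (θ j)) f = 0 ↔ aeval a f = 0) ∧
      v ≠ 0 ∧ ∀ j, ∃ ε : pl.O, pl.ρ ε ≠ 0 ∧ B j = pl.t ^ v j * ε := by
  obtain ⟨e, σ, he, hσc, hσa, hσb⟩ :=
    emb_pl k a b (fun i => a (s i)) s (fun _ => rfl) j1 hs ht haa hba
  exact pl_aux k a b hb _ (le_Om k _) (isAlgClosed_Om k _) (fun i => a (s i)) s (fun _ => rfl)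
    (mem_Om' k _) j1 haa e he σ hσc hσa hσb

end Pool.Agent.EXK
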