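import Mathlib

/-!
# EXK / KSolve: solution of the equations near infinity, exact exponentials (pure analysis)

PROOF.  As `top_solve` in EXJ/JTopA.lean. `U j p = exp (c_j + G_j p)`, `U0 p = exp (c + G p)` near
`(α, 0, 0)` with `G` Lipschitz, `‖G‖ ≤ 1` (lemma `loc` there). For small real `s > 0`, `T = s^{-e}`: `α_j`
is purely imaginary, so `l_j = round (T α_j.im / (2 π))` satisfies `‖T α_j - 2 π i l_j‖ ≤ π`. On the product
of the closed balls `‖y - α‖ ≤ r`, `‖t‖ ≤ r` consider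
`Φ (y, t) = ((ν_j log s + c_j + G_j (y, s, t) + 2 π i l_j) / T)_j, exp ((T A0 (y, s, t) - ν0 log s - c -
G (y, s, t)) / g)`. First components: distance to `α_j` at most `(|ν_j| |log s| + |c_j| + 1 + π) / T ≤ r`
for `s` small (`|log s| s^e → 0`), Lipschitz constant `K / T`. Last component: `Re A0 ≤ -δ < 0` on the ball, so
its norm is at most `exp ((-δ T + |ν0| |log s| + |c| + 1) / g)`, and its Lipschitz constant at most this
times `(T K + K) / g` (the segment stays in the ball; or `‖exp x - exp y‖ ≤ max (exp Re) ‖x - y‖`), both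
`→ 0` as `s → 0`. Fixed point `(y, t)` (`ContractingWith.exists_fixedPoint'`): `exp (T y_j) = s^{ν_j} U_j`
and `t^g s^{ν0} U0 = exp (T A0)`, `t ≠ 0`.
-/

set_option autoImplicit false

namespace Pool.Agent.EXK

open Topology Filter

private theorem exp_lip {M : ℝ} {w w' : ℂ} (h : w.re ≤ M) (h' : w'.re ≤ M) :
    ‖Complex.exp w - Complex.exp w'‖ ≤ Real.exp M * ‖w - w'‖ := by
  have hc : Convex ℝ {z : ℂ | z.re ≤ M} := convex_halfSpace_re_le M
  refine hc.norm_image_sub_le_of_norm_deriv_le (fun x _ => Complex.differentiableAt_exp)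
    (fun x hx => ?_) h' h
  rw [Complex.deriv_exp, Complex.norm_exp]
  exact Real.exp_le_exp.2 hx

private theorem asy (N D r δ K : ℝ) (g : ℕ) (hr : 0 < r) (hδ : 0 < δ) (hg : 1 ≤ g)
    (hK : 0 ≤ K) :
    ∃ T0 : ℝ, 1 ≤ T0 ∧ ∀ T ≥ T0, (N * Real.log T + D) / T ≤ r ∧ K / T ≤ 1 / 2 ∧
      Real.exp ((-(δ * T) + N * Real.log T + D) / g) ≤ r ∧
      Real.exp ((-(δ * T) + N * Real.log T + D) / g) * (T * K + K) ≤ 1 / 2 := by
  have hg0 : (0 : ℝ) < g := by exact_mod_cast hg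
  have h1 : Tendsto (fun T : ℝ => (N * Real.log T + D) / T) atTop (𝓝 0) := by
    have e1 : Tendsto (fun T : ℝ => Real.log T / T) atTop (𝓝 0) := by
      have := Real.isLittleO_log_id_atTop.tendsto_div_nhds_zero
      simpa using this
    have e2 : Tendsto (fun T : ℝ => D / T) atTop (𝓝 0) := tendsto_const_nhds.div_atTop tendsto_id
    have e3 := (e1.const_mul N).add e2
    simp only [mul_zero, add_zero] at e3
    refine e3.congr fun T => ?_
    ring
  have h2 : Tendsto (fun T : ℝ => K / T) atTop (𝓝 0) := tendsto_const_nhds.div_atTop tendsto_id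
  set b : ℝ := δ / (2 * g) with hb
  have hb0 : 0 < b := by positivity
  have h4 : Tendsto (fun T : ℝ => Real.exp (-(b * T)) * (T * K + K)) atTop (𝓝 0) := by
    have e0 : Tendsto (fun T : ℝ => b * T) atTop atTop := tendsto_id.const_mul_atTop hb0
    have e1 : Tendsto (fun T : ℝ => (b * T) ^ 1 * Real.exp (-(b * T))) atTop (𝓝 0) :=
      (Real.tendsto_pow_mul_exp_neg_atTop_nhds_zero 1).comp e0
    have e2 : Tendsto (fun T : ℝ => (b * T) ^ 0 * Real.exp (-(b * T))) atTop (𝓝 0) :=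
      (Real.tendsto_pow_mul_exp_neg_atTop_nhds_zero 0).comp e0
    have e3 := (e1.const_mul (K / b)).add (e2.const_mul K)
    simp only [mul_zero, add_zero] at e3
    refine e3.congr fun T => ?_
    field_simp
  have h5 : Tendsto (fun T : ℝ => Real.exp (-(b * T))) atTop (𝓝 0) := by
    have e0 : Tendsto (fun T : ℝ => b * T) atTop atTop := tendsto_id.const_mul_atTop hb0
    exact Real.tendsto_exp_neg_atTop_nhds_zero.comp e0
  have f1 : ∀ᶠ T in atTop, (N * Real.log T + D) / T < r := h1.eventually (gt_mem_nhds hr)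
  have f2 : ∀ᶠ T in atTop, K / T < 1 / 2 := h2.eventually (gt_mem_nhds (by norm_num))
  have f3 : ∀ᶠ T in atTop, (N * Real.log T + D) / T < δ / 2 :=
    h1.eventually (gt_mem_nhds (by positivity))
  have f4 : ∀ᶠ T in atTop, Real.exp (-(b * T)) * (T * K + K) < 1 / 2 :=
    h4.eventually (gt_mem_nhds (by norm_num))
  have f5 : ∀ᶠ T in atTop, Real.exp (-(b * T)) < r := h5.eventually (gt_mem_nhds hr)
  obtain ⟨T0, hT0⟩ := eventually_atTop.1 (f1.and (f2.and (f3.and (f4.and f5))))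
  refine ⟨max T0 1, le_max_right _ _, fun T hT => ?_⟩
  obtain ⟨g1, g2, g3, g4, g5⟩ := hT0 T ((le_max_left _ _).trans hT)
  have hT1 : 1 ≤ T := (le_max_right _ _).trans hT
  have hTp : 0 < T := by linarith
  have key : Real.exp ((-(δ * T) + N * Real.log T + D) / g) ≤ Real.exp (-(b * T)) := by
    refine Real.exp_le_exp.2 ?_
    rw [div_lt_iff₀ hTp] at g3
    rw [div_le_iff₀ hg0, hb]
    have : -(δ / (2 * g) * T) * g = -(δ / 2 * T) := by
      field_simp
    rw [this]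
    linarith
  refine ⟨g1.le, g2.le, key.trans g5.le, ?_⟩
  refine (mul_le_mul_of_nonneg_right key (by positivity)).trans g4.le

/-- the local data -/
private theorem loc {E : Type*} [NormedAddCommGroup E] [NormedSpace ℂ E] (a : E) (V : E → ℂ)
    (hV : ContDiffAt ℂ 1 V a) (hV0 : V a ≠ 0) :
    ∃ (c : ℂ) (G : E → ℂ) (K : NNReal) (t : Set E),
      t ∈ 𝓝 a ∧ LipschitzOnWith K G t ∧ ∀ p ∈ t, ‖G p‖ ≤ 1 ∧
        V p = Complex.exp (c + G p) := by
  set G : E → ℂ := fun p => Complex.log (V p / V a) with hG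
  have h1 : V a / V a = 1 := div_self hV0
  have hGc : ContDiffAt ℂ 1 G a := by
    have h2 : ContDiffAt ℂ 1 Complex.log (V a / V a) := by
      refine Complex.contDiffAt_log ?_
      rw [h1]
      exact Complex.one_mem_slitPlane
    exact h2.comp a (hV.div_const _)
  obtain ⟨K, t, ht, hK⟩ := hGc.exists_lipschitzOnWith
  have hG0 : G a = 0 := by
    rw [hG]
    dsimp only
    rw [h1, Complex.log_one]
  have e1 : ∀ᶠ p in 𝓝 a, ‖G p‖ < 1 := by
    have h3 : Filter.Tendsto (fun p => ‖G p‖) (𝓝 a) (𝓝 ‖G a‖) :=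
      hGc.continuousAt.norm
    rw [hG0, norm_zero] at h3
    exact h3.eventually (gt_mem_nhds zero_lt_one)
  have e2 : ∀ᶠ p in 𝓝 a, V p ≠ 0 := hV.continuousAt.eventually_ne hV0
  refine ⟨Complex.log (V a), G, K, t ∩ {p | ‖G p‖ < 1 ∧ V p ≠ 0},
    Filter.inter_mem ht (e1.and e2), hK.mono Set.inter_subset_left, ?_⟩
  rintro p ⟨_, hp1, hp2⟩
  refine ⟨hp1.le, ?_⟩
  rw [Complex.exp_add, Complex.exp_log hV0, hG]
  dsimp only
  rw [Complex.exp_log (div_ne_zero hp2 hV0)]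
  field_simp

private theorem lattice (w : ℂ) (hw : w.re = 0) :
    ∃ l : ℤ, ‖2 * Real.pi * Complex.I * l - w‖ ≤ Real.pi := by
  have hpi := Real.pi_pos
  set q : ℝ := w.im / (2 * Real.pi) with hq
  refine ⟨round q, ?_⟩
  have hw2 : w = ((w.im : ℝ) : ℂ) * Complex.I := by
    apply Complex.ext
    · simp [hw]
    · simp
  have hqm : w.im = q * (2 * Real.pi) := by
    rw [hq]
    field_simp
  have h0 : 2 * (Real.pi : ℂ) * Complex.I * (round q : ℤ) - w =
      ((-((q - (round q : ℤ)) * (2 * Real.pi)) : ℝ) : ℂ) * Complex.I := by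
    rw [hw2, hqm]
    push_cast
    ring
  rw [h0, norm_mul, Complex.norm_I, mul_one, Complex.norm_real, Real.norm_eq_abs, abs_neg,
    abs_mul, abs_of_pos (by positivity : (0 : ℝ) < 2 * Real.pi)]
  have h3 := abs_sub_round q
  nlinarith

theorem solve2 {m : ℕ} (α : Fin m → ℂ) (hre : ∀ j, (α j).re = 0) (e : ℕ) (he : 1 ≤ e) (g : ℕ)
    (hg : 1 ≤ g) (ν0 : ℤ) (ν : Fin m → ℤ) (A0 U0 : (Fin m → ℂ) × ℂ × ℂ → ℂ)
    (U : Fin m → (Fin m → ℂ) × ℂ × ℂ → ℂ) (hA0 : ContDiffAt ℂ 1 A0 (α, 0, 0))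
    (hA0re : (A0 (α, 0, 0)).re < 0) (hU0 : ContDiffAt ℂ 1 U0 (α, 0, 0)) (hU00 : U0 (α, 0, 0) ≠ 0)
    (hU : ∀ j, ContDiffAt ℂ 1 (U j) (α, 0, 0)) (hUne : ∀ j, U j (α, 0, 0) ≠ 0)
    (S : Set ((Fin m → ℂ) × ℂ × ℂ)) (hS : S ∈ 𝓝 (α, (0 : ℂ), (0 : ℂ))) :
    ∃ p ∈ S, p.2.1 ≠ 0 ∧ p.2.2 ≠ 0 ∧
      (∀ j, p.2.1 ^ ν j * U j p = Complex.exp (p.1 j * (p.2.1⁻¹) ^ e)) ∧
      p.2.2 ^ g * (p.2.1 ^ ν0 * U0 p) = Complex.exp (A0 p * (p.2.1⁻¹) ^ e) := by
  choose c G K t ht hK hGV using fun j => loc (α, (0 : ℂ), (0 : ℂ)) (U j) (hU j) (hUne j)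
  obtain ⟨c0, G0, K0, t0, ht0, hK0, hGV0⟩ := loc (α, (0 : ℂ), (0 : ℂ)) U0 hU0 hU00
  obtain ⟨KA, tA, htA, hKA⟩ := hA0.exists_lipschitzOnWith
  set δ : ℝ := -(A0 (α, 0, 0)).re / 2 with hδ
  have hδ0 : 0 < δ := by
    rw [hδ]
    linarith
  have hAev : ∀ᶠ p in 𝓝 (α, (0 : ℂ), (0 : ℂ)), (A0 p).re < -δ := by
    have h1 : Tendsto (fun p => (A0 p).re) (𝓝 (α, (0 : ℂ), (0 : ℂ)))
        (𝓝 (A0 (α, 0, 0)).re) := (Complex.continuous_re.tendsto _).comp hA0.continuousAt
    refine h1.eventually (gt_mem_nhds ?_)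
    rw [hδ]
    linarith
  have hT : (S ∩ ⋂ j, t j) ∩ (t0 ∩ (tA ∩ {p | (A0 p).re < -δ})) ∈ 𝓝 (α, (0 : ℂ), (0 : ℂ)) :=
    Filter.inter_mem (Filter.inter_mem hS (Filter.iInter_mem.2 ht))
      (Filter.inter_mem ht0 (Filter.inter_mem htA hAev))
  obtain ⟨r, hr, hball⟩ := Metric.nhds_basis_closedBall.mem_iff.1 hT
  -- the constants
  set N : ℝ := (∑ j, |(ν j : ℝ)|) + |(ν0 : ℝ)| with hN
  set Dc : ℝ := (∑ j, ‖c j‖) + ‖c0‖ + 1 + Real.pi with hD
  set KK : ℝ := (∑ j, (K j : ℝ)) + K0 + KA with hKK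
  have hKK0 : 0 ≤ KK := by positivity
  have hN0 : 0 ≤ N := by positivity
  obtain ⟨T0, hT01, hT0⟩ := asy N Dc r δ KK g hr hδ0 hg hKK0
  set x : ℝ := max T0 (1 / r) with hx
  have hx1 : 1 ≤ x := hT01.trans (le_max_left _ _)
  have hx0 : 0 < x := by linarith
  set s : ℝ := 1 / x with hs
  have hs0 : 0 < s := by positivity
  have hsr : s ≤ r := by
    rw [hs, div_le_iff₀ hx0]
    have h1 : 1 / r ≤ x := le_max_right _ _
    rw [div_le_iff₀ hr] at h1
    linarith
  set T : ℝ := (s⁻¹) ^ e with hTd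
  have hsx : s⁻¹ = x := by
    rw [hs]
    field_simp
  have hTx : x ≤ T := by
    rw [hTd, hsx]
    exact le_self_pow₀ hx1 (by omega)
  have hT1 : 1 ≤ T := hx1.trans hTx
  have hTp : 0 < T := by linarith
  obtain ⟨q1, q2, q3, q4⟩ := hT0 T ((le_max_left _ _).trans hTx)
  have hlogs : |Real.log s| ≤ Real.log T := by
    have h1 : Real.log s = -Real.log x := by
      rw [hs, one_div, Real.log_inv]
    rw [h1, abs_neg, abs_of_nonneg (Real.log_nonneg hx1)]
    exact Real.log_le_log hx0 hTx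
  have hlogT : 0 ≤ Real.log T := Real.log_nonneg hT1
  have hTC0 : (T : ℂ) ≠ 0 := by exact_mod_cast hTp.ne'
  have hg0 : (0 : ℝ) < g := by exact_mod_cast hg
  have hgC : (g : ℂ) ≠ 0 := by exact_mod_cast hg0.ne'
  choose l hl using fun j => lattice (T * α j) (by simp [hre j])
  set E : ℝ := Real.exp ((-(δ * T) + N * Real.log T + Dc) / g) with hE
  have hE0 : 0 < E := Real.exp_pos _
  set ex : (Fin m → ℂ) × ℂ → ℂ := fun p =>
    (T * A0 (p.1, (s : ℂ), p.2) - ν0 * Real.log s - c0 - G0 (p.1, (s : ℂ), p.2)) / g with hex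
  set Φ : (Fin m → ℂ) × ℂ → (Fin m → ℂ) × ℂ := fun p =>
    (fun j => (ν j * Real.log s + c j + G j (p.1, (s : ℂ), p.2) +
      2 * Real.pi * Complex.I * l j) / T, Complex.exp (ex p)) with hΦ
  have hmem : ∀ p ∈ Metric.closedBall ((α, (0 : ℂ)) : (Fin m → ℂ) × ℂ) r, (p.1, (s : ℂ), p.2) ∈
      (S ∩ ⋂ j, t j) ∩ (t0 ∩ (tA ∩ {p | (A0 p).re < -δ})) := by
    intro p hp
    refine hball ?_
    rw [Metric.mem_closedBall, Prod.dist_eq, max_le_iff] at hp ⊢
    refine ⟨hp.1, ?_⟩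
    rw [Prod.dist_eq, max_le_iff]
    refine ⟨?_, hp.2⟩
    change dist (s : ℂ) 0 ≤ r
    rw [dist_zero_right, Complex.norm_real, Real.norm_eq_abs, abs_of_pos hs0]
    exact hsr
  have hνj : ∀ j, |(ν j : ℝ)| ≤ N := by
    intro j
    have h1 : |(ν j : ℝ)| ≤ ∑ j, |(ν j : ℝ)| :=
      Finset.single_le_sum (f := fun j => |(ν j : ℝ)|) (fun _ _ => abs_nonneg _)
        (Finset.mem_univ j)
    have h2 := abs_nonneg (ν0 : ℝ)
    rw [hN]
    linarith
  have hν0 : |(ν0 : ℝ)| ≤ N := by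
    have h2 : 0 ≤ ∑ j, |(ν j : ℝ)| := Finset.sum_nonneg fun _ _ => abs_nonneg _
    rw [hN]
    linarith
  have hcj : ∀ j, ‖c j‖ + 1 + Real.pi ≤ Dc := by
    intro j
    have h1 : ‖c j‖ ≤ ∑ j, ‖c j‖ :=
      Finset.single_le_sum (f := fun j => ‖c j‖) (fun _ _ => norm_nonneg _)
        (Finset.mem_univ j)
    have h2 := norm_nonneg c0
    rw [hD]
    linarith
  have hc0 : ‖c0‖ + 1 ≤ Dc := by
    have h2 : 0 ≤ ∑ j, ‖c j‖ := Finset.sum_nonneg fun _ _ => norm_nonneg _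
    have := Real.pi_pos
    rw [hD]
    linarith
  have hKj : ∀ j, (K j : ℝ) ≤ KK := by
    intro j
    have h1 : (K j : ℝ) ≤ ∑ j, (K j : ℝ) :=
      Finset.single_le_sum (f := fun j => (K j : ℝ)) (fun i _ => (K i).2)
        (Finset.mem_univ j)
    have h2 : (0 : ℝ) ≤ K0 := K0.2
    have h3 : (0 : ℝ) ≤ KA := KA.2
    rw [hKK]
    linarith
  have hKs : (K0 : ℝ) ≤ KK ∧ (KA : ℝ) ≤ KK := by
    have h1 : 0 ≤ ∑ j, (K j : ℝ) := Finset.sum_nonneg fun i _ => (K i).2
    have h2 : (0 : ℝ) ≤ K0 := K0.2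
    have h3 : (0 : ℝ) ≤ KA := KA.2
    rw [hKK]
    constructor <;> linarith
  have hnorm : ∀ k : ℤ, |(k : ℝ)| ≤ N → ‖(k : ℂ) * (Real.log s : ℂ)‖ ≤ N * Real.log T := by
    intro k hk
    rw [norm_mul, Complex.norm_intCast, Complex.norm_real, Real.norm_eq_abs]
    exact mul_le_mul hk hlogs (abs_nonneg _) hN0
  -- the real part of the exponent
  have hexre : ∀ p ∈ Metric.closedBall ((α, (0 : ℂ)) : (Fin m → ℂ) × ℂ) r,
      (ex p).re ≤ (-(δ * T) + N * Real.log T + Dc) / g := by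
    intro p hp
    have hp' := hmem p hp
    have h1 := (hGV0 _ hp'.2.1).1
    have h2 : (A0 (p.1, (s : ℂ), p.2)).re < -δ := hp'.2.2.2
    have h3 : (ex p).re = (T * (A0 (p.1, (s : ℂ), p.2)).re -
        ((ν0 : ℂ) * (Real.log s : ℂ) + c0 + G0 (p.1, (s : ℂ), p.2)).re) / g := by
      have h4 : ex p = ((T : ℂ) * A0 (p.1, (s : ℂ), p.2) -
        ((ν0 : ℂ) * (Real.log s : ℂ) + c0 + G0 (p.1, (s : ℂ), p.2))) / ((g : ℝ) : ℂ) := by
        rw [hex]
        push_cast
        ring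
      rw [h4, Complex.div_ofReal_re, Complex.sub_re, Complex.re_ofReal_mul]
    rw [h3]
    have h5 : -((ν0 : ℂ) * (Real.log s : ℂ) + c0 + G0 (p.1, (s : ℂ), p.2)).re ≤
        N * Real.log T + Dc := by
      refine (neg_le_abs _).trans ((Complex.abs_re_le_norm _).trans ?_)
      refine (norm_add₃_le).trans ?_
      have := hnorm ν0 hν0
      linarith
    gcongr
    have h6 : T * (A0 (p.1, (s : ℂ), p.2)).re ≤ T * (-δ) :=
      mul_le_mul_of_nonneg_left h2.le hTp.le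
    linarith
  have hmaps : Set.MapsTo Φ (Metric.closedBall ((α, (0 : ℂ)) : (Fin m → ℂ) × ℂ) r)
      (Metric.closedBall ((α, (0 : ℂ)) : (Fin m → ℂ) × ℂ) r) := by
    intro p hp
    have hp' := hmem p hp
    rw [Metric.mem_closedBall, Prod.dist_eq, max_le_iff]
    constructor
    · change dist (Φ p).1 α ≤ r
      rw [dist_pi_le_iff hr.le]
      intro j
      have h1 := (hGV j _ (Set.mem_iInter.1 hp'.1.2 j)).1
      have h2 : (Φ p).1 j - α j = ((ν j : ℂ) * (Real.log s : ℂ) + c j +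
          G j (p.1, (s : ℂ), p.2) + (2 * Real.pi * Complex.I * l j - T * α j)) / T := by
        rw [hΦ]
        dsimp only
        field_simp
        ring
      rw [dist_eq_norm, h2, norm_div, Complex.norm_real, Real.norm_eq_abs, abs_of_pos hTp]
      refine le_trans ?_ q1
      gcongr
      refine (norm_add_le _ _).trans ?_
      have h3 := hl j
      have h4 := norm_add₃_le (a := (ν j : ℂ) * (Real.log s : ℂ)) (b := c j)
        (c := G j (p.1, (s : ℂ), p.2))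
      have h5 := hnorm (ν j) (hνj j)
      have h6 := hcj j
      linarith
    · change dist (Complex.exp (ex p)) 0 ≤ r
      rw [dist_zero_right, Complex.norm_exp]
      exact (Real.exp_le_exp.2 (hexre p hp)).trans q3
  have hdist : ∀ p q : (Fin m → ℂ) × ℂ,
      dist ((p.1, (s : ℂ), p.2) : (Fin m → ℂ) × ℂ × ℂ) (q.1, (s : ℂ), q.2) = dist p q := by
    intro p q
    rw [Prod.dist_eq, Prod.dist_eq, Prod.dist_eq]
    dsimp only
    rw [dist_self, max_eq_right (dist_nonneg : 0 ≤ dist p.2 q.2)]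
  have hlip : ContractingWith (1 / 2)
      (hmaps.restrict Φ (Metric.closedBall ((α, (0 : ℂ)) : (Fin m → ℂ) × ℂ) r)
        (Metric.closedBall ((α, (0 : ℂ)) : (Fin m → ℂ) × ℂ) r)) := by
    refine ⟨by
      rw [← NNReal.coe_lt_coe]
      norm_num, ?_⟩
    refine LipschitzWith.of_dist_le_mul fun y z => ?_
    change dist (Φ y.1) (Φ z.1) ≤ _ * dist y.1 z.1
    have hy' := hmem y.1 y.2
    have hz' := hmem z.1 z.2
    have hd := dist_nonneg (x := y.1) (y := z.1)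
    have hhalf : ((1 / 2 : NNReal) : ℝ) = 1 / 2 := by norm_num
    rw [hhalf, Prod.dist_eq, max_le_iff]
    constructor
    · rw [dist_pi_le_iff (by positivity)]
      intro j
      have h1 := (hK j).dist_le_mul _ (Set.mem_iInter.1 hy'.1.2 j) _
        (Set.mem_iInter.1 hz'.1.2 j)
      rw [hdist] at h1
      have h3 : (Φ y.1).1 j - (Φ z.1).1 j =
          (G j (y.1.1, (s : ℂ), y.1.2) - G j (z.1.1, (s : ℂ), z.1.2)) / T := by
        rw [hΦ]
        dsimp only
        field_simp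
        ring
      rw [dist_eq_norm, h3, norm_div, Complex.norm_real, Real.norm_eq_abs, abs_of_pos hTp,
        ← dist_eq_norm, div_le_iff₀ hTp]
      rw [div_le_iff₀ hTp] at q2
      have h4 : (K j : ℝ) * dist y.1 z.1 ≤ (1 / 2 * T) * dist y.1 z.1 :=
        mul_le_mul_of_nonneg_right ((hKj j).trans q2) hd
      linarith
    · change dist (Complex.exp (ex y.1)) (Complex.exp (ex z.1)) ≤ _
      rw [dist_eq_norm]
      refine (exp_lip (hexre _ y.2) (hexre _ z.2)).trans ?_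
      have h1 := hKA.dist_le_mul _ hy'.2.2.1 _ hz'.2.2.1
      have h2 := hK0.dist_le_mul _ hy'.2.1 _ hz'.2.1
      rw [hdist, dist_eq_norm] at h1 h2
      have h3 : ex y.1 - ex z.1 = ((T : ℂ) * (A0 (y.1.1, (s : ℂ), y.1.2) -
          A0 (z.1.1, (s : ℂ), z.1.2)) -
          (G0 (y.1.1, (s : ℂ), y.1.2) - G0 (z.1.1, (s : ℂ), z.1.2))) / ((g : ℝ) : ℂ) := by
        rw [hex]
        dsimp only
        push_cast
        ring
      have h4 : ‖ex y.1 - ex z.1‖ ≤ (T * KK + KK) * dist y.1 z.1 := by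
        rw [h3, norm_div, Complex.norm_real, Real.norm_eq_abs, abs_of_pos hg0]
        have h5 : (1 : ℝ) ≤ g := by exact_mod_cast hg
        refine (div_le_self (norm_nonneg _) h5).trans ?_
        refine (norm_sub_le _ _).trans ?_
        rw [norm_mul, Complex.norm_real, Real.norm_eq_abs, abs_of_pos hTp]
        have h6 : T * ‖A0 (y.1.1, (s : ℂ), y.1.2) - A0 (z.1.1, (s : ℂ), z.1.2)‖ ≤
            T * (KK * dist y.1 z.1) :=
          mul_le_mul_of_nonneg_left (h1.trans (mul_le_mul_of_nonneg_right hKs.2 hd)) hTp.le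
        have h7 : ‖G0 (y.1.1, (s : ℂ), y.1.2) - G0 (z.1.1, (s : ℂ), z.1.2)‖ ≤
            KK * dist y.1 z.1 := h2.trans (mul_le_mul_of_nonneg_right hKs.1 hd)
        linarith
      calc E * ‖ex y.1 - ex z.1‖ ≤ E * ((T * KK + KK) * dist y.1 z.1) :=
            mul_le_mul_of_nonneg_left h4 hE0.le
        _ = (E * (T * KK + KK)) * dist y.1 z.1 := by ring
        _ ≤ 1 / 2 * dist y.1 z.1 := mul_le_mul_of_nonneg_right q4 hd
  obtain ⟨p, hp, hfix, -⟩ := ContractingWith.exists_fixedPoint'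
    Metric.isClosed_closedBall.isComplete hmaps hlip (Metric.mem_closedBall_self hr.le)
    (edist_ne_top _ _)
  have hp' := hmem p hp
  have hsC : (s : ℂ) ≠ 0 := Complex.ofReal_ne_zero.2 hs0.ne'
  have ht' : p.2 = Complex.exp (ex p) := (congrArg Prod.snd hfix).symm
  have h4 : ((s : ℂ)⁻¹) ^ e = (T : ℂ) := by
    rw [hTd]
    push_cast
    rfl
  have hpow : ∀ k : ℤ, Complex.exp (k * Real.log s) = (s : ℂ) ^ k := by
    intro k
    rw [Complex.exp_int_mul, ← Complex.ofReal_exp, Real.exp_log hs0]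
  refine ⟨(p.1, (s : ℂ), p.2), hp'.1.1, hsC, ?_, fun j => ?_, ?_⟩
  · change p.2 ≠ 0
    rw [ht']
    exact Complex.exp_ne_zero _
  · have h1 := (hGV j _ (Set.mem_iInter.1 hp'.1.2 j)).2
    have h2 : (Φ p).1 j = p.1 j := congrFun (congrArg Prod.fst hfix) j
    have h3 : p.1 j * T = ν j * Real.log s + c j + G j (p.1, (s : ℂ), p.2) +
        l j * (2 * Real.pi * Complex.I) := by
      rw [← h2, hΦ]
      dsimp only
      field_simp
    dsimp only
    rw [h1, h4, h3, Complex.exp_add _ (l j * (2 * Real.pi * Complex.I)),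
      Complex.exp_int_mul_two_pi_mul_I, mul_one, ← hpow, ← Complex.exp_add]
    congr 1
    ring
  · have h1 := (hGV0 _ hp'.2.1).2
    dsimp only
    have h5 : p.2 ^ g = Complex.exp (T * A0 (p.1, (s : ℂ), p.2) - ν0 * Real.log s - c0 -
        G0 (p.1, (s : ℂ), p.2)) := by
      rw [ht', ← Complex.exp_nat_mul, hex]
      dsimp only
      congr 1
      rw [← ht']
      field_simp
    rw [h5, h1, h4, ← hpow, ← Complex.exp_add, ← Complex.exp_add]
    congr 1
    ring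

end Pool.Agent.EXK
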