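import Pool.Agent.EXK.KDefs

/-!
# EXK / KTau: conjugation of a place by an automorphism of `ℂ` over `k`
-/

set_option autoImplicit false

namespace Pool.Agent.EXK

open MvPolynomial Pool.Agent.EXL Pool.Agent.EXI

/-- The place with `ρ` replaced by `τ ∘ ρ`. -/
def conj {k : Subfield ℂ} {K : Type} [Field K] [Algebra k K] (pl : Place k K) (τ : ℂ ≃+* ℂ)
    (hτ : ∀ c ∈ k, τ c = c) : Place k K where
  O := pl.O
  t := pl.t
  ρ := (τ : ℂ →+* ℂ).comp pl.ρ
  memk := pl.memk
  ρk c := by
    rw [RingHom.comp_apply, pl.ρk]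
    exact hτ c c.2
  t_ne := pl.t_ne
  t_mem := pl.t_mem
  ρt := by rw [RingHom.comp_apply, pl.ρt, map_zero]
  inv_mem e he := pl.inv_mem e fun h => he (by rw [RingHom.comp_apply, h, map_zero])
  fac e he := by
    obtain ⟨m, ε, hε, h⟩ := pl.fac e he
    refine ⟨m, ε, fun h0 => hε ?_, h⟩
    rw [RingHom.comp_apply] at h0
    exact (map_eq_zero (τ : ℂ →+* ℂ)).1 h0

theorem conj_rel {k : Subfield ℂ} {K : Type} [Field K] [Algebra k K] (pl : Place k K) (τ : ℂ ≃+* ℂ)
    (hτ : ∀ c ∈ k, τ c = c) {ι : Type} (x : ι → pl.O) (f : MvPolynomial ι k) :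
    aeval (fun j => (conj pl τ hτ).ρ (x j)) f = 0 ↔ aeval (fun j => pl.ρ (x j)) f = 0 := by
  have h : aeval (fun j => (conj pl τ hτ).ρ (x j)) f = τ (aeval (fun j => pl.ρ (x j)) f) := by
    have h1 : ∀ g : MvPolynomial ι k, aeval (fun j => (conj pl τ hτ).ρ (x j)) g =
        τ (aeval (fun j => pl.ρ (x j)) g) := by
      intro g
      induction g using MvPolynomial.induction_on with
      | C c =>
        rw [aeval_C, aeval_C]
        exact (hτ _ c.2).symm
      | add p q hp hq => rw [map_add, map_add, map_add, hp, hq]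
      | mul_X p i hp =>
        rw [map_mul, map_mul, map_mul, hp, aeval_X, aeval_X]
        rfl
    exact h1 f
  rw [h]
  exact map_eq_zero_iff τ τ.injective

end Pool.Agent.EXK
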