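import Pool.Agent.EXK.KDefs

/-!
# EXK / KLin: integral linear substitutions in polynomials

`sub U f` is `f(U⁻¹ X)`.
PROOF of `nonhyp_sub`.  `L' = sub U L`, so `aeval (U x) L' = aeval x L` (`aeval_sub`). `U v = g e_0`
with `g = ∑ i, U 0 i * v i > 0`, `U y` is real; so `aeval (U y + ρ g e_0) L' = aeval (y + ρ v) L`.
With `Y = U y` (real): the point is `Fin.cons (Y 0 + ρ g) (Y ∘ succ)`, and `(Y 0 + ρ g).im = g ρ.im ≠ 0`.
-/

set_option autoImplicit false

namespace Pool.Agent.EXK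

open MvPolynomial Pool.Agent.EXL Pool.Agent.EXI

variable {k : Subfield ℂ} {n : ℕ}

/-- `f(U⁻¹ X)`. -/
noncomputable def sub (U : Matrix (Fin n) (Fin n) ℤ) :
    MvPolynomial (Fin n) k →ₐ[k] MvPolynomial (Fin n) k :=
  aeval fun i => ∑ j, C ((U⁻¹ i j : ℤ) : k) * X j

private lemma linZ_linZ' (U V : Matrix (Fin n) (Fin n) ℤ) (a : Fin n → ℂ) :
    linZ V (linZ U a) = linZ (V * U) a := by
  funext j
  unfold linZ
  simp only [Matrix.mul_apply, Finset.mul_sum, Int.cast_sum, Int.cast_mul, Finset.sum_mul]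
  rw [Finset.sum_comm]
  refine Finset.sum_congr rfl fun i _ => Finset.sum_congr rfl fun l _ => ?_
  ring

private lemma linZ_one' (a : Fin n → ℂ) : linZ (1 : Matrix (Fin n) (Fin n) ℤ) a = a := by
  funext j
  unfold linZ
  rw [Finset.sum_eq_single j]
  · simp
  · intro i _ hi
    rw [Matrix.one_apply_ne hi.symm]
    simp
  · intro h
    exact absurd (Finset.mem_univ j) h

private lemma sub_X (U : Matrix (Fin n) (Fin n) ℤ) (i : Fin n) :
    sub (k := k) U (X i) = ∑ j, C ((U⁻¹ i j : ℤ) : k) * X j := by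
  unfold sub
  rw [aeval_X]

private lemma sub_C (U : Matrix (Fin n) (Fin n) ℤ) (c : k) :
    sub (k := k) U (C c) = C c := by
  unfold sub
  rw [aeval_C, algebraMap_eq]

theorem aeval_sub (U : Matrix (Fin n) (Fin n) ℤ) (hU : IsUnit U.det) (x : Fin n → ℂ)
    (f : MvPolynomial (Fin n) k) : aeval (linZ U x) (sub U f) = aeval x f := by
  have h : (aeval (linZ U x)).comp (sub (k := k) U) = aeval x := by
    apply MvPolynomial.algHom_ext
    intro i
    have h1 : linZ U⁻¹ (linZ U x) i = x i := by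
      rw [linZ_linZ', Matrix.nonsing_inv_mul _ hU, linZ_one']
    rw [AlgHom.comp_apply, sub_X, map_sum, aeval_X, ← h1]
    unfold linZ
    refine Finset.sum_congr rfl fun j _ => ?_
    rw [map_mul, aeval_X, aeval_C]
    congr 1
  exact DFunLike.congr_fun h f

theorem sub_hom (U : Matrix (Fin n) (Fin n) ℤ) (f : MvPolynomial (Fin n) k) (i : ℕ)
    (hf : f.IsHomogeneous i) : (sub U f).IsHomogeneous i := by
  have h := hf.aeval (fun i : Fin n => ∑ j, C ((U⁻¹ i j : ℤ) : k) * X j) (n := 1)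
    (fun i => IsHomogeneous.sum _ _ _ fun j _ => by
      simpa using (isHomogeneous_C (Fin n) (((U⁻¹ i j : ℤ) : k))).mul (isHomogeneous_X k j))
  rw [one_mul] at h
  exact h

private lemma sub_sub (U V : Matrix (Fin n) (Fin n) ℤ) (h : V⁻¹ * U⁻¹ = 1)
    (f : MvPolynomial (Fin n) k) : sub U (sub V f) = f := by
  have h1 : (sub (k := k) U).comp (sub V) = AlgHom.id k _ := by
    apply MvPolynomial.algHom_ext
    intro i
    rw [AlgHom.comp_apply, sub_X, map_sum, AlgHom.id_apply]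
    have h2 : ∀ j, (sub (k := k) U) (C ((V⁻¹ i j : ℤ) : k) * X j) =
        ∑ l, C (((V⁻¹ i j * U⁻¹ j l : ℤ)) : k) * X l := by
      intro j
      rw [map_mul, sub_X, sub_C, Finset.mul_sum]
      refine Finset.sum_congr rfl fun l _ => ?_
      rw [← mul_assoc, ← C_mul]
      congr 2
      push_cast
      rfl
    rw [Finset.sum_congr rfl fun j _ => h2 j, Finset.sum_comm]
    have h3 : ∀ l, (∑ j, C (((V⁻¹ i j * U⁻¹ j l : ℤ)) : k) * X l : MvPolynomial (Fin n) k) =
        C (((1 : Matrix (Fin n) (Fin n) ℤ) i l : ℤ) : k) * X l := by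
      intro l
      rw [← Finset.sum_mul, ← map_sum, ← h, Matrix.mul_apply]
      congr 2
      push_cast
      rfl
    rw [Finset.sum_congr rfl fun l _ => h3 l, Finset.sum_eq_single i]
    · simp
    · intro l _ hl
      rw [Matrix.one_apply_ne hl.symm]
      simp
    · intro h
      exact absurd (Finset.mem_univ i) h
  exact DFunLike.congr_fun h1 f

/-- If the relations of `x` are the multiples of `F`, the relations of `U x` are those of `sub U F`. -/
theorem ker_sub (U : Matrix (Fin n) (Fin n) ℤ) (hU : IsUnit U.det) (x : Fin n → ℂ)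
    (F : MvPolynomial (Fin n) k) (hF : ∀ f, aeval x f = 0 ↔ F ∣ f) (f : MvPolynomial (Fin n) k) :
    aeval (linZ U x) f = 0 ↔ sub U F ∣ f := by
  have hUU : U⁻¹⁻¹ = U := Matrix.nonsing_inv_nonsing_inv U hU
  have e1 : ∀ g : MvPolynomial (Fin n) k, sub U (sub U⁻¹ g) = g :=
    sub_sub U U⁻¹ (by rw [hUU, Matrix.mul_nonsing_inv _ hU])
  have e2 : ∀ g : MvPolynomial (Fin n) k, sub U⁻¹ (sub U g) = g :=
    sub_sub U⁻¹ U (by rw [hUU, Matrix.nonsing_inv_mul _ hU])
  have e3 : aeval (linZ U x) f = aeval x (sub U⁻¹ f) := by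
    conv_lhs => rw [← e1 f]
    exact aeval_sub U hU x _
  rw [e3, hF]
  constructor
  · intro h
    have := map_dvd (sub (k := k) U) h
    rwa [e1] at this
  · intro h
    have := map_dvd (sub (k := k) U⁻¹) h
    rwa [e2] at this

theorem nonhyp_sub {m : ℕ} (U : Matrix (Fin (m + 1)) (Fin (m + 1)) ℤ) (hU : IsUnit U.det)
    (v : Fin (m + 1) → ℤ) (h0 : 0 < ∑ i, U 0 i * v i)
    (h1 : ∀ j : Fin m, ∑ i, U j.succ i * v i = 0) (L : MvPolynomial (Fin (m + 1)) k)
    (hL : NonHyp L v) :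
    ∃ (y : Fin m → ℝ) (ρ ρ' : ℂ), ρ.im ≠ 0 ∧
      aeval (Fin.cons ρ (fun j => (y j : ℂ)) : Fin (m + 1) → ℂ) (sub U L) = 0 ∧
      aeval (Fin.cons ρ' (fun j => (y j : ℂ)) : Fin (m + 1) → ℂ) (sub U L) ≠ 0 := by
  obtain ⟨y, ρ, ρ', hρ, ha, hb⟩ := hL
  set g : ℤ := ∑ i, U 0 i * v i with hg
  set Y : Fin (m + 1) → ℝ := fun j => ∑ i, (U j i : ℝ) * y i with hY
  have key : ∀ r : ℂ, (Fin.cons ((Y 0 : ℂ) + r * g) (fun j : Fin m => (Y j.succ : ℂ)) :
      Fin (m + 1) → ℂ) = linZ U (fun j => (y j : ℂ) + r * v j) := by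
    intro r
    have h2 : ∀ j, linZ U (fun j => (y j : ℂ) + r * v j) j =
        (Y j : ℂ) + r * ((∑ i, U j i * v i : ℤ) : ℂ) := by
      intro j
      unfold linZ
      rw [hY]
      push_cast
      rw [Finset.mul_sum, ← Finset.sum_add_distrib]
      refine Finset.sum_congr rfl fun i _ => ?_
      ring
    funext j
    rw [h2 j]
    refine Fin.cases ?_ (fun j => ?_) j
    · rw [Fin.cons_zero]
    · rw [Fin.cons_succ, h1 j]
      simp
  refine ⟨fun j => Y j.succ, (Y 0 : ℂ) + ρ * g, (Y 0 : ℂ) + ρ' * g, ?_, ?_, ?_⟩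
  · have : ((Y 0 : ℂ) + ρ * g).im = ρ.im * g := by simp
    rw [this]
    exact mul_ne_zero hρ (by exact_mod_cast h0.ne')
  · rw [key ρ, aeval_sub U hU, ha]
  · rw [key ρ', aeval_sub U hU]
    exact hb

end Pool.Agent.EXK
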