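import Pool.Agent.EXK.KNf
import Pool.Agent.EXK.KLin
import Pool.Agent.EXK.KRe
import Pool.Agent.EXK.KAsm
import Pool.Agent.EXL.Aut
import Pool.Agent.EXJ.JUni
import Pool.Agent.EXI.CTd

/-!
# EXK / KConcl: the theorem for a tuple of complex numbers
-/

set_option autoImplicit false

namespace Pool.Agent.EXK

open MvPolynomial Pool.Agent.EXL Pool.Agent.EXI

private theorem fg_adjoin (k : Subfield ℂ) {ι : Type} [Fintype ι] (z : ι → ℂ) :
    ∃ S : Finset (IntermediateField.adjoin k (Set.range z)),
      IntermediateField.adjoin k (S : Set (IntermediateField.adjoin k (Set.range z))) = ⊤ := by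
  classical
  set K := IntermediateField.adjoin k (Set.range z) with hK
  have hz : ∀ i, z i ∈ K := fun i => IntermediateField.subset_adjoin k _ ⟨i, rfl⟩
  refine ⟨Finset.univ.image (fun i => (⟨z i, hz i⟩ : K)), ?_⟩
  rw [eq_top_iff]
  intro x _
  set L := IntermediateField.adjoin k
    ((Finset.univ.image (fun i => (⟨z i, hz i⟩ : K)) : Finset K) : Set K) with hL
  have h1 : K ≤ L.map K.val := by
    refine IntermediateField.adjoin_le_iff.2 ?_
    rintro _ ⟨i, rfl⟩
    refine ⟨⟨z i, hz i⟩, ?_, rfl⟩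
    apply IntermediateField.subset_adjoin
    simp
  obtain ⟨y, hy, hyx⟩ := h1 x.2
  have : y = x := Subtype.ext hyx
  rw [← this]
  exact hy

/-- A polynomial without `X 0` does not depend on the first coordinate. -/
private theorem aeval_cons_eq {k : Subfield ℂ} {m : ℕ} (G : MvPolynomial (Fin (m + 1)) k)
    (hG : degreeOf 0 G = 0) (x x' : ℂ) (z : Fin m → ℂ) :
    aeval (Fin.cons x z : Fin (m + 1) → ℂ) G = aeval (Fin.cons x' z : Fin (m + 1) → ℂ) G := by
  refine MvPolynomial.eval₂Hom_congr' rfl ?_ rfl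
  intro i hi _
  rcases Fin.eq_zero_or_eq_succ i with rfl | ⟨j, rfl⟩
  · exfalso
    obtain ⟨e, he, h0⟩ := (MvPolynomial.mem_vars_iff_mem_support _).1 hi
    have h1 := MvPolynomial.monomial_le_degreeOf 0 he
    rw [hG] at h1
    exact Finsupp.mem_support_iff.1 h0 (Nat.le_zero.1 h1)
  · rw [Fin.cons_succ, Fin.cons_succ]

private theorem degreeOf_hc {k : Subfield ℂ} {n : ℕ} (i : Fin n) (d : ℕ)
    (F : MvPolynomial (Fin n) k) :
    degreeOf i (homogeneousComponent d F) ≤ degreeOf i F := by
  rw [MvPolynomial.degreeOf_le_iff]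
  intro e he
  apply MvPolynomial.monomial_le_degreeOf
  rw [support_homogeneousComponent, Finset.mem_filter] at he
  exact he.1

private theorem hc_sum {k : Subfield ℂ} {n : ℕ} (d : ℕ) (Fc : ℕ → MvPolynomial (Fin n) k)
    (hFc : ∀ i, (Fc i).IsHomogeneous i) :
    homogeneousComponent d (∑ i ∈ Finset.range (d + 1), Fc i) = Fc d := by
  rw [map_sum, Finset.sum_eq_single d]
  · exact homogeneousComponent_eq_self (hFc d)
  · intro i _ hi
    rw [homogeneousComponent_of_mem (hFc i), if_neg (Ne.symm hi)]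
  · intro h
    exact absurd (Finset.mem_range.2 (Nat.lt_succ_self d)) h

theorem concl_codim (k : Subfield ℂ) (hk : (k : Set ℂ).Countable) {m : ℕ}
    (a b : Fin (m + 1) → ℂ) (hb : ∀ j, b j ≠ 0) (F : MvPolynomial (Fin (m + 1)) k)
    (hF : ∀ f : MvPolynomial (Fin (m + 1)) k, aeval a f = 0 ↔ F ∣ f)
    (htd : td (k : Set ℂ) (Sum.elim a b) = m + 1) (hta : td (k : Set ℂ) a = m)
    (d : ℕ) (Fc : ℕ → MvPolynomial (Fin (m + 1)) k) (hFc : ∀ i, (Fc i).IsHomogeneous i)
    (hFs : F = ∑ i ∈ Finset.range (d + 1), Fc i)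
    (hNH : ∀ v : Fin (m + 1) → ℤ, v ≠ 0 → NonHyp (Fc d) v)
    (h : MvPolynomial (Fin (m + 1) ⊕ Fin (m + 1)) k) (hh : aeval (Sum.elim a b) h ≠ 0) :
    ∃ a' b' : Fin (m + 1) → ℂ, (∀ j, b' j = Complex.exp (a' j)) ∧
      Spec k (Sum.elim a b) (Sum.elim a' b') ∧ aeval (Sum.elim a' b') h ≠ 0 := by
  obtain ⟨U, v, hU, hv, h0, h1, pl, A, B, hA, hB, hρ0, hρ1, hrel⟩ := exists_nf k a b hb htd hta
  have hF' : ∀ f : MvPolynomial (Fin (m + 1)) k,
      aeval (fun j => pl.ρ (A j)) f = 0 ↔ sub U F ∣ f :=
    fun f => (hrel f).trans (ker_sub U hU a F hF f)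
  have hFc' : ∀ i, (sub U (Fc i)).IsHomogeneous i := fun i => sub_hom U (Fc i) i (hFc i)
  have hFs' : sub U F = ∑ i ∈ Finset.range (d + 1), sub U (Fc i) := by
    rw [hFs, map_sum]
  obtain ⟨y, ρ, ρ', him, hz, hnz⟩ := nonhyp_sub U hU v h0 h1 (Fc d) (hNH v hv)
  obtain ⟨α', ρ₀, hre, hind', hρ₀, hroot⟩ :=
    exists_dir k hk (sub U (Fc d)) (hFc' d) y ρ ρ' him hz hnz
  have hFd' : sub U (Fc d) ≠ 0 := by
    intro h2
    apply hnz
    rw [h2, map_zero]
  -- the residues of `A (j + 1)` are algebraically independent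
  have hind : AlgebraicIndependent k (fun j : Fin m => pl.ρ (A j.succ)) := by
    rw [algebraicIndependent_iff]
    intro f hf
    by_contra hf0
    have h2 : aeval (fun j => pl.ρ (A j)) (rename Fin.succ f) = 0 := by
      rw [aeval_rename]
      exact hf
    obtain ⟨q, hq⟩ := (hF' _).1 h2
    have hr0 : rename Fin.succ f ≠ (0 : MvPolynomial (Fin (m + 1)) k) := by
      intro h3
      apply hf0
      exact (rename_injective _ (Fin.succ_injective m)) (by rw [h3, map_zero])
    have hF0 : sub U F ≠ 0 := by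
      intro h3
      rw [h3, zero_mul] at hq
      exact hr0 hq
    have hq0 : q ≠ 0 := by
      rintro rfl
      rw [mul_zero] at hq
      exact hr0 hq
    have h3 : degreeOf 0 (sub U F * q) = degreeOf 0 (sub U F) + degreeOf 0 q :=
      degreeOf_mul_eq hF0 hq0
    have h4 : degreeOf 0 (rename Fin.succ f : MvPolynomial (Fin (m + 1)) k) = 0 := by
      classical
      apply Nat.le_zero.1
      rw [degreeOf_le_iff]
      intro e he
      obtain ⟨e', h5, -⟩ := coeff_rename_ne_zero _ _ _ (mem_support_iff.1 he)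
      rw [← h5, Finsupp.mapDomain_of_notMem_range]
      rintro ⟨j, hj⟩
      exact Fin.succ_ne_zero j hj
    rw [← hq, h4] at h3
    have h5 : degreeOf 0 (sub U (Fc d)) = 0 := by
      have h6 := degreeOf_hc 0 d (sub U F)
      have h7 : homogeneousComponent d (sub U F) = sub U (Fc d) := by
        rw [hFs']
        exact hc_sum d (fun i => sub U (Fc i)) hFc'
      rw [h7] at h6
      omega
    exact hnz (by rw [← hz]; exact aeval_cons_eq _ h5 _ _ _)
  obtain ⟨τ, hτ, hτ'⟩ := exists_aut k hk (fun j : Fin m => pl.ρ (A j.succ)) α' (by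
    intro f
    constructor
    · intro hf
      rw [algebraicIndependent_iff.1 hind f hf, map_zero]
    · intro hf
      rw [algebraicIndependent_iff.1 hind' f hf, map_zero])
  have hcl : EXJ.Concl (1 : AddChar ℤ ℂ) k (linZ U a) (powZ U b) := by
    intro h hh
    have hval : ∀ f : MvPolynomial (Fin (m + 1) ⊕ Fin (m + 1)) k,
        aeval (Sum.elim (linZ U a) (powZ U b)) f =
        ((aeval (Sum.elim
          (fun j => (A j : IntermediateField.adjoin k (Set.range (Sum.elim a b))))
          fun j => (B j : IntermediateField.adjoin k (Set.range (Sum.elim a b)))) f :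
          IntermediateField.adjoin k (Set.range (Sum.elim a b))) : ℂ) := by
      intro f
      have h1 := aeval_algebraMap_apply (R := k) ℂ (Sum.elim
          (fun j => (A j : IntermediateField.adjoin k (Set.range (Sum.elim a b))))
          fun j => (B j : IntermediateField.adjoin k (Set.range (Sum.elim a b)))) f
      refine Eq.trans ?_ h1
      congr 2
      funext i
      rcases i with i | i
      · exact (hA i).symm
      · exact (hB i).symm
    have hB0 : ((B 0 : pl.O) : IntermediateField.adjoin k (Set.range (Sum.elim a b))) ≠ 0 := by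
      intro hz
      have h1 := hB 0
      rw [hz] at h1
      have h2 : powZ U b 0 ≠ 0 := by
        unfold powZ
        exact Finset.prod_ne_zero_iff.2 fun i _ => zpow_ne_zero _ (hb i)
      exact h2 (by rw [← h1]; rfl)
    have hα : (fun j : Fin m => (conj pl τ hτ).ρ (A j.succ)) = α' := by
      funext j
      exact hτ' j
    obtain ⟨a', b', hs, hsp, hne⟩ := concl_nf (conj pl τ hτ) (fg_adjoin k _)
      (td_not_ind k (Sum.elim a b) htd) A B hB0
      (by
        change τ (pl.ρ (B 0)) = 0
        rw [hρ0, map_zero])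
      (fun j => by
        change τ (pl.ρ (B j.succ)) ≠ 0
        exact fun hz => hρ1 j ((map_eq_zero_iff τ τ.injective).1 hz))
      (sub U F) (fun f => (conj_rel pl τ hτ A f).trans (hF' f)) d (fun i => sub U (Fc i)) hFc' hFs'
      hFd' (by rw [hα]; exact hind')
      (fun j => by
        have := congrFun hα j
        rw [this]
        exact hre j) ρ₀ hρ₀ (by rw [hα]; exact hroot) h (by
        intro hz
        apply hh
        rw [hval, hz]
        rfl)
    refine ⟨a', b', ⟨0, fun j => ?_⟩, ?_, hne⟩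
    · rw [hs j]
      simp
    · intro f hf
      apply hsp
      rw [hval] at hf
      exact Subtype.ext hf
  obtain ⟨a', b', ⟨q, hq⟩, hsp, hne⟩ := EXJ.concl_uni (1 : AddChar ℤ ℂ) k a b hb U hU hcl h hh
  refine ⟨a', b', fun j => ?_, hsp, hne⟩
  rw [hq j]
  simp

end Pool.Agent.EXK
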