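import Pool.Agent.EXK.KDefs
import Pool.Agent.EXI.CEmb
import Pool.Agent.EXI.CTopPl
import Pool.Agent.EXI.CTopCh

/-!
# EXK / KTop: the chart at infinity for any number of algebraic functions, with leading coefficients

This is `top_place` + `top_chart` (EXI/CTopPl.lean, EXI/CTopCh.lean: the files are copied, private lemmas
included) with `m` functions `α` and `N` functions `c` (there: both `n`), for a GIVEN embedding `σ`, and
with the additional information that `ν j` is the order of `σ (c j)` and `V j (α, 0)` its leading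
coefficient: in the proof of `top_chart` one has `V j (α, 0) = ρ(E^{ν_j} A_j / B_j)` where
`β_j z^{-ν_j} = E^{ν_j} A_j(x) / B_j(x)`, `z = ζ`, `β_j = σ (c j)`, `pl.ρ x = coeff 0` of `x`
(`exists_place`), so `V j (α, 0) = coeff 0 (σ (c j) ζ^{-ν_j}) = coeff ν_j (σ (c j))`.
-/

set_option autoImplicit false
set_option linter.unusedVariables false

namespace Pool.Agent.EXK

open MvPolynomial Pool.Agent.EXL Pool.Agent.EXI Topology

/-- The data of a place at infinity, for `m` functions `a` and `N` functions `b`. -/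
private structure TopDataN (k : Subfield ℂ) {m N : ℕ} (a : Fin m → ℂ) (b : Fin N → ℂ) (K : Type)
    [Field K] [Algebra k K] where
  pl : Place k K
  e : ℕ
  he : 1 ≤ e
  u : Fin m → pl.O
  z : pl.O
  β : Fin N → K
  fg : ∃ S : Finset K, IntermediateField.adjoin k (S : Set K) = ⊤
  tr : ∀ y : Fin (m + 2) → K, ¬ AlgebraicIndependent k y
  ρu : ∀ i, pl.ρ (u i) = a i
  hz : ∃ ε : pl.O, pl.ρ ε ≠ 0 ∧ (z : K) = pl.t * ε
  iso : ∀ f : MvPolynomial (Fin m ⊕ Fin N) k, aeval (Sum.elim a b) f = 0 ↔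
    aeval (Sum.elim (fun i => (u i : K) * ((z : K)⁻¹) ^ e) β) f = 0

private theorem ctp_order0 {Ω : Type*} [Field Ω] (x : LaurentSeries Ω)
    (h : ∀ i : ℤ, i < 0 → x.coeff i = 0) (h0 : x.coeff 0 ≠ 0) : x.order = 0 := by
  have hx : x ≠ 0 := by
    rintro rfl
    exact h0 rfl
  apply le_antisymm (HahnSeries.order_le_of_coeff_ne_zero h0)
  by_contra hlt
  push Not at hlt
  exact hx (HahnSeries.coeff_order_eq_zero.1 (h _ hlt))

private theorem ctp_order1 {Ω : Type*} [Field Ω] (x : LaurentSeries Ω) (hx : x ≠ 0)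
    (h : ∀ i : ℤ, i < 0 → x.coeff i = 0) (h0 : x.coeff 0 = 0) : 1 ≤ x.order := by
  by_contra hlt
  push Not at hlt
  have h1 : x.order < 0 ∨ x.order = 0 := by omega
  rcases h1 with h1 | h1
  · exact hx (HahnSeries.coeff_order_eq_zero.1 (h _ h1))
  · rw [← h1] at h0
    exact hx (HahnSeries.coeff_order_eq_zero.1 h0)

/-- transcendence degree -/
private theorem ctp_tr {k K : Type} [Field k] [Field K] [Algebra k K] {n : ℕ}
    (s : Option (Fin n) → K) (halg : ∀ x : K, IsAlgebraic (Algebra.adjoin k (Set.range s)) x)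
    (y : Fin (n + 2) → K) : ¬ AlgebraicIndependent k y := by
  intro hy
  have : Algebra.IsAlgebraic (Algebra.adjoin k (Set.range s)) K := ⟨halg⟩
  have h1 := hy.cardinalMk_le_trdeg
  have h2 := Algebra.IsAlgebraic.trdeg_le_cardinalMk k (Set.range s)
  have h3 : Cardinal.mk (Set.range s) ≤ Cardinal.mk (Option (Fin n)) := Cardinal.mk_range_le
  have h4 := (h1.trans h2).trans h3
  rw [Cardinal.mk_fin, Cardinal.mk_fintype, Fintype.card_option, Fintype.card_fin] at h4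
  have h5 : n + 2 ≤ n + 1 := by exact_mod_cast h4
  omega

/-- finitely generated -/
private theorem ctp_fg {k F : Type} [Field k] [Field F] [Algebra k F] (T : Set F)
    (hT : T.Finite) : ∃ S : Finset (IntermediateField.adjoin k T),
      IntermediateField.adjoin k (S : Set (IntermediateField.adjoin k T)) = ⊤ := by
  have h1 : (Subtype.val ⁻¹' T : Set (IntermediateField.adjoin k T)).Finite :=
    hT.preimage Subtype.val_injective.injOn
  refine ⟨h1.toFinset, ?_⟩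
  rw [Set.Finite.coe_toFinset]
  rw [eq_top_iff]
  rintro ⟨x, hx⟩ -
  induction hx using IntermediateField.adjoin_induction with
  | mem x hx => exact IntermediateField.subset_adjoin _ _ hx
  | algebraMap x => exact IntermediateField.algebraMap_mem _ x
  | add x y hx hy h h' => exact add_mem h h'
  | inv x hx h => exact inv_mem h
  | mul x y hx hy h h' => exact mul_mem h h'

/-- algebraic elements -/
private theorem ctp_alg {k : Subfield ℂ} {n : ℕ} (a : Fin n → ℂ) {E : Subfield ℂ}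
    {K : Type} [Field K] [Algebra k K] (hkE : ∀ c ∈ k, c ∈ E) (haE : ∀ i, a i ∈ E)
    (σ : E →+* K) (hσ : ∀ c : k, σ ⟨c, hkE c c.2⟩ = algebraMap k K c) (s : Set K)
    (hs : ∀ i, σ ⟨a i, haE i⟩ ∈ s) (b : ℂ) (hbE : b ∈ E)
    (hb : IsAlgebraic (Algebra.adjoin k (Set.range a)) b) :
    IsAlgebraic (Algebra.adjoin k s) (σ ⟨b, hbE⟩) := by
  have hAE : ∀ x ∈ Algebra.adjoin k (Set.range a), x ∈ E := by
    intro x hx
    induction hx using Algebra.adjoin_induction with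
    | mem x hx => obtain ⟨i, rfl⟩ := hx; exact haE i
    | algebraMap c => exact hkE _ c.2
    | add x y _ _ h h' => exact add_mem h h'
    | mul x y _ _ h h' => exact mul_mem h h'
  set A := Algebra.adjoin k (Set.range a) with hA
  let incl : A →+* E := (A.val : A →+* ℂ).codRestrict E (fun x => hAE x.1 x.2)
  have hR : ∀ x : A, (σ.comp incl) x ∈ Algebra.adjoin k s := by
    rintro ⟨x, hx⟩
    induction hx using Algebra.adjoin_induction with
    | mem x hx => obtain ⟨i, rfl⟩ := hx; exact Algebra.subset_adjoin (hs i)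
    | algebraMap c =>
      have h1 : (σ.comp incl) ⟨algebraMap k ℂ c, Subalgebra.algebraMap_mem _ c⟩ =
        algebraMap k K c := hσ c
      rw [h1]
      exact Subalgebra.algebraMap_mem _ c
    | add x y hx hy h h' =>
      have h1 : (σ.comp incl) ⟨x + y, add_mem hx hy⟩ =
        (σ.comp incl) ⟨x, hx⟩ + (σ.comp incl) ⟨y, hy⟩ := by
        rw [← map_add]; rfl
      rw [h1]
      exact add_mem h h'
    | mul x y hx hy h h' =>
      have h1 : (σ.comp incl) ⟨x * y, mul_mem hx hy⟩ =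
        (σ.comp incl) ⟨x, hx⟩ * (σ.comp incl) ⟨y, hy⟩ := by
        rw [← map_mul]; rfl
      rw [h1]
      exact mul_mem h h'
  let τ : A →+* Algebra.adjoin k s := (σ.comp incl).codRestrict _ hR
  have hinj : Function.Injective incl := by
    intro x y hxy
    exact Subtype.ext (congrArg (fun z : E => (z : ℂ)) hxy)
  have hτ : Function.Injective τ := by
    intro x y hxy
    apply hinj
    apply σ.injective
    exact congrArg (fun z : Algebra.adjoin k s => (z : K)) hxy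
  obtain ⟨p, hp0, hp⟩ := hb
  refine ⟨p.map τ, fun h0 => hp0 ?_, ?_⟩
  · exact (Polynomial.map_eq_zero_iff hτ).1 h0
  · rw [Polynomial.aeval_def, Polynomial.eval₂_map]
    have h1 : (algebraMap (Algebra.adjoin k s) K).comp τ = σ.comp incl := rfl
    rw [h1, ← Polynomial.hom_eval₂]
    have h2 : Polynomial.eval₂ incl (⟨b, hbE⟩ : E) p = 0 := by
      apply Subtype.ext
      show E.subtype (Polynomial.eval₂ incl (⟨b, hbE⟩ : E) p) = 0
      rw [Polynomial.hom_eval₂]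
      exact hp
    rw [h2, map_zero]

/-- `ζ` is a uniformizer -/
private theorem ctp_hz {k Ω : Subfield ℂ} {K : Type} [Field K] [Algebra k K] (pl : Place k K)
    (σ : K →+* LaurentSeries Ω)
    (hO : ∀ x : K, x ∈ pl.O ↔ ∀ i : ℤ, i < 0 → (σ x).coeff i = 0)
    (hρ : ∀ x : pl.O, pl.ρ x = ((σ x).coeff 0 : Ω)) (z : K)
    (hz : σ z = HahnSeries.single (1 : ℤ) (1 : Ω)) :
    ∃ ε : pl.O, pl.ρ ε ≠ 0 ∧ z = pl.t * ε := by
  have hoz : (σ z).order = 1 := by
    rw [hz]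
    exact HahnSeries.order_single one_ne_zero
  have hσz0 : σ z ≠ 0 := by
    intro h
    rw [h, HahnSeries.order_zero] at hoz
    exact absurd hoz (by norm_num)
  have hz0 : z ≠ 0 := by
    rintro rfl
    exact hσz0 (map_zero σ)
  have hσt0 : σ pl.t ≠ 0 := fun h => pl.t_ne (σ.injective (by rw [h, map_zero]))
  have hot : 1 ≤ (σ pl.t).order := by
    refine ctp_order1 _ hσt0 ((hO _).1 pl.t_mem) ?_
    have h1 := hρ ⟨pl.t, pl.t_mem⟩
    rw [pl.ρt] at h1
    exact Subtype.ext h1.symm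
  obtain ⟨m, ε, hε, he⟩ := pl.fac z hz0
  have hε0 : (σ ε).coeff 0 ≠ 0 := by
    intro h
    apply hε
    rw [hρ, h]
    rfl
  have hoε : (σ ε).order = 0 := ctp_order0 _ ((hO _).1 ε.2) hε0
  have hσε0 : σ ε ≠ 0 := by
    intro h
    rw [h] at hε0
    exact hε0 rfl
  rcases Int.eq_nat_or_neg m with ⟨p, rfl | rfl⟩
  · rw [zpow_natCast] at he
    have h1 := congrArg (fun x => (σ x).order) he
    simp only [map_mul, map_pow] at h1
    rw [hoz, HahnSeries.order_mul (pow_ne_zero _ hσt0) hσε0, HahnSeries.order_pow, hoε,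
      add_zero, nsmul_eq_mul] at h1
    have hp : p = 1 := by
      have hp0 : p ≠ 0 := by
        rintro rfl
        rw [Nat.cast_zero, zero_mul] at h1
        exact absurd h1 (by norm_num)
      by_contra hp1
      have h2 : (2 : ℤ) ≤ p := by omega
      have h3 : (2 : ℤ) * 1 ≤ p * (σ pl.t).order :=
        mul_le_mul h2 hot (by norm_num) (by omega)
      omega
    rw [hp, pow_one] at he
    exact ⟨ε, hε, he⟩
  · exfalso
    have ht := pl.t_ne
    have h0 : z * pl.t ^ p = ε := by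
      rw [he, zpow_neg, zpow_natCast]
      field_simp
    have h1 := congrArg (fun x => (σ x).order) h0
    simp only [map_mul, map_pow] at h1
    rw [HahnSeries.order_mul hσz0 (pow_ne_zero _ hσt0), hoz, HahnSeries.order_pow, hoε,
      nsmul_eq_mul] at h1
    have h3 : (0 : ℤ) ≤ p * (σ pl.t).order := mul_nonneg (by omega) (by omega)
    omega

/-- The construction of the data, for an embedding `σ` of `E = k(a, b)`. -/
private theorem ctp_data (k Ω E : Subfield ℂ) (hΩ : k ≤ Ω) {m N : ℕ} (a : Fin m → ℂ)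
    (b : Fin N → ℂ)
    (hkE : ∀ c ∈ k, c ∈ E) (haE : ∀ i, a i ∈ E) (hbE : ∀ i, b i ∈ E) (haΩ : ∀ i, a i ∈ Ω)
    (hE : E = Subfield.closure ((k : Set ℂ) ∪ Set.range (Sum.elim a b)))
    (σ : E →+* LaurentSeries Ω) (e : ℕ) (he : 1 ≤ e)
    (hσc : ∀ c : k, σ ⟨c, hkE c c.2⟩ = HahnSeries.C (⟨c, hΩ c.2⟩ : Ω))
    (hσa : ∀ i, σ ⟨a i, haE i⟩ = HahnSeries.single (-(e : ℤ)) (⟨a i, haΩ i⟩ : Ω))
    (halg : ∀ j, IsAlgebraic (Algebra.adjoin k (Set.range a)) (b j)) :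
    ∃ (K : Type) (_ : Field K) (_ : Algebra k K) (T : TopDataN k a b K), T.e = e ∧
      ∀ (j : Fin N) (ν : ℤ) (w : T.pl.O), (w : K) = T.β j * (T.z : K) ^ (-ν) →
        (∀ i : ℤ, i < ν → (σ ⟨b j, hbE j⟩).coeff i = 0) ∧
        (((σ ⟨b j, hbE j⟩).coeff ν : Ω) : ℂ) = T.pl.ρ w := by
  let : Algebra k (LaurentSeries Ω) :=
    ((HahnSeries.C : Ω →+* HahnSeries ℤ Ω).comp (Subfield.inclusion hΩ)).toAlgebra
  have halgmap : ∀ c : k, algebraMap k (LaurentSeries Ω) c =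
      HahnSeries.C (⟨c, hΩ c.2⟩ : Ω) := fun c => rfl
  obtain ⟨ζ, hζ⟩ : ∃ ζ : LaurentSeries Ω, ζ = HahnSeries.single (1 : ℤ) (1 : Ω) := ⟨_, rfl⟩
  obtain ⟨ca, hca⟩ : ∃ ca : Fin m → LaurentSeries Ω,
    ∀ i, ca i = HahnSeries.single (0 : ℤ) (⟨a i, haΩ i⟩ : Ω) := ⟨_, fun _ => rfl⟩
  obtain ⟨cb, hcb⟩ : ∃ cb : Fin N → LaurentSeries Ω, ∀ j, cb j = σ ⟨b j, hbE j⟩ :=
    ⟨_, fun _ => rfl⟩
  obtain ⟨T, hT⟩ : ∃ T : Set (LaurentSeries Ω), T = Set.range ca ∪ {ζ} ∪ Set.range cb := ⟨_, rfl⟩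
  have hTf : T.Finite := by
    rw [hT]
    exact ((Set.finite_range ca).union (Set.finite_singleton ζ)).union (Set.finite_range cb)
  have hζ0 : ζ ≠ 0 := by
    rw [hζ]
    exact HahnSeries.single_ne_zero one_ne_zero
  have hζinv : ∀ r : ℕ, (ζ⁻¹) ^ r = HahnSeries.single (-(r : ℤ)) (1 : Ω) := by
    intro r
    rw [inv_pow]
    apply inv_eq_of_mul_eq_one_right
    rw [hζ, HahnSeries.single_pow, HahnSeries.single_mul_single]
    simp
  have hσa' : ∀ i, σ ⟨a i, haE i⟩ = ca i * (ζ⁻¹) ^ e := by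
    intro i
    rw [hσa, hζinv, hca, HahnSeries.single_mul_single, zero_add, mul_one]
  obtain ⟨K, hK⟩ : ∃ K : IntermediateField k (LaurentSeries Ω),
    K = IntermediateField.adjoin k T := ⟨_, rfl⟩
  have hTK : ∀ x ∈ T, x ∈ K := by
    intro x hx
    rw [hK]
    exact IntermediateField.subset_adjoin k T hx
  have hcaK : ∀ i, ca i ∈ K := fun i => hTK _ (by rw [hT]; exact Or.inl (Or.inl ⟨i, rfl⟩))
  have hζK : ζ ∈ K := hTK _ (by rw [hT]; exact Or.inl (Or.inr rfl))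
  have hcbK : ∀ i, cb i ∈ K := fun i => hTK _ (by rw [hT]; exact Or.inr ⟨i, rfl⟩)
  have hσK' : ∀ x (_ : x ∈ Subfield.closure ((k : Set ℂ) ∪ Set.range (Sum.elim a b)))
      (hx : x ∈ E), σ ⟨x, hx⟩ ∈ K := by
    intro x hx
    induction hx using Subfield.closure_induction with
    | mem x hx =>
      intro hxE
      rcases hx with hx | ⟨i | i, rfl⟩
      · have h1 : σ ⟨x, hxE⟩ = algebraMap k (LaurentSeries Ω) ⟨x, hx⟩ := hσc ⟨x, hx⟩
        rw [h1]
        exact K.algebraMap_mem _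
      · have h1 : σ ⟨Sum.elim a b (Sum.inl i), hxE⟩ = ca i * (ζ⁻¹) ^ e := hσa' i
        rw [h1]
        exact mul_mem (hcaK i) (pow_mem (inv_mem hζK) e)
      · have h1 : σ ⟨Sum.elim a b (Sum.inr i), hxE⟩ = cb i := (hcb i).symm
        rw [h1]
        exact hcbK i
    | one =>
      intro hxE
      have h1 : σ ⟨1, hxE⟩ = 1 := map_one σ
      rw [h1]
      exact one_mem K
    | add x y hx hy h h' =>
      intro hxE
      have h1 := add_mem (h (hE ▸ hx)) (h' (hE ▸ hy))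
      rw [← map_add] at h1
      exact h1
    | neg x hx h =>
      intro hxE
      have h1 := neg_mem (h (hE ▸ hx))
      rw [← map_neg] at h1
      exact h1
    | inv x hx h =>
      intro hxE
      have h1 := inv_mem (h (hE ▸ hx))
      rw [← map_inv₀] at h1
      exact h1
    | mul x y hx hy h h' =>
      intro hxE
      have h1 := mul_mem (h (hE ▸ hx)) (h' (hE ▸ hy))
      rw [← map_mul] at h1
      exact h1
  have hσK : ∀ x : E, σ x ∈ K := fun x => hσK' x.1 (hE ▸ x.2) x.2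
  obtain ⟨τ, hτ⟩ : ∃ τ : E →+* K, ∀ x, ((τ x : K) : LaurentSeries Ω) = σ x :=
    ⟨σ.codRestrict K hσK, fun _ => rfl⟩
  have hτk : ∀ c : k, τ ⟨c, hkE c c.2⟩ = algebraMap k K c := by
    intro c
    apply Subtype.ext
    rw [hτ, hσc]
    rfl
  obtain ⟨zK, hzK⟩ : ∃ z : K, (z : LaurentSeries Ω) = ζ := ⟨⟨ζ, hζK⟩, rfl⟩
  obtain ⟨uK, huK⟩ : ∃ u : Fin m → K, ∀ i, (u i : LaurentSeries Ω) = ca i :=
    ⟨fun i => ⟨ca i, hcaK i⟩, fun _ => rfl⟩
  have hzK0 : zK ≠ 0 := by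
    intro h
    apply hζ0
    rw [← hzK, h]
    rfl
  have hτa : ∀ i, τ ⟨a i, haE i⟩ = uK i * (zK⁻¹) ^ e := by
    intro i
    apply Subtype.ext
    rw [hτ, hσa', ← huK, ← hzK]
    rfl
  obtain ⟨pl, hO, hρ⟩ := exists_place k Ω hΩ (algebraMap K (LaurentSeries Ω))
    (fun c => rfl) zK (by
      have h1 : (algebraMap K (LaurentSeries Ω)) zK = ζ := hzK
      rw [h1, hζ, HahnSeries.order_single one_ne_zero]
      norm_num)
  have huO : ∀ i, uK i ∈ pl.O := by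
    intro i
    rw [hO]
    intro j hj
    have h1 : (algebraMap K (LaurentSeries Ω)) (uK i) = ca i := huK i
    rw [h1, hca]
    exact HahnSeries.coeff_single_of_ne (by omega)
  have hzO : zK ∈ pl.O := by
    rw [hO]
    intro j hj
    have h1 : (algebraMap K (LaurentSeries Ω)) zK = ζ := hzK
    rw [h1, hζ]
    exact HahnSeries.coeff_single_of_ne (by omega)
  -- algebraicity
  obtain ⟨s, hsn', hsa'⟩ : ∃ s : Option (Fin m) → K, s none = zK ∧
      ∀ i, s (some i) = τ ⟨a i, haE i⟩ :=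
    ⟨fun i => i.elim zK fun i => τ ⟨a i, haE i⟩, rfl, fun _ => rfl⟩
  have hsn : zK ∈ Algebra.adjoin k (Set.range s) := Algebra.subset_adjoin ⟨none, hsn'⟩
  have hsa : ∀ i, τ ⟨a i, haE i⟩ ∈ Algebra.adjoin k (Set.range s) := fun i =>
    Algebra.subset_adjoin ⟨some i, hsa' i⟩
  have hKalg' : ∀ x ∈ IntermediateField.adjoin k T, ∀ y : K, (y : LaurentSeries Ω) = x →
      IsAlgebraic (Algebra.adjoin k (Set.range s)) y := by
    intro x hx
    induction hx using IntermediateField.adjoin_induction with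
    | mem x hx =>
      rw [hT] at hx
      intro y hy
      rcases hx with (⟨i, rfl⟩ | rfl) | ⟨j, rfl⟩
      · have h1 : y = τ ⟨a i, haE i⟩ * zK ^ e := by
          rw [hτa, mul_assoc, ← mul_pow, inv_mul_cancel₀ hzK0, one_pow, mul_one]
          apply Subtype.ext
          rw [hy, huK]
        have h2 : y ∈ Algebra.adjoin k (Set.range s) := by
          rw [h1]
          exact mul_mem (hsa i) (pow_mem hsn e)
        exact isAlgebraic_algebraMap (⟨_, h2⟩ : Algebra.adjoin k (Set.range s))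
      · have h2 : y ∈ Algebra.adjoin k (Set.range s) := by
          have h1 : y = zK := Subtype.ext (by rw [hy, hzK])
          rw [h1]
          exact hsn
        exact isAlgebraic_algebraMap (⟨_, h2⟩ : Algebra.adjoin k (Set.range s))
      · have h1 : y = τ ⟨b j, hbE j⟩ := Subtype.ext (by rw [hy, hτ, hcb])
        rw [h1]
        exact ctp_alg a hkE haE τ hτk (Set.range s) (fun i => ⟨some i, hsa' i⟩) (b j) (hbE j)
          (halg j)
    | algebraMap x =>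
      intro y hy
      have h1 : y = algebraMap k K x := Subtype.ext (by rw [hy]; rfl)
      rw [h1]
      exact isAlgebraic_algebraMap (algebraMap k (Algebra.adjoin k (Set.range s)) x)
    | add x y hx hy h h' =>
      intro z hz
      rw [← hK] at hx hy
      have h1 : z = ⟨x, hx⟩ + ⟨y, hy⟩ := Subtype.ext hz
      rw [h1]
      exact (h ⟨x, hx⟩ rfl).add (h' ⟨y, hy⟩ rfl)
    | inv x hx h =>
      intro z hz
      rw [← hK] at hx
      have h1 : z = (⟨x, hx⟩ : K)⁻¹ := Subtype.ext hz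
      rw [h1]
      exact (h ⟨x, hx⟩ rfl).inv
    | mul x y hx hy h h' =>
      intro z hz
      rw [← hK] at hx hy
      have h1 : z = ⟨x, hx⟩ * ⟨y, hy⟩ := Subtype.ext hz
      rw [h1]
      exact (h ⟨x, hx⟩ rfl).mul (h' ⟨y, hy⟩ rfl)
  have hKalg : ∀ x : K, IsAlgebraic (Algebra.adjoin k (Set.range s)) x :=
    fun x => hKalg' x.1 (hK ▸ x.2) x rfl
  have hfg : ∃ S : Finset K, IntermediateField.adjoin k (S : Set K) = ⊤ := by
    rw [hK]
    exact ctp_fg T hTf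
  have hρu : ∀ i, pl.ρ ⟨uK i, huO i⟩ = a i := by
    intro i
    rw [hρ]
    have h1 : (algebraMap K (LaurentSeries Ω)) (uK i) = ca i := huK i
    rw [h1, hca, HahnSeries.coeff_single_same]
  have hiso : ∀ f : MvPolynomial (Fin m ⊕ Fin N) k, aeval (Sum.elim a b) f = 0 ↔
      aeval (Sum.elim (fun i => uK i * (zK⁻¹) ^ e) (fun j => τ ⟨b j, hbE j⟩)) f = 0 := by
    intro f
    obtain ⟨y, hy⟩ : ∃ y : Fin m ⊕ Fin N → E, ∀ i, (y i : ℂ) = Sum.elim a b i :=
      ⟨fun i => ⟨Sum.elim a b i, by rcases i with i | i; exacts [haE i, hbE i]⟩, fun _ => rfl⟩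
    have h1 : (Sum.elim (fun i => uK i * (zK⁻¹) ^ e) (fun j => τ ⟨b j, hbE j⟩)) =
        fun i => τ (y i) := by
      funext i
      rcases i with i | j
      · rw [Sum.elim_inl, ← hτa]
        exact congrArg τ (Subtype.ext (hy (Sum.inl i)).symm)
      · exact congrArg τ (Subtype.ext (hy (Sum.inr j)).symm)
    have h5 : (fun i => E.subtype (y i)) = Sum.elim a b := funext hy
    rw [h1]
    let ι : k →+* E := Subfield.inclusion hkE
    have h2 : aeval (fun i => τ (y i)) f = τ (eval₂ ι y f) := by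
      rw [hom_eval₂, aeval_def]
      have h3 : τ.comp ι = algebraMap k K := RingHom.ext hτk
      rw [h3]
    have h4 : aeval (Sum.elim a b) f = E.subtype (eval₂ ι y f) := by
      rw [hom_eval₂, aeval_def, ← h5]
      rfl
    rw [h2, h4, map_eq_zero, map_eq_zero]
  refine ⟨K, inferInstance, inferInstance,
    { pl := pl, e := e, he := he, u := fun i => ⟨uK i, huO i⟩
      z := ⟨zK, hzO⟩, β := fun j => τ ⟨b j, hbE j⟩, fg := hfg
      tr := ctp_tr s hKalg, ρu := hρu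
      hz := ctp_hz pl (algebraMap K (LaurentSeries Ω)) hO hρ zK (hzK.trans hζ), iso := hiso },
    rfl, ?_⟩
  intro j ν w hw
  have hzz : ∀ r : ℤ, ζ ^ r = HahnSeries.single r (1 : Ω) := by
    intro r
    rcases Int.eq_nat_or_neg r with ⟨p, rfl | rfl⟩
    · rw [zpow_natCast, hζ, HahnSeries.single_pow]
      simp
    · rw [zpow_neg, zpow_natCast, ← inv_pow, hζinv]
  have hw1 : (algebraMap K (LaurentSeries Ω)) (w : K) =
      σ ⟨b j, hbE j⟩ * HahnSeries.single (-ν) (1 : Ω) := by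
    have h1 : (w : K) = τ ⟨b j, hbE j⟩ * zK ^ (-ν) := hw
    rw [h1, map_mul, map_zpow₀]
    have h2 : (algebraMap K (LaurentSeries Ω)) zK = ζ := hzK
    have h3 : (algebraMap K (LaurentSeries Ω)) (τ ⟨b j, hbE j⟩) = σ ⟨b j, hbE j⟩ := hτ _
    rw [h2, h3, hzz]
  have hcoef : ∀ i : ℤ, (σ ⟨b j, hbE j⟩).coeff i =
      ((algebraMap K (LaurentSeries Ω)) (w : K)).coeff (i - ν) := by
    intro i
    rw [hw1, sub_eq_add_neg, HahnSeries.coeff_mul_single_add, mul_one]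
  constructor
  · intro i hi
    rw [hcoef]
    exact (hO _).1 w.2 _ (by omega)
  · rw [hcoef, sub_self]
    exact (hρ w).symm

private theorem ctc_zpow {E : Type*} [NormedAddCommGroup E] [NormedSpace ℂ E] {f : E → ℂ} {x : E}
    (hf : ContDiffAt ℂ 1 f x) (h0 : f x ≠ 0) (ν : ℤ) : ContDiffAt ℂ 1 (fun y => f y ^ ν) x := by
  rcases Int.eq_nat_or_neg ν with ⟨m, rfl | rfl⟩
  · simp only [zpow_natCast]
    exact hf.pow m
  · simp only [zpow_neg, zpow_natCast]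
    exact (hf.pow m).inv (pow_ne_zero _ h0)

private theorem ctc_snoc_contDiff (n : ℕ) :
    ContDiff ℂ 1 (fun q : (Fin n → ℂ) × ℂ => (Fin.snoc q.1 q.2 : Fin (n + 1) → ℂ)) := by
  rw [contDiff_pi]
  intro i
  refine Fin.lastCases ?_ (fun j => ?_) i
  · simp only [Fin.snoc_last]
    exact contDiff_snd
  · simp only [Fin.snoc_castSucc]
    exact (contDiff_apply ℂ ℂ j).comp contDiff_fst

private theorem ctc_deriv {k : Subfield ℂ} {n : ℕ} (P : MvPolynomial (Fin (n + 1)) k)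
    (a : Fin n → ℂ) (Y : ℂ) :
    HasDerivAt (fun Y : ℂ => aeval (Fin.snoc a Y : Fin (n + 1) → ℂ) P)
      (aeval (Fin.snoc a Y : Fin (n + 1) → ℂ) (pderiv (Fin.last n) P)) Y := by
  classical
  induction P using MvPolynomial.induction_on with
  | C c =>
    simp only [aeval_C, pderiv_C, map_zero]
    exact hasDerivAt_const _ _
  | add p q hp hq =>
    simp only [map_add]
    exact hp.add hq
  | mul_X p i hp =>
    revert i
    intro i
    refine Fin.lastCases ?_ (fun j => ?_) i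
    · have h := hp.mul (hasDerivAt_id Y)
      simp only [map_mul, aeval_X, pderiv_mul, pderiv_X_self, map_add, map_one, Fin.snoc_last]
      exact h
    · have h := hp.mul (hasDerivAt_const Y (a j))
      have h1 : pderiv (Fin.last n) (X j.castSucc : MvPolynomial (Fin (n + 1)) k) = 0 :=
        pderiv_X_of_ne (Fin.castSucc_lt_last j).ne
      simp only [map_mul, aeval_X, pderiv_mul, map_add, h1, map_zero, Fin.snoc_castSucc]
      exact h

/-- The inverse function. -/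
private theorem ctc_inv {n : ℕ} (a : Fin n → ℂ) (Y₀ : ℂ) (Z : (Fin (n + 1) → ℂ) → ℂ)
    (hZ : ContDiffAt ℂ 1 Z (Fin.snoc a Y₀)) (hZ0 : Z (Fin.snoc a Y₀) = 0) (d : ℂ) (hd : d ≠ 0)
    (hder : HasDerivAt (fun Y : ℂ => Z (Fin.snoc a Y)) d Y₀) :
    ∃ Ψ : (Fin n → ℂ) × ℂ → (Fin (n + 1) → ℂ), ContDiffAt ℂ 1 Ψ (a, 0) ∧
      Ψ (a, 0) = Fin.snoc a Y₀ ∧ (∀ q i, Ψ q (Fin.castSucc i) = q.1 i) ∧
      ∀ᶠ q in 𝓝 (a, (0 : ℂ)), Z (Ψ q) = q.2 := by
  set Φ : ((Fin n → ℂ) × ℂ) × ℂ → ℂ := fun q => Z (Fin.snoc q.1.1 q.2) - q.1.2 with hΦ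
  have hsn : ContDiff ℂ 1 (fun q : ((Fin n → ℂ) × ℂ) × ℂ =>
      (Fin.snoc q.1.1 q.2 : Fin (n + 1) → ℂ)) :=
    (ctc_snoc_contDiff n).comp ((contDiff_fst.comp contDiff_fst).prodMk contDiff_snd)
  have cdf : ContDiffAt ℂ 1 Φ ((a, 0), Y₀) := by
    refine ContDiffAt.sub ?_ (contDiff_snd.comp contDiff_fst).contDiffAt
    exact ContDiffAt.comp (g := Z) ((a, (0 : ℂ)), Y₀) hZ hsn.contDiffAt
  have hdf : HasFDerivAt Φ (fderiv ℂ Φ ((a, 0), Y₀)) ((a, 0), Y₀) :=
    (cdf.differentiableAt one_ne_zero).hasFDerivAt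
  have hinr : HasFDerivAt (fun w : ℂ => (((a, (0 : ℂ)), w) : ((Fin n → ℂ) × ℂ) × ℂ))
      (ContinuousLinearMap.inr ℂ ((Fin n → ℂ) × ℂ) ℂ) Y₀ :=
    hasFDerivAt_prodMk_right (a, (0 : ℂ)) Y₀
  have hcomp := HasFDerivAt.comp Y₀ (g := Φ) hdf hinr
  have hcomp2 : HasFDerivAt (Φ ∘ fun w : ℂ => (((a, (0 : ℂ)), w) : ((Fin n → ℂ) × ℂ) × ℂ))
      (ContinuousLinearMap.toSpanSingleton ℂ d) Y₀ := by
    have h1 := (hder.sub_const (0 : ℂ)).hasFDerivAt
    exact h1
  have heq := hcomp.unique hcomp2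
  have hinv : (fderiv ℂ Φ ((a, 0), Y₀) ∘L .inr ℂ ((Fin n → ℂ) × ℂ) ℂ).IsInvertible := by
    rw [heq]
    refine ⟨ContinuousLinearEquiv.unitsEquivAut ℂ (Units.mk0 _ hd), ?_⟩
    ext
    simp
  have e1 := cdf.eventually_apply_implicitFunction one_ne_zero hinv
  have e3 := cdf.contDiffAt_implicitFunction one_ne_zero hinv
  have e4 := cdf.implicitFunction_apply_self one_ne_zero hinv
  set W := cdf.implicitFunction one_ne_zero hinv with hW
  refine ⟨fun q => Fin.snoc q.1 (W q), ?_, ?_, ?_, ?_⟩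
  · exact (ctc_snoc_contDiff n).contDiffAt.comp (a, (0 : ℂ)) (contDiffAt_fst.prodMk e3)
  · show (Fin.snoc a (W (a, 0)) : Fin (n + 1) → ℂ) = _
    rw [e4]
  · intro q i
    show (Fin.snoc q.1 (W q) : Fin (n + 1) → ℂ) i.castSucc = q.1 i
    rw [Fin.snoc_castSucc]
  · filter_upwards [e1] with q hq
    have h1 : Z (Fin.snoc q.1 (W q)) - q.2 = Z (Fin.snoc a Y₀) - 0 := hq
    rw [hZ0] at h1
    show Z (Fin.snoc q.1 (W q)) = q.2
    linear_combination h1

private theorem ctc_int {F : Type*} [Field F] {c : F} (hc : c ≠ 0) (ν : ℤ) :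
    c ^ ν.toNat = c ^ ν * c ^ (-ν).toNat := by
  rw [← zpow_natCast, ← zpow_natCast, ← zpow_add₀ hc]
  congr 1
  omega

/-- Specialization of `(u z^{-e}, β)`. -/
private theorem ctc_alg {k : Subfield ℂ} {m N : ℕ} {a : Fin m → ℂ} {b : Fin N → ℂ} {K : Type}
    [Field K] [Algebra k K] (T : TopDataN k a b K) {ι : Type} (X : ι → K) (P A₀ B₀ : MvPolynomial ι k)
    (ui : Fin m → ι) (hu : ∀ i, X (ui i) = T.u i)
    (hP : aeval X P ≠ 0) (hz : (T.z : K) ≠ 0) (hz0 : (T.z : K) * aeval X B₀ = aeval X (P * A₀))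
    (ν : Fin N → ℤ) (A B : Fin N → MvPolynomial ι k)
    (hβ : ∀ j, T.β j * aeval X (B j) = aeval X P ^ ν j * aeval X (A j))
    (x : ι → ℂ) (hx : Spec k X x) (hA0 : aeval x A₀ ≠ 0)
    (hB : ∀ j, aeval x (B j) ≠ 0) (hPx : aeval x P ≠ 0) :
    Spec k (Sum.elim a b)
      (Sum.elim (fun i => x (ui i) * ((aeval x P * aeval x A₀ / aeval x B₀)⁻¹) ^ T.e)
        fun j => aeval x P ^ ν j * aeval x (A j) / aeval x (B j)) := by
  set e : Fin m ⊕ Fin N → K :=
    Sum.elim (fun i => (T.u i : K) * ((T.z : K)⁻¹) ^ T.e) T.β with he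
  set Nn : Fin m ⊕ Fin N → MvPolynomial ι k :=
    Sum.elim (fun i => MvPolynomial.X (ui i) * B₀ ^ T.e) fun j => P ^ (ν j).toNat * A j with hN
  set Dd : Fin m ⊕ Fin N → MvPolynomial ι k :=
    Sum.elim (fun _ => (P * A₀) ^ T.e) fun j => P ^ (-ν j).toNat * B j with hD
  have h1 : ∀ i, e i * aeval X (Dd i) = aeval X (Nn i) := by
    rintro (i | j)
    · simp only [he, hN, hD, Sum.elim_inl]
      rw [map_pow, ← hz0, map_mul, map_pow, aeval_X, hu, mul_pow, mul_assoc, ← mul_assoc (_ ^ _),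
        ← mul_pow, inv_mul_cancel₀ hz, one_pow, one_mul]
    · simp only [he, hN, hD, Sum.elim_inr]
      rw [map_mul, map_pow, map_mul, map_pow, ctc_int hP (ν j)]
      linear_combination (aeval X P ^ (-ν j).toNat) * hβ j
  have h2 : ∀ i, aeval x (Dd i) ≠ 0 := by
    rintro (i | j)
    · simp only [hD, Sum.elim_inl]
      rw [map_pow, map_mul]
      exact pow_ne_zero _ (mul_ne_zero hPx hA0)
    · simp only [hD, Sum.elim_inr]
      rw [map_mul, map_pow]
      exact mul_ne_zero (pow_ne_zero _ hPx) (hB j)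
  have h3 := spec_frac X x hx e Nn Dd h1 h2
  have h4 : (fun i => aeval x (Nn i) / aeval x (Dd i)) =
      (Sum.elim (fun i => x (ui i) * ((aeval x P * aeval x A₀ / aeval x B₀)⁻¹) ^ T.e)
        fun j => aeval x P ^ ν j * aeval x (A j) / aeval x (B j)) := by
    funext i
    rcases i with i | j
    · simp only [hN, hD, Sum.elim_inl]
      rw [map_mul, map_pow, aeval_X, map_pow, map_mul, inv_div, div_pow, mul_div_assoc]
    · simp only [hN, hD, Sum.elim_inr]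
      rw [map_mul, map_pow, map_mul, map_pow, ctc_int hPx (ν j)]
      have := hB j
      have := pow_ne_zero (-ν j).toNat hPx
      field_simp
  rw [h4] at h3
  set e' : Fin m ⊕ Fin N → ℂ :=
    (Sum.elim (fun i => x (ui i) * ((aeval x P * aeval x A₀ / aeval x B₀)⁻¹) ^ T.e)
        fun j => aeval x P ^ ν j * aeval x (A j) / aeval x (B j)) with he'
  intro f hf
  have h5 : aeval e f = 0 := (T.iso f).1 hf
  have h6 := h3 (rename Sum.inr f) (by
    rw [aeval_rename]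
    exact h5)
  rw [aeval_rename] at h6
  exact h6
/-! ### The leading coefficients -/

private theorem kt_div {k : Subfield ℂ} {K : Type} [Field K] [Algebra k K] (pl : Place k K)
    (x y : pl.O) (hy : pl.ρ y ≠ 0) :
    ∃ w : pl.O, (w : K) = (x : K) / (y : K) ∧ pl.ρ w = pl.ρ x / pl.ρ y := by
  have hy0 : (y : K) ≠ 0 := by
    intro h
    apply hy
    have h0 : y = 0 := Subtype.ext h
    rw [h0, map_zero]
  refine ⟨x * ⟨(y : K)⁻¹, pl.inv_mem y hy⟩, ?_, ?_⟩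
  · show (x : K) * (y : K)⁻¹ = _
    rw [div_eq_mul_inv]
  · rw [eq_div_iff hy, ← map_mul]
    congr 1
    apply Subtype.ext
    show (x : K) * (y : K)⁻¹ * (y : K) = x
    rw [mul_assoc, inv_mul_cancel₀ hy0, mul_one]

private theorem kt_zpow {k : Subfield ℂ} {K : Type} [Field K] [Algebra k K] (pl : Place k K)
    (w : pl.O) (hw : pl.ρ w ≠ 0) (ν : ℤ) :
    ∃ v : pl.O, (v : K) = (w : K) ^ ν ∧ pl.ρ v = pl.ρ w ^ ν := by
  rcases Int.eq_nat_or_neg ν with ⟨p, rfl | rfl⟩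
  · refine ⟨w ^ p, ?_, ?_⟩
    · rw [zpow_natCast]
      rfl
    · rw [zpow_natCast, map_pow]
  · obtain ⟨v, hv, hv'⟩ := kt_div pl 1 (w ^ p) (by rw [map_pow]; exact pow_ne_zero _ hw)
    refine ⟨v, ?_, ?_⟩
    · rw [hv, zpow_neg, zpow_natCast]
      show (1 : K) / (w : K) ^ p = _
      rw [one_div]
    · rw [hv', zpow_neg, zpow_natCast, map_one, map_pow, one_div]

/-- The value of `(B₀/A₀)^ν A/B` at a point of `O`. -/
private theorem kt_lead {k : Subfield ℂ} {K : Type} [Field K] [Algebra k K] (pl : Place k K)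
    {ι : Type} (x : ι → pl.O) (A B A₀ B₀ : MvPolynomial ι k)
    (hB : aeval (fun i => pl.ρ (x i)) B ≠ 0) (hA₀ : aeval (fun i => pl.ρ (x i)) A₀ ≠ 0)
    (hB₀ : aeval (fun i => pl.ρ (x i)) B₀ ≠ 0) (ν : ℤ) :
    ∃ w : pl.O, (w : K) = (aeval (fun i => (x i : K)) B₀ / aeval (fun i => (x i : K)) A₀) ^ ν *
        aeval (fun i => (x i : K)) A / aeval (fun i => (x i : K)) B ∧
      pl.ρ w = (aeval (fun i => pl.ρ (x i)) B₀ / aeval (fun i => pl.ρ (x i)) A₀) ^ ν *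
        aeval (fun i => pl.ρ (x i)) A / aeval (fun i => pl.ρ (x i)) B := by
  obtain ⟨h1, e1⟩ := cden_aeval pl x A
  obtain ⟨h2, e2⟩ := cden_aeval pl x B
  obtain ⟨h3, e3⟩ := cden_aeval pl x A₀
  obtain ⟨h4, e4⟩ := cden_aeval pl x B₀
  obtain ⟨w1, hw1, hw1'⟩ := kt_div pl ⟨_, h4⟩ ⟨_, h3⟩ (by rw [e3]; exact hA₀)
  rw [e3, e4] at hw1'
  obtain ⟨w2, hw2, hw2'⟩ := kt_zpow pl w1 (by rw [hw1']; exact div_ne_zero hB₀ hA₀) ν
  obtain ⟨w3, hw3, hw3'⟩ := kt_div pl (w2 * ⟨_, h1⟩) ⟨_, h2⟩ (by rw [e2]; exact hB)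
  refine ⟨w3, ?_, ?_⟩
  · rw [hw3]
    show (w2 : K) * aeval (fun i => (x i : K)) A / aeval (fun i => (x i : K)) B = _
    rw [hw2, hw1]
  · rw [hw3', map_mul, hw2', hw1', e1, e2]

private theorem kt_coef {k : Subfield ℂ} {K : Type} [Field K] [Algebra k K] (pl : Place k K)
    {ι : Type} (x : ι → pl.O) (A B A₀ B₀ P : MvPolynomial ι k)
    (hB : aeval (fun i => pl.ρ (x i)) B ≠ 0) (hA₀ : aeval (fun i => pl.ρ (x i)) A₀ ≠ 0)
    (hB₀ : aeval (fun i => pl.ρ (x i)) B₀ ≠ 0) (ν : ℤ) (z β : K) (hz : z ≠ 0)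
    (hz0 : z * aeval (fun i => (x i : K)) B₀ = aeval (fun i => (x i : K)) (P * A₀))
    (hβ : β * aeval (fun i => (x i : K)) B =
      aeval (fun i => (x i : K)) P ^ ν * aeval (fun i => (x i : K)) A) :
    ∃ w : pl.O, (w : K) = β * z ^ (-ν) ∧
      pl.ρ w = (aeval (fun i => pl.ρ (x i)) B₀ / aeval (fun i => pl.ρ (x i)) A₀) ^ ν *
        aeval (fun i => pl.ρ (x i)) A / aeval (fun i => pl.ρ (x i)) B := by
  obtain ⟨w, hw, hw'⟩ := kt_lead pl x A B A₀ B₀ hB hA₀ hB₀ ν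
  refine ⟨w, ?_, hw'⟩
  have hne : ∀ f : MvPolynomial ι k, aeval (fun i => pl.ρ (x i)) f ≠ 0 →
      aeval (fun i => (x i : K)) f ≠ 0 := fun f hf h0 => hf (crep_spec x f h0)
  have hBK := hne B hB
  have hAK := hne A₀ hA₀
  have hβ' : β = aeval (fun i => (x i : K)) P ^ ν * aeval (fun i => (x i : K)) A /
      aeval (fun i => (x i : K)) B := by
    rw [eq_div_iff hBK]
    exact hβ
  have hP : aeval (fun i => (x i : K)) P =
      z * (aeval (fun i => (x i : K)) B₀ / aeval (fun i => (x i : K)) A₀) := by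
    rw [← mul_div_assoc, hz0, map_mul, mul_div_assoc, div_self hAK, mul_one]
  rw [hw, hβ', hP, mul_zpow, zpow_neg]
  have hzν : z ^ ν ≠ 0 := zpow_ne_zero _ hz
  field_simp

/-- Specializations of `(a, b)` near infinity, with the leading coefficients. -/
private theorem kt_chart (k : Subfield ℂ) {n N : ℕ} (a : Fin n → ℂ) (b : Fin N → ℂ) {K : Type}
    [Field K] [Algebra k K] (T : TopDataN k a b K) (ha : AlgebraicIndependent k a)
    (hb : ∀ j, b j ≠ 0) :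
    ∃ (ν : Fin N → ℤ) (V : Fin N → (Fin n → ℂ) × ℂ → ℂ),
      (∀ j, ContDiffAt ℂ 1 (V j) (a, 0)) ∧ (∀ j, V j (a, 0) ≠ 0) ∧
      (∀ j, ∃ w : T.pl.O, (w : K) = T.β j * (T.z : K) ^ (-ν j) ∧ T.pl.ρ w = V j (a, 0)) ∧
      ∀ᶠ p : (Fin n → ℂ) × ℂ in 𝓝 (a, 0), p.2 ≠ 0 →
        Spec k (Sum.elim a b)
          (Sum.elim (fun j => p.1 j * (p.2⁻¹) ^ T.e) fun j => p.2 ^ ν j * V j p) := by
  obtain ⟨ch, hch⟩ := exists_chart T.pl T.fg T.tr T.u (by
    have : (fun i => T.pl.ρ (T.u i)) = a := funext T.ρu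
    rw [this]
    exact ha)
  obtain ⟨ε, hε, hzε⟩ := T.hz
  have hz : (T.z : K) ≠ 0 := by
    rw [hzε]
    refine mul_ne_zero T.pl.t_ne fun h0 => hε ?_
    have h1 : ε = 0 := Subtype.ext h0
    rw [h1, map_zero]
  obtain ⟨A₀, B₀, hA₀, hB₀, hz0⟩ := ch.repU T.z ε hε hzε
  have hβ0 : ∀ j, T.β j ≠ 0 := by
    intro j h0
    apply hb j
    have h1 := (T.iso (X (Sum.inr j))).2 (by rw [aeval_X]; exact h0)
    rw [aeval_X] at h1
    exact h1
  choose ν A B hA hB hAB using fun j => ch.rep (T.β j) (hβ0 j)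
  -- the point
  set xK : Option (Fin (n + 1)) → K := fun i => (ch.x i : K) with hxK
  set x0 : Option (Fin (n + 1)) → ℂ := fun i => T.pl.ρ (ch.x i) with hx0
  set Y₀ : ℂ := x0 (some (Fin.last n)) with hY₀
  set P' : MvPolynomial (Option (Fin (n + 1))) k := rename some ch.P with hP'
  have hsn : (fun i => x0 (some i)) = (Fin.snoc a Y₀ : Fin (n + 1) → ℂ) := by
    funext i
    refine Fin.lastCases ?_ (fun j => ?_) i
    · rw [Fin.snoc_last]
    · rw [Fin.snoc_castSucc]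
      show T.pl.ρ (ch.x (some j.castSucc)) = a j
      rw [hch, T.ρu]
  obtain ⟨W, hW0, hWc, hWs, -⟩ := local_spec ch x0 (fun f hf => hf) ch.hGW
  rw [hsn] at hW0 hWc hWs
  have hx0c : cons (W (Fin.snoc a Y₀)) (Fin.snoc a Y₀) = x0 := by
    rw [hW0, ← hsn]
    funext i
    cases i <;> rfl
  -- evaluation at `(x, W x)`
  set F : MvPolynomial (Option (Fin (n + 1))) k → (Fin (n + 1) → ℂ) → ℂ :=
    fun f x => aeval (cons (W x) x) f with hF
  have hFc : ∀ f, ContDiffAt ℂ 1 (F f) (Fin.snoc a Y₀) := fun f =>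
    contDiffAt_aeval_cons f W _ hWc
  have hF0 : ∀ f, F f (Fin.snoc a Y₀) = aeval x0 f := by
    intro f
    show aeval (cons (W (Fin.snoc a Y₀)) (Fin.snoc a Y₀)) f = _
    rw [hx0c]
  have hFP : ∀ x, F P' x = aeval x ch.P := by
    intro x
    show aeval (cons (W x) x) (rename some ch.P) = _
    rw [aeval_rename]
    rfl
  have hPx0 : aeval (Fin.snoc a Y₀ : Fin (n + 1) → ℂ) ch.P = 0 := by
    rw [← hFP, hF0]
    exact ch.crep_P1
  set Q : (Fin (n + 1) → ℂ) → ℂ := fun x => F A₀ x / F B₀ x with hQ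
  have hQc : ContDiffAt ℂ 1 Q (Fin.snoc a Y₀) :=
    (hFc A₀).fun_div (hFc B₀) (by rw [hF0]; exact hB₀)
  have hQ0 : Q (Fin.snoc a Y₀) ≠ 0 := by
    show F A₀ _ / F B₀ _ ≠ 0
    rw [hF0, hF0]
    exact div_ne_zero hA₀ hB₀
  obtain ⟨Ψ, hΨc, hΨ0, hΨ1, hΨ2⟩ := ctc_inv a Y₀ (fun x => F P' x * Q x)
    ((hFc P').mul hQc) (by
      show F P' _ * Q _ = 0
      rw [hFP, hPx0, zero_mul])
    (aeval (Fin.snoc a Y₀ : Fin (n + 1) → ℂ) (pderiv (Fin.last n) ch.P) * Q (Fin.snoc a Y₀))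
    (mul_ne_zero (by rw [← hsn]; exact ch.hPY) hQ0) (by
      have h1 := ctc_deriv ch.P a Y₀
      have h2 : DifferentiableAt ℂ (fun Y : ℂ => Q (Fin.snoc a Y)) Y₀ := by
        have h3 : ContDiffAt ℂ 1 (fun Y : ℂ => (Fin.snoc a Y : Fin (n + 1) → ℂ)) Y₀ :=
          ((ctc_snoc_contDiff n).comp (contDiff_prodMk_right a)).contDiffAt
        exact (ContDiffAt.comp (g := Q) Y₀ hQc h3).differentiableAt one_ne_zero
      have h4 := h1.fun_mul h2.hasDerivAt
      rw [hPx0, zero_mul, add_zero] at h4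
      simp only [hFP]
      exact h4)
  -- the functions `V j`
  refine ⟨ν, fun j q => (F B₀ (Ψ q) / F A₀ (Ψ q)) ^ ν j * F (A j) (Ψ q) / F (B j) (Ψ q),
    ?_, ?_, ?_, ?_⟩
  · intro j
    have hc : ∀ f, ContDiffAt ℂ 1 (fun q => F f (Ψ q)) (a, (0 : ℂ)) := by
      intro f
      refine ContDiffAt.comp (g := F f) (a, (0 : ℂ)) ?_ hΨc
      rw [hΨ0]
      exact hFc f
    have hc0 : ∀ f, F f (Ψ (a, 0)) = aeval x0 f := by
      intro f
      rw [hΨ0, hF0]
    refine ContDiffAt.fun_div (ContDiffAt.mul (ctc_zpow ((hc B₀).fun_div (hc A₀) ?_) ?_ _)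
      (hc (A j))) (hc (B j)) ?_
    · rw [hc0]; exact hA₀
    · rw [hc0, hc0]; exact div_ne_zero hB₀ hA₀
    · rw [hc0]; exact hB j
  · intro j
    show (F B₀ (Ψ (a, 0)) / F A₀ (Ψ (a, 0))) ^ ν j * F (A j) (Ψ (a, 0)) / F (B j) (Ψ (a, 0)) ≠ 0
    rw [hΨ0, hF0, hF0, hF0, hF0]
    exact div_ne_zero (mul_ne_zero (zpow_ne_zero _ (div_ne_zero hB₀ hA₀)) (hA j)) (hB j)
  · intro j
    obtain ⟨w, hw, hw'⟩ := kt_coef T.pl ch.x (A j) (B j) A₀ B₀ P' (hB j) hA₀ hB₀ (ν j)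
      (T.z : K) (T.β j) hz hz0 (by rw [hAB j, hP', ch.crep_P])
    refine ⟨w, hw, ?_⟩
    rw [hw']
    show _ = (F B₀ (Ψ (a, 0)) / F A₀ (Ψ (a, 0))) ^ ν j * F (A j) (Ψ (a, 0)) / F (B j) (Ψ (a, 0))
    rw [hΨ0, hF0, hF0, hF0, hF0]
  · have hΨt : Filter.Tendsto Ψ (𝓝 (a, (0 : ℂ))) (𝓝 (Fin.snoc a Y₀)) := by
      have := hΨc.continuousAt.tendsto
      rwa [hΨ0] at this
    have hne : ∀ f, aeval x0 f ≠ 0 → ∀ᶠ q in 𝓝 (a, (0 : ℂ)), F f (Ψ q) ≠ 0 := by
      intro f hf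
      have h1 : ∀ᶠ x in 𝓝 (Fin.snoc a Y₀ : Fin (n + 1) → ℂ), F f x ≠ 0 :=
        (hFc f).continuousAt.eventually_ne (by rw [hF0]; exact hf)
      exact hΨt.eventually h1
    filter_upwards [hΨ2, hΨt.eventually hWs, hne A₀ hA₀, hne B₀ hB₀,
      Filter.eventually_all.2 fun j => hne (B j) (hB j)] with q q1 q2 q3 q4 q6 hq
    have hPne : F P' (Ψ q) ≠ 0 := by
      intro h0
      apply hq
      rw [← q1, h0, zero_mul]
    have key := ctc_alg T xK P' A₀ B₀ (fun i => some i.castSucc)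
      (fun i => congrArg (fun z : T.pl.O => (z : K)) (hch i))
      ch.crep_P0 hz hz0 ν A B (fun j => by rw [hAB j, hP', ch.crep_P])
      (cons (W (Ψ q)) (Ψ q)) q2 q3 q6 hPne
    have e1 : (fun i : Fin n => cons (W (Ψ q)) (Ψ q) (some i.castSucc) *
        ((aeval (cons (W (Ψ q)) (Ψ q)) P' * aeval (cons (W (Ψ q)) (Ψ q)) A₀ /
          aeval (cons (W (Ψ q)) (Ψ q)) B₀)⁻¹) ^ T.e) = fun i => q.1 i * (q.2⁻¹) ^ T.e := by
      funext i
      have h1 : cons (W (Ψ q)) (Ψ q) (some i.castSucc) = q.1 i := hΨ1 q i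
      have h2 : aeval (cons (W (Ψ q)) (Ψ q)) P' * aeval (cons (W (Ψ q)) (Ψ q)) A₀ /
          aeval (cons (W (Ψ q)) (Ψ q)) B₀ = q.2 := by
        rw [← q1]
        show F P' (Ψ q) * F A₀ (Ψ q) / F B₀ (Ψ q) = F P' (Ψ q) * (F A₀ (Ψ q) / F B₀ (Ψ q))
        ring
      rw [h1, h2]
    have e2 : (fun j => aeval (cons (W (Ψ q)) (Ψ q)) P' ^ ν j *
        aeval (cons (W (Ψ q)) (Ψ q)) (A j) / aeval (cons (W (Ψ q)) (Ψ q)) (B j)) =
        fun j => q.2 ^ ν j * ((F B₀ (Ψ q) / F A₀ (Ψ q)) ^ ν j * F (A j) (Ψ q) /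
          F (B j) (Ψ q)) := by
      funext j
      show F P' (Ψ q) ^ ν j * F (A j) (Ψ q) / F (B j) (Ψ q) = _
      have h2 : F P' (Ψ q) = q.2 * (F B₀ (Ψ q) / F A₀ (Ψ q)) := by
        rw [← q1]
        show F P' (Ψ q) = F P' (Ψ q) * (F A₀ (Ψ q) / F B₀ (Ψ q)) * (F B₀ (Ψ q) / F A₀ (Ψ q))
        field_simp
      rw [h2, mul_zpow]
      ring
    rw [e1, e2] at key
    exact key

theorem top_chartN (k : Subfield ℂ) {m N : ℕ} (α : Fin m → ℂ) (hα : AlgebraicIndependent k α)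
    (c : Fin N → ℂ) (hc0 : ∀ j, c j ≠ 0)
    (halg : ∀ j, IsAlgebraic (Algebra.adjoin k (Set.range α)) (c j)) (e : ℕ) (he : 1 ≤ e)
    (σ : Kb k (Sum.elim α c) →+* LaurentSeries (Om k α))
    (hσk : ∀ (x : ℂ) (hx : x ∈ k), σ ⟨x, mem_Kb_of_mem _ hx⟩ =
        HahnSeries.C (⟨x, le_Om k α hx⟩ : Om k α))
    (hσα : ∀ i : Fin m, σ ⟨α i, mem_Kb k (Sum.elim α c) (Sum.inl i)⟩ =
        HahnSeries.single (-(e : ℤ)) (⟨α i, mem_Om k α i⟩ : Om k α)) :
    ∃ (ν : Fin N → ℤ) (V : Fin N → (Fin m → ℂ) × ℂ → ℂ),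
      (∀ j, ContDiffAt ℂ 1 (V j) (α, 0)) ∧ (∀ j, V j (α, 0) ≠ 0) ∧
      (∀ j, ∀ i : ℤ, i < ν j → (σ ⟨c j, mem_Kb k (Sum.elim α c) (Sum.inr j)⟩).coeff i = 0) ∧
      (∀ j, (((σ ⟨c j, mem_Kb k (Sum.elim α c) (Sum.inr j)⟩).coeff (ν j) : Om k α) : ℂ) =
        V j (α, 0)) ∧
      ∀ᶠ p : (Fin m → ℂ) × ℂ in 𝓝 (α, 0), p.2 ≠ 0 →
        Spec k (Sum.elim α c)
          (Sum.elim (fun j => p.1 j * (p.2⁻¹) ^ e) fun j => p.2 ^ ν j * V j p) := by
  obtain ⟨K, _, _, T, hTe, hT⟩ := ctp_data k (Om k α) (Kb k (Sum.elim α c)) (le_Om k α) α c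
    (fun x hx => mem_Kb_of_mem _ hx) (fun i => mem_Kb k (Sum.elim α c) (Sum.inl i))
    (fun i => mem_Kb k (Sum.elim α c) (Sum.inr i)) (mem_Om k α) rfl σ e he
    (fun x => hσk x x.2) hσα halg
  obtain ⟨ν, V, h1, h2, h3, h4⟩ := kt_chart k α c T hα hc0
  subst hTe
  refine ⟨ν, V, h1, h2, fun j => ?_, fun j => ?_, h4⟩
  · obtain ⟨w, hw, -⟩ := h3 j
    exact (hT j (ν j) w hw).1
  · obtain ⟨w, hw, hw'⟩ := h3 j
    rw [← hw']
    exact (hT j (ν j) w hw).2

end Pool.Agent.EXK
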