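import Pool.Agent.EXK.KRoot
import Pool.Agent.EXK.KTop
import Pool.Agent.EXK.KPert
import Pool.Agent.EXI.CRep
import Pool.Agent.EXI.CAbh

/-!
# EXK / KData: the two parameter chart near infinity of a place

PROOF.  Write `α j = ρ (x (some j.castSucc))`, `r i = ρ (x i)`.
(1) `c1, c2 ∈ {0, 1}` with `r (some last) + c1 ≠ 0`, `r none + c2 ≠ 0`. Let `Q' : Fin (N + 4) → _` be
`X (some last) + C c1, X none + C c2, rename some (pderiv last P), pderiv none G` and the `Q j`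
(`Fin.append`, or `Fin.cons` four times), all with nonzero residues (`ch.hPY`, `ch.hGW`, `hQ`).
`c : Fin (N + 5) → ℂ := Fin.cons (ρ a0) (fun j => aeval r (Q' j))`; `c j ≠ 0`
(for `j = 0`: if `ρ a0 = 0` then, by `hF`, `F ∣ X 0`; excluded as follows: `emb_root` for `c` gives `σ` with
`σ (c 0)` having the coefficient `ρ₀ ≠ 0`; `emb_root` does not need `c ≠ 0`; so `c 0 ≠ 0` because
`σ` is a ring homomorphism); all `c j` are algebraic over `k(α)`: `Place.residue_algebraic` for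
`u = x (some castSucc)` (`aeval r f = ρ (..)`, `cden_aeval`).
(2) `emb_root` (`j₀ = 0`) gives `e, σ`; `top_chartN` gives `ν', V`.
(3) `hbase` of `two_chart`: for `p` near `(α, 0)`, `p.2 ≠ 0`, the point `base e .. p` satisfies
`aeval (base ..) f = 0` for all `f` with `aeval r f = 0` and `aeval (base ..) (Q' j) = p.2^ν V_j p`: put in
`Spec k (Sum.elim α c)` the polynomial `f` with `X (some castSucc j) ↦ X (inl j)`,
`X (some last) ↦ X (inr (index of the first)) - C c1`, `X none ↦ X (inr ..) - C c2`, and for `Q' j` the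
difference of this and `X (inr j)`. `P, G` vanish at `r`: `Chart.crep_P1`, and `crep_spec ch.x ch.G`,
`ch.ker`.
(4) `two_chart` for `Q'`, `V ∘ succ`, `ν' ∘ succ`. `W j (α, 0, 0) = V j (α, 0) ≠ 0`.
(5) `ρ a0 * aeval r (Q i) = aeval r (Q j)`: apply `σ`: `σ(c 0) σ(c_i) = σ(c_j)` where `σ (c 0)` has order `-e`
and leading coefficient `ρ₀` (`≠ 0`), `σ(c_i)` order `ν i` and leading coefficient `V i (α, 0)`, so
`ν j = ν i - e` and `V j (α, 0) = ρ₀ V i (α, 0)` (`HahnSeries.order_mul`, `HahnSeries.coeff_mul_order_add_order`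
or `leadingCoeff_mul`).
-/

set_option autoImplicit false

namespace Pool.Agent.EXK

open MvPolynomial Pool.Agent.EXL Pool.Agent.EXI Topology

private lemma kd_ne {Ω : Type} [Field Ω] {f : LaurentSeries Ω} {m : ℤ} {c : Ω}
    (h2 : f.coeff m = c) (h3 : c ≠ 0) : f ≠ 0 := by
  rintro rfl
  apply h3
  rw [← h2, HahnSeries.coeff_zero]

private lemma kd_order {Ω : Type} [Field Ω] {f : LaurentSeries Ω} {m : ℤ} {c : Ω}
    (h1 : ∀ i < m, f.coeff i = 0) (h2 : f.coeff m = c) (h3 : c ≠ 0) : f.order = m := by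
  apply le_antisymm
  · apply HahnSeries.order_le_of_coeff_ne_zero
    rw [h2]
    exact h3
  · by_contra hlt
    push Not at hlt
    exact HahnSeries.coeff_order_eq_zero.not.2 (kd_ne h2 h3) (h1 _ hlt)

/-- Orders add and leading coefficients multiply. -/
private lemma kd_mul {Ω : Type} [Field Ω] {f g r : LaurentSeries Ω} {l m n : ℤ} {c d u : Ω}
    (hf1 : ∀ i < m, f.coeff i = 0) (hf2 : f.coeff m = c) (hf3 : c ≠ 0)
    (hg1 : ∀ i < n, g.coeff i = 0) (hg2 : g.coeff n = d) (hg3 : d ≠ 0)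
    (hr1 : ∀ i < l, r.coeff i = 0) (hr2 : r.coeff l = u) (hr3 : u ≠ 0) (h : f * g = r) :
    l = m + n ∧ u = c * d := by
  have h1 : l = m + n := by
    rw [← kd_order hr1 hr2 hr3, ← h, HahnSeries.order_mul (kd_ne hf2 hf3) (kd_ne hg2 hg3),
      kd_order hf1 hf2 hf3, kd_order hg1 hg2 hg3]
  refine ⟨h1, ?_⟩
  have h3 := HahnSeries.coeff_mul_order_add_order f g
  rw [kd_order hf1 hf2 hf3, kd_order hg1 hg2 hg3, HahnSeries.leadingCoeff_eq,
    HahnSeries.leadingCoeff_eq, kd_order hf1 hf2 hf3, kd_order hg1 hg2 hg3, hf2, hg2, h, ← h1,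
    hr2] at h3
  exact h3

/-- The substitution of the coordinates of the chart. -/
private noncomputable def kds {k : Subfield ℂ} {m N : ℕ} (j1 j2 : Fin N) (c1 c2 : k) :
    Option (Fin (m + 1)) → MvPolynomial (Fin m ⊕ Fin N) k :=
  cons (X (Sum.inr j2) - C c2)
    (Fin.snoc (fun j => X (Sum.inl j)) (X (Sum.inr j1) - C c1) :
      Fin (m + 1) → MvPolynomial (Fin m ⊕ Fin N) k)

private lemma kds_aeval {k : Subfield ℂ} {m N : ℕ} (j1 j2 : Fin N) (c1 c2 : k)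
    (y : Fin m → ℂ) (w : Fin N → ℂ) (R : MvPolynomial (Option (Fin (m + 1))) k) :
    aeval (Sum.elim y w) (bind₁ (kds j1 j2 c1 c2) R) =
      aeval (cons (w j2 - c2) (Fin.snoc y (w j1 - c1) : Fin (m + 1) → ℂ)) R := by
  rw [aeval_bind₁]
  congr 2
  funext o
  cases o with
  | none =>
    show aeval (Sum.elim y w) (X (Sum.inr j2) - C c2) = w j2 - c2
    rw [map_sub, aeval_X, aeval_C]
    rfl
  | some i =>
    refine Fin.lastCases ?_ (fun i => ?_) i
    · show aeval (Sum.elim y w) ((Fin.snoc (fun j => X (Sum.inl j)) (X (Sum.inr j1) - C c1) :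
        Fin (m + 1) → MvPolynomial (Fin m ⊕ Fin N) k) (Fin.last m)) =
        (Fin.snoc y (w j1 - c1) : Fin (m + 1) → ℂ) (Fin.last m)
      rw [Fin.snoc_last, Fin.snoc_last, map_sub, aeval_X, aeval_C]
      rfl
    · show aeval (Sum.elim y w) ((Fin.snoc (fun j => X (Sum.inl j)) (X (Sum.inr j1) - C c1) :
        Fin (m + 1) → MvPolynomial (Fin m ⊕ Fin N) k) i.castSucc) =
        (Fin.snoc y (w j1 - c1) : Fin (m + 1) → ℂ) i.castSucc
      rw [Fin.snoc_castSucc, Fin.snoc_castSucc, aeval_X]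
      rfl

/-- A constant which makes a sum nonzero. -/
private lemma kd_const (k : Subfield ℂ) (r : ℂ) : ∃ c : k, r + (c : ℂ) ≠ 0 := by
  by_cases h : r = 0
  · refine ⟨1, ?_⟩
    rw [h, zero_add]
    exact one_ne_zero
  · refine ⟨0, ?_⟩
    rw [show ((0 : k) : ℂ) = 0 from rfl, add_zero]
    exact h

private theorem kd_fin {k : Subfield ℂ} {K : Type} [Field K] [Algebra k K] {m N : ℕ}
    {pl : Place k K}
    (htr : ∀ y : Fin (m + 2) → K, ¬ AlgebraicIndependent k y) (ch : Chart pl m)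
    (hind : AlgebraicIndependent k (fun j : Fin m => pl.ρ (ch.x (some j.castSucc)))) (a0 : pl.O)
    (F : MvPolynomial (Fin (m + 1)) k)
    (hF : ∀ f : MvPolynomial (Fin (m + 1)) k,
      aeval (Fin.cons (pl.ρ a0) (fun j : Fin m => pl.ρ (ch.x (some j.castSucc))) :
        Fin (m + 1) → ℂ) f = 0 ↔ F ∣ f)
    (d : ℕ) (Fc : ℕ → MvPolynomial (Fin (m + 1)) k) (hFc : ∀ i, (Fc i).IsHomogeneous i)
    (hFs : F = ∑ i ∈ Finset.range (d + 1), Fc i) (hFd : Fc d ≠ 0) (ρ₀ : ℂ) (hρ₀ : ρ₀ ≠ 0)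
    (hroot : aeval (Fin.cons ρ₀ (fun j : Fin m => pl.ρ (ch.x (some j.castSucc))) :
        Fin (m + 1) → ℂ) (Fc d) = 0)
    (Q : Fin N → MvPolynomial (Option (Fin (m + 1))) k)
    (hQ : ∀ j, aeval (fun i => pl.ρ (ch.x i)) (Q j) ≠ 0) (i1 i2 iP iG : Fin N) (c1 c2 : k)
    (h1 : Q i1 = X (some (Fin.last m)) + C c1) (h2 : Q i2 = X none + C c2)
    (hP : Q iP = rename some (pderiv (Fin.last m) ch.P)) (hG : Q iG = pderiv none ch.G) :
    ∃ (e : ℕ) (ν : Fin N → ℤ) (M : ℕ) (X' : (Fin m → ℂ) × ℂ × ℂ → Option (Fin (m + 1)) → ℂ)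
      (W : Fin N → (Fin m → ℂ) × ℂ × ℂ → ℂ), 1 ≤ e ∧
      (∀ j, ContDiffAt ℂ 1 (W j) ((fun j : Fin m => pl.ρ (ch.x (some j.castSucc))), 0, 0)) ∧
      (∀ j, W j ((fun j : Fin m => pl.ρ (ch.x (some j.castSucc))), 0, 0) ≠ 0) ∧
      (∀ i j, pl.ρ a0 * aeval (fun i => pl.ρ (ch.x i)) (Q i) =
        aeval (fun i => pl.ρ (ch.x i)) (Q j) → ν j = ν i - e ∧
        W j ((fun j : Fin m => pl.ρ (ch.x (some j.castSucc))), 0, 0) =
          ρ₀ * W i ((fun j : Fin m => pl.ρ (ch.x (some j.castSucc))), 0, 0)) ∧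
      ∀ᶠ p : (Fin m → ℂ) × ℂ × ℂ in 𝓝 ((fun j : Fin m => pl.ρ (ch.x (some j.castSucc))), 0, 0),
        p.2.1 ≠ 0 →
        (∀ j : Fin m, X' p (some j.castSucc) = p.1 j * (p.2.1⁻¹) ^ e) ∧
        aeval (X' p) (rename some ch.P) = p.2.1 ^ M * p.2.2 ∧ aeval (X' p) ch.G = 0 ∧
        ∀ j, aeval (X' p) (Q j) = p.2.1 ^ ν j * W j p := by
  set α : Fin m → ℂ := fun j : Fin m => pl.ρ (ch.x (some j.castSucc)) with hαdef
  set ξ : Option (Fin (m + 1)) → ℂ := fun i => pl.ρ (ch.x i) with hξ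
  set c : Fin (N + 1) → ℂ := Fin.cons (pl.ρ a0) (fun j => aeval ξ (Q j)) with hc
  have hc00 : c 0 = pl.ρ a0 := rfl
  have hcs : ∀ j, c j.succ = aeval ξ (Q j) := fun j => rfl
  have halg : ∀ j, IsAlgebraic (Algebra.adjoin k (Set.range α)) (c j) := by
    intro j
    refine Fin.cases ?_ (fun j => ?_) j
    · exact pl.residue_algebraic htr (fun j => ch.x (some j.castSucc)) hind a0
    · obtain ⟨hmem, he⟩ := cden_aeval pl ch.x (Q j)
      rw [hcs, ← he]
      exact pl.residue_algebraic htr (fun j => ch.x (some j.castSucc)) hind _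
  obtain ⟨e, σ, he, hσk, hσα, hσlt, hσ0⟩ := emb_root k α hind c halg 0 F hF d Fc hFc hFs hFd ρ₀ hroot
  -- the residues are not zero
  have hc0 : c 0 ≠ 0 := by
    intro h0
    have h3 : (⟨c 0, mem_Kb k (Sum.elim α c) (Sum.inr 0)⟩ : Kb k (Sum.elim α c)) = 0 :=
      Subtype.ext h0
    apply hρ₀
    rw [← hσ0]
    have h4 : σ ⟨c 0, mem_Kb k (Sum.elim α c) (Sum.inr 0)⟩ = 0 := by rw [h3, map_zero]
    rw [h4]
    rfl
  have hcne : ∀ j, c j ≠ 0 := by
    intro j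
    refine Fin.cases hc0 (fun j => ?_) j
    exact hQ j
  obtain ⟨ν', V', hV', hV0', hlt, hcf, hev⟩ := top_chartN k α hind c hcne halg e he σ hσk hσα
  -- the orders and the leading coefficients
  have hlead : ∀ i j : Fin N, pl.ρ a0 * aeval ξ (Q i) = aeval ξ (Q j) →
      ν' j.succ = -(e : ℤ) + ν' i.succ ∧ V' j.succ (α, 0) = ρ₀ * V' i.succ (α, 0) := by
    intro iD iN hND'
    have hm : (⟨c 0, mem_Kb k (Sum.elim α c) (Sum.inr 0)⟩ : Kb k (Sum.elim α c)) *
        ⟨c iD.succ, mem_Kb k (Sum.elim α c) (Sum.inr iD.succ)⟩ =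
        ⟨c iN.succ, mem_Kb k (Sum.elim α c) (Sum.inr iN.succ)⟩ := Subtype.ext hND'
    have hm' := congrArg σ hm
    rw [map_mul] at hm'
    have hne : ∀ j, (σ ⟨c j, mem_Kb k (Sum.elim α c) (Sum.inr j)⟩).coeff (ν' j) ≠ 0 := by
      intro j h0
      apply hV0' j
      rw [← hcf j, h0]
      rfl
    have hne0 : (σ ⟨c 0, mem_Kb k (Sum.elim α c) (Sum.inr 0)⟩).coeff (-(e : ℤ)) ≠ 0 := by
      intro h0
      apply hρ₀
      rw [← hσ0, h0]
      rfl
    obtain ⟨h3, h4⟩ := kd_mul (fun i hi => hσlt i hi) rfl hne0 (fun i hi => hlt iD.succ i hi) rfl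
      (hne _) (fun i hi => hlt iN.succ i hi) rfl (hne _) hm'
    refine ⟨h3, ?_⟩
    rw [← hcf, ← hcf, h4, ← hσ0]
    rfl
  -- the base
  have hξb : ξ = cons (c i2.succ - c2) (Fin.snoc α (c i1.succ - c1) : Fin (m + 1) → ℂ) := by
    funext o
    cases o with
    | none =>
      show ξ none = c i2.succ - c2
      rw [hcs, h2, map_add, aeval_X, aeval_C]
      show ξ none = ξ none + (c2 : ℂ) - (c2 : ℂ)
      ring
    | some i =>
      refine Fin.lastCases ?_ (fun i => ?_) i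
      · show ξ (some (Fin.last m)) = (Fin.snoc α (c i1.succ - c1) : Fin (m + 1) → ℂ) (Fin.last m)
        rw [Fin.snoc_last, hcs, h1, map_add, aeval_X, aeval_C]
        show ξ (some (Fin.last m)) = ξ (some (Fin.last m)) + (c1 : ℂ) - (c1 : ℂ)
        ring
      · show ξ (some i.castSucc) = (Fin.snoc α (c i1.succ - c1) : Fin (m + 1) → ℂ) i.castSucc
        rw [Fin.snoc_castSucc]
  have hbase : ∀ᶠ p : (Fin m → ℂ) × ℂ in 𝓝 (α, 0), p.2 ≠ 0 →
      aeval (base e (ν' i1.succ) (ν' i2.succ) (c1 : ℂ) (c2 : ℂ) (V' i1.succ) (V' i2.succ) p)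
        (rename some ch.P) = 0 ∧
      aeval (base e (ν' i1.succ) (ν' i2.succ) (c1 : ℂ) (c2 : ℂ) (V' i1.succ) (V' i2.succ) p)
        ch.G = 0 ∧
      ∀ j, aeval (base e (ν' i1.succ) (ν' i2.succ) (c1 : ℂ) (c2 : ℂ) (V' i1.succ) (V' i2.succ) p)
        (Q j) = p.2 ^ ν' j.succ * V' j.succ p := by
    filter_upwards [hev] with p hp hp0
    have hsp := hp hp0
    have hb : base e (ν' i1.succ) (ν' i2.succ) (c1 : ℂ) (c2 : ℂ) (V' i1.succ) (V' i2.succ) p =
      cons (p.2 ^ ν' i2.succ * V' i2.succ p - c2)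
        (Fin.snoc (fun j => p.1 j * (p.2⁻¹) ^ e) (p.2 ^ ν' i1.succ * V' i1.succ p - c1) :
          Fin (m + 1) → ℂ) := rfl
    have hkey : ∀ R : MvPolynomial (Option (Fin (m + 1))) k,
        aeval (Sum.elim α c) (bind₁ (kds i1.succ i2.succ c1 c2) R) = aeval ξ R := by
      intro R
      rw [kds_aeval, ← hξb]
    have hkey' : ∀ R : MvPolynomial (Option (Fin (m + 1))) k,
        aeval (Sum.elim (fun j => p.1 j * (p.2⁻¹) ^ e) fun j => p.2 ^ ν' j * V' j p)
          (bind₁ (kds i1.succ i2.succ c1 c2) R) =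
        aeval (base e (ν' i1.succ) (ν' i2.succ) (c1 : ℂ) (c2 : ℂ) (V' i1.succ) (V' i2.succ) p)
          R := by
      intro R
      rw [kds_aeval, hb]
    refine ⟨?_, ?_, fun j => ?_⟩
    · rw [← hkey']
      apply hsp
      rw [hkey]
      exact ch.crep_P1
    · rw [← hkey']
      apply hsp
      rw [hkey]
      exact crep_spec ch.x _ ((ch.ker _).2 dvd_rfl)
    · have h5 := hsp (bind₁ (kds i1.succ i2.succ c1 c2) (Q j) - X (Sum.inr j.succ)) (by
        rw [map_sub, hkey, aeval_X, Sum.elim_inr, hcs, sub_self])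
      rw [map_sub, hkey', aeval_X, Sum.elim_inr, sub_eq_zero] at h5
      exact h5
  obtain ⟨M, X', W, hW, hW0, hev2⟩ := two_chart ch.P ch.G Q i1 i2 iP iG (c1 : ℂ) (c2 : ℂ) hP hG α e
    he (fun j => ν' j.succ) (fun j => V' j.succ) (fun j => hV' _) (fun j => hV0' _) hbase
  refine ⟨e, fun j => ν' j.succ, M, X', W, he, hW, ?_, ?_, hev2⟩
  · intro j
    rw [hW0]
    exact hV0' _
  · intro i j hij
    obtain ⟨h3, h4⟩ := hlead i j hij
    refine ⟨?_, ?_⟩
    · show ν' j.succ = ν' i.succ - e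
      omega
    · rw [hW0, hW0]
      exact h4

theorem two_data {k : Subfield ℂ} {K : Type} [Field K] [Algebra k K] {m N : ℕ} {pl : Place k K}
    (htr : ∀ y : Fin (m + 2) → K, ¬ AlgebraicIndependent k y) (ch : Chart pl m)
    (hind : AlgebraicIndependent k (fun j : Fin m => pl.ρ (ch.x (some j.castSucc)))) (a0 : pl.O)
    (F : MvPolynomial (Fin (m + 1)) k)
    (hF : ∀ f : MvPolynomial (Fin (m + 1)) k,
      aeval (Fin.cons (pl.ρ a0) (fun j : Fin m => pl.ρ (ch.x (some j.castSucc))) :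
        Fin (m + 1) → ℂ) f = 0 ↔ F ∣ f)
    (d : ℕ) (Fc : ℕ → MvPolynomial (Fin (m + 1)) k) (hFc : ∀ i, (Fc i).IsHomogeneous i)
    (hFs : F = ∑ i ∈ Finset.range (d + 1), Fc i) (hFd : Fc d ≠ 0) (ρ₀ : ℂ) (hρ₀ : ρ₀ ≠ 0)
    (hroot : aeval (Fin.cons ρ₀ (fun j : Fin m => pl.ρ (ch.x (some j.castSucc))) :
        Fin (m + 1) → ℂ) (Fc d) = 0)
    (Q : Fin N → MvPolynomial (Option (Fin (m + 1))) k)
    (hQ : ∀ j, aeval (fun i => pl.ρ (ch.x i)) (Q j) ≠ 0) :
    ∃ (e : ℕ) (ν : Fin N → ℤ) (M : ℕ) (X' : (Fin m → ℂ) × ℂ × ℂ → Option (Fin (m + 1)) → ℂ)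
      (W : Fin N → (Fin m → ℂ) × ℂ × ℂ → ℂ), 1 ≤ e ∧
      (∀ j, ContDiffAt ℂ 1 (W j) ((fun j : Fin m => pl.ρ (ch.x (some j.castSucc))), 0, 0)) ∧
      (∀ j, W j ((fun j : Fin m => pl.ρ (ch.x (some j.castSucc))), 0, 0) ≠ 0) ∧
      (∀ i j, pl.ρ a0 * aeval (fun i => pl.ρ (ch.x i)) (Q i) =
        aeval (fun i => pl.ρ (ch.x i)) (Q j) → ν j = ν i - e ∧
        W j ((fun j : Fin m => pl.ρ (ch.x (some j.castSucc))), 0, 0) =
          ρ₀ * W i ((fun j : Fin m => pl.ρ (ch.x (some j.castSucc))), 0, 0)) ∧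
      ∀ᶠ p : (Fin m → ℂ) × ℂ × ℂ in 𝓝 ((fun j : Fin m => pl.ρ (ch.x (some j.castSucc))), 0, 0),
        p.2.1 ≠ 0 →
        (∀ j : Fin m, X' p (some j.castSucc) = p.1 j * (p.2.1⁻¹) ^ e) ∧
        aeval (X' p) (rename some ch.P) = p.2.1 ^ M * p.2.2 ∧ aeval (X' p) ch.G = 0 ∧
        ∀ j, aeval (X' p) (Q j) = p.2.1 ^ ν j * W j p := by
  obtain ⟨c1, hc1⟩ := kd_const k (pl.ρ (ch.x (some (Fin.last m))))
  obtain ⟨c2, hc2⟩ := kd_const k (pl.ρ (ch.x none))
  set Q0 : Fin 4 → MvPolynomial (Option (Fin (m + 1))) k :=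
    ![X (some (Fin.last m)) + C c1, X none + C c2, rename some (pderiv (Fin.last m) ch.P),
      pderiv none ch.G] with hQ0
  obtain ⟨e, ν, M, X', W, he, hW, hW0, hL, hev⟩ := kd_fin htr ch hind a0 F hF d Fc hFc hFs hFd ρ₀
    hρ₀ hroot (Fin.append Q0 Q) (by
      intro j
      refine Fin.addCases (fun i => ?_) (fun i => ?_) j
      · rw [Fin.append_left]
        fin_cases i
        · show aeval (fun i => pl.ρ (ch.x i)) (X (some (Fin.last m)) + C c1) ≠ 0
          rw [map_add, aeval_X, aeval_C]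
          exact hc1
        · show aeval (fun i => pl.ρ (ch.x i)) (X none + C c2) ≠ 0
          rw [map_add, aeval_X, aeval_C]
          exact hc2
        · show aeval (fun i => pl.ρ (ch.x i)) (rename some (pderiv (Fin.last m) ch.P)) ≠ 0
          rw [aeval_rename]
          exact ch.hPY
        · exact ch.hGW
      · rw [Fin.append_right]
        exact hQ i)
    (Fin.castAdd N 0) (Fin.castAdd N 1) (Fin.castAdd N 2) (Fin.castAdd N 3) c1 c2
    (by rw [Fin.append_left]; rfl) (by rw [Fin.append_left]; rfl) (by rw [Fin.append_left]; rfl)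
    (by rw [Fin.append_left]; rfl)
  refine ⟨e, fun j => ν (Fin.natAdd 4 j), M, X', fun j => W (Fin.natAdd 4 j), he, fun j => hW _,
    fun j => hW0 _, fun i j hij => hL _ _ ?_, ?_⟩
  · rw [Fin.append_right, Fin.append_right]
    exact hij
  · filter_upwards [hev] with p hp hp0
    obtain ⟨h1, h2, h3, h4⟩ := hp hp0
    refine ⟨h1, h2, h3, fun j => ?_⟩
    have h5 := h4 (Fin.natAdd 4 j)
    rw [Fin.append_right] at h5
    exact h5

end Pool.Agent.EXK
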