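import Pool.Agent.EXK.KFin

/-!
# EXK / KDefinite: forms without real zeros are hyperbolic in no integer direction

A form `L` of degree `d ≥ 1` in `n ≥ 2` variables with `L(x) ≠ 0` for all real `x ≠ 0`: for
`v ≠ 0` take a real `y` not proportional to `v`. The polynomial `L(y + ρ v)` in `ρ` is not constant
(otherwise `L(v + s y) = s^d L(y)` for all `s`, and `L(v) = 0`), so it has a zero, which is not real.
-/

set_option autoImplicit false

namespace Pool.Agent.EXK

open MvPolynomial

private lemma eval_scale {n d : ℕ} (L : MvPolynomial (Fin n) ℂ) (hL : L.IsHomogeneous d) (s : ℂ)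
    (x : Fin n → ℂ) : eval (fun j => s * x j) L = s ^ d * eval x L := by
  rw [eval_eq', eval_eq', Finset.mul_sum]
  refine Finset.sum_congr rfl fun m hm => ?_
  have h1 : m.degree = d := by
    by_contra h
    exact (mem_support_iff.1 hm) (hL.coeff_eq_zero h)
  have h2 : ∏ i, (s * x i) ^ m i = s ^ d * ∏ i, x i ^ m i := by
    simp_rw [mul_pow]
    rw [Finset.prod_mul_distrib, Finset.prod_pow_eq_pow_sum, ← h1, Finsupp.degree_eq_sum]
  rw [h2]
  ring

private lemma eval_line {n : ℕ} (L : MvPolynomial (Fin n) ℂ) (a b : Fin n → ℂ) (ρ : ℂ) :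
    Polynomial.eval ρ (aeval (fun j => Polynomial.C (a j) + Polynomial.X * Polynomial.C (b j)) L) =
      eval (fun j => a j + ρ * b j) L := by
  induction L using MvPolynomial.induction_on with
  | C c =>
    rw [algHom_C, eval_C]
    exact Polynomial.eval_C
  | add p q hp hq => rw [map_add, Polynomial.eval_add, hp, hq, map_add]
  | mul_X p i hp =>
    rw [map_mul, aeval_X, Polynomial.eval_mul, hp, map_mul, eval_X, Polynomial.eval_add,
      Polynomial.eval_mul, Polynomial.eval_C, Polynomial.eval_C, Polynomial.eval_X]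

theorem nonHypC_of_definite {n d : ℕ} (hn : 2 ≤ n) (hd : 1 ≤ d) (L : MvPolynomial (Fin n) ℂ)
    (hL : L.IsHomogeneous d)
    (hdef : ∀ x : Fin n → ℝ, x ≠ 0 → eval (fun j => (x j : ℂ)) L ≠ 0)
    (v : Fin n → ℤ) (hv : v ≠ 0) : NonHypC L v := by
  classical
  obtain ⟨j0, hj0⟩ := Function.ne_iff.1 hv
  obtain ⟨j1, hj1⟩ : ∃ j1 : Fin n, j1 ≠ j0 := by
    have : Nontrivial (Fin n) := Fin.nontrivial_iff_two_le.2 hn
    exact exists_ne j0
  have hv0 : (v j0 : ℝ) ≠ 0 := by
    have : v j0 ≠ 0 := hj0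
    exact_mod_cast this
  set y : Fin n → ℝ := Pi.single j1 1 with hy
  have hy0 : y j0 = 0 := by
    rw [hy, Pi.single_apply, if_neg hj1.symm]
  have hy1 : y j1 = 1 := by
    rw [hy, Pi.single_eq_same]
  have hyv : ∀ r : ℝ, (fun j => y j + r * v j) ≠ 0 := by
    intro r h
    have h0 := congrFun h j0
    have h1 := congrFun h j1
    simp only [hy0, hy1, Pi.zero_apply, zero_add] at h0 h1
    have h2 : r = 0 := (mul_eq_zero.1 h0).resolve_right hv0
    rw [h2, zero_mul, add_zero] at h1
    exact one_ne_zero h1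
  set q : Polynomial ℂ := aeval (fun j => Polynomial.C ((y j : ℝ) : ℂ) +
    Polynomial.X * Polynomial.C ((v j : ℤ) : ℂ)) L with hq
  have hqe : ∀ ρ : ℂ, Polynomial.eval ρ q = eval (fun j => (y j : ℂ) + ρ * v j) L :=
    fun ρ => eval_line L _ _ ρ
  have hreal : ∀ r : ℝ, eval (fun j => (y j : ℂ) + (r : ℂ) * v j) L ≠ 0 := by
    intro r
    have h1 := hdef _ (hyv r)
    have h2 : (fun j => (((y j + r * v j : ℝ)) : ℂ)) = fun j => (y j : ℂ) + (r : ℂ) * v j := by
      funext j
      push_cast
      ring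
    rwa [h2] at h1
  have hdeg : q.degree ≠ 0 := by
    intro h0
    obtain ⟨c, hc⟩ : ∃ c, q = Polynomial.C c := ⟨_, Polynomial.eq_C_of_degree_eq_zero h0⟩
    set q2 : Polynomial ℂ := aeval (fun j => Polynomial.C ((v j : ℤ) : ℂ) +
      Polynomial.X * Polynomial.C ((y j : ℝ) : ℂ)) L with hq2
    have hq2e : ∀ ρ : ℂ, Polynomial.eval ρ q2 = eval (fun j => (v j : ℂ) + ρ * y j) L :=
      fun ρ => eval_line L _ _ ρ
    have h1 : q2 = Polynomial.X ^ d * Polynomial.C c := by
      refine Polynomial.eq_of_infinite_eval_eq _ _ (Set.Infinite.mono (s := {0}ᶜ) ?_ ?_)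
      · intro s hs
        have hs0 : s ≠ 0 := hs
        change Polynomial.eval s q2 = Polynomial.eval s (Polynomial.X ^ d * Polynomial.C c)
        rw [hq2e, Polynomial.eval_mul, Polynomial.eval_pow, Polynomial.eval_X, Polynomial.eval_C]
        have h2 : (fun j => (v j : ℂ) + s * y j) =
            fun j => s * ((y j : ℂ) + s⁻¹ * v j) := by
          funext j
          field_simp
          ring
        rw [h2, eval_scale L hL, ← hqe, hc, Polynomial.eval_C]
      · exact (Set.finite_singleton (0 : ℂ)).infinite_compl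
    have h3 := hq2e 0
    rw [h1, Polynomial.eval_mul, Polynomial.eval_pow, Polynomial.eval_X, zero_pow (by omega),
      zero_mul] at h3
    have h4 := hdef (fun j => (v j : ℝ)) (by
      intro h5
      exact hv0 (congrFun h5 j0))
    apply h4
    have h6 : (fun j => (((v j : ℝ)) : ℂ)) = fun j => (v j : ℂ) + 0 * (y j : ℂ) := by
      funext j
      simp
    rw [h6]
    exact h3.symm
  obtain ⟨ρ, hρ⟩ := IsAlgClosed.exists_root q hdeg
  rw [Polynomial.IsRoot.def, hqe] at hρ
  refine ⟨y, ρ, 0, ?_, hρ, ?_⟩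
  · intro him
    apply hreal ρ.re
    have h1 : ((ρ.re : ℝ) : ℂ) = ρ := by
      apply Complex.ext
      · simp
      · simp [him]
    rw [h1]
    exact hρ
  · have h1 := hreal 0
    simpa using h1

end Pool.Agent.EXK
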