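import Pool.Agent.EXJ.JDefs

/-!
# EXK / KDefs: exact exponential closedness in codimension one, definitions

`Concl 1 k a b` (EXJ/JDefs, `φ = 1`) says: for every `h` with `h(a, b) ≠ 0` there is a specialization
`(a', exp a')` of `(a, b)` over `k` with `h(a', exp a') ≠ 0`.
-/

set_option autoImplicit false

namespace Pool.Agent.EXK

open MvPolynomial Pool.Agent.EXL Pool.Agent.EXI

/-- `L` is not hyperbolic in the direction of the integer vector `v`: on some real line (and its
complex points) in the direction `v` it has a nonreal zero but does not vanish identically. -/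
def NonHyp {k : Subfield ℂ} {n : ℕ} (L : MvPolynomial (Fin n) k) (v : Fin n → ℤ) : Prop :=
  ∃ (y : Fin n → ℝ) (ρ ρ' : ℂ), ρ.im ≠ 0 ∧ aeval (fun j => (y j : ℂ) + ρ * v j) L = 0 ∧
    aeval (fun j => (y j : ℂ) + ρ' * v j) L ≠ 0

end Pool.Agent.EXK
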