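import Pool.Agent.EXK.KPl
import Pool.Agent.EXI.AUni

/-!
# EXK / KNf: the place in normal form

PROOF.  `exists_pl` and `exists_unimodular v`. `A j = linZ U A j` is in `O` (integral combination of
the `θ`), `B j = powZ U B j = t ^ (∑ i, U j i * v i) * ∏ ε_i ^ U j i`, where the product of integral
powers of units of `O` (elements with `ρ ≠ 0`, `inv_mem`) is a unit of `O`. So `B 0 = t^g * unit`,
`g > 0`, `ρ (B 0) = 0` (`ρ t = 0`), `B j.succ` is a unit. The relations: `aeval (ρ (linZ U θ)) f =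
aeval (linZ U (ρ θ)) f = aeval (ρ θ) f'`, `f' = f(U X)`, same for `a`.
-/

set_option autoImplicit false

namespace Pool.Agent.EXK

open MvPolynomial Pool.Agent.EXL Pool.Agent.EXI

/-- integral powers of units -/
private theorem unit_zpow {k : Subfield ℂ} {K : Type} [Field K] [Algebra k K] (pl : Place k K)
    (ε : pl.O) (hε : pl.ρ ε ≠ 0) (z : ℤ) : ∃ η : pl.O, pl.ρ η ≠ 0 ∧ (η : K) = (ε : K) ^ z := by
  have hK : (ε : K) ≠ 0 := by
    intro h
    apply hε
    have : ε = 0 := Subtype.ext h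
    rw [this, map_zero]
  rcases Int.eq_nat_or_neg z with ⟨n, rfl | rfl⟩
  · refine ⟨ε ^ n, ?_, ?_⟩
    · rw [map_pow]
      exact pow_ne_zero n hε
    · rw [zpow_natCast]
      rfl
  · have hi := pl.inv_mem ε hε
    have h1 : (⟨(ε : K)⁻¹, hi⟩ : pl.O) * ε = 1 := Subtype.ext (inv_mul_cancel₀ hK)
    have h2 : pl.ρ ⟨(ε : K)⁻¹, hi⟩ ≠ 0 := by
      intro h
      have h3 := congrArg pl.ρ h1
      rw [map_mul, h, zero_mul, map_one] at h3
      exact zero_ne_one h3
    refine ⟨⟨(ε : K)⁻¹, hi⟩ ^ n, ?_, ?_⟩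
    · rw [map_pow]
      exact pow_ne_zero n h2
    · rw [zpow_neg, zpow_natCast, ← inv_pow]
      rfl

/-- products of integral powers of units -/
private theorem unit_prod {k : Subfield ℂ} {K : Type} [Field K] [Algebra k K] (pl : Place k K)
    {n : ℕ} (ε : Fin n → pl.O) (hε : ∀ i, pl.ρ (ε i) ≠ 0) (z : Fin n → ℤ) :
    ∃ η : pl.O, pl.ρ η ≠ 0 ∧ (η : K) = ∏ i, (ε i : K) ^ z i := by
  choose η hη hη' using fun i => unit_zpow pl (ε i) (hε i) (z i)
  refine ⟨∏ i, η i, ?_, ?_⟩
  · rw [map_prod]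
    exact Finset.prod_ne_zero_iff.2 fun i _ => hη i
  · rw [← Subring.coe_subtype, map_prod]
    exact Finset.prod_congr rfl fun i _ => hη' i

theorem exists_nf (k : Subfield ℂ) {m : ℕ} (a b : Fin (m + 1) → ℂ) (hb : ∀ j, b j ≠ 0)
    (htd : td (k : Set ℂ) (Sum.elim a b) = m + 1) (hta : td (k : Set ℂ) a = m) :
    ∃ (U : Matrix (Fin (m + 1)) (Fin (m + 1)) ℤ) (v : Fin (m + 1) → ℤ), IsUnit U.det ∧ v ≠ 0 ∧
      0 < ∑ i, U 0 i * v i ∧ (∀ j : Fin m, ∑ i, U j.succ i * v i = 0) ∧
      ∃ (pl : Place k (IntermediateField.adjoin k (Set.range (Sum.elim a b))))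
        (A B : Fin (m + 1) → pl.O),
        (∀ j, ((A j : IntermediateField.adjoin k (Set.range (Sum.elim a b))) : ℂ) =
          linZ U a j) ∧
        (∀ j, ((B j : IntermediateField.adjoin k (Set.range (Sum.elim a b))) : ℂ) =
          powZ U b j) ∧
        pl.ρ (B 0) = 0 ∧ (∀ j : Fin m, pl.ρ (B j.succ) ≠ 0) ∧
        ∀ f : MvPolynomial (Fin (m + 1)) k, aeval (fun j => pl.ρ (A j)) f = 0 ↔
          aeval (linZ U a) f = 0 := by
  obtain ⟨pl, A0, B0, v, θ, hA, hB, hθ, hrel, hv, hfac⟩ := exists_pl k a b hb htd hta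
  obtain ⟨U, hU, hg, hU0⟩ := exists_unimodular v hv
  choose ε hε hBε using hfac
  choose H hH hH' using fun j => unit_prod pl ε hε (fun i => U j i)
  set tt : pl.O := ⟨pl.t, pl.t_mem⟩ with htt
  have hnn : ∀ j : Fin (m + 1), 0 ≤ ∑ i, U j i * v i := by
    intro j
    refine Fin.cases hg.le (fun j => ?_) j
    rw [hU0 j]
  refine ⟨U, v, hU, hv, hg, hU0, pl, fun j => ∑ i, (U j i : pl.O) * θ i,
    fun j => tt ^ (∑ i, U j i * v i).toNat * H j, ?_, ?_, ?_, ?_, ?_⟩
  · intro j
    have h1 : ((∑ i, (U j i : pl.O) * θ i : pl.O) :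
        IntermediateField.adjoin k (Set.range (Sum.elim a b))) =
        ∑ i, (U j i : IntermediateField.adjoin k (Set.range (Sum.elim a b))) * A0 i := by
      rw [← Subring.coe_subtype, map_sum]
      refine Finset.sum_congr rfl fun i _ => ?_
      rw [map_mul, map_intCast, Subring.coe_subtype, hθ i]
    show (((∑ i, (U j i : pl.O) * θ i : pl.O) :
        IntermediateField.adjoin k (Set.range (Sum.elim a b))) : ℂ) = ∑ i, (U j i : ℂ) * a i
    rw [h1]
    have h2 := map_sum (algebraMap (IntermediateField.adjoin k (Set.range (Sum.elim a b))) ℂ)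
      (fun i => (U j i : IntermediateField.adjoin k (Set.range (Sum.elim a b))) * A0 i)
      Finset.univ
    refine h2.trans (Finset.sum_congr rfl fun i _ => ?_)
    rw [map_mul, map_intCast]
    exact congrArg (fun z => (U j i : ℂ) * z) (hA i)
  · intro j
    have h1 : ((tt ^ (∑ i, U j i * v i).toNat * H j : pl.O) :
        IntermediateField.adjoin k (Set.range (Sum.elim a b))) = ∏ i, B0 i ^ U j i := by
      have h2 : ∀ i, B0 i ^ U j i = pl.t ^ (U j i * v i) *
          (ε i : IntermediateField.adjoin k (Set.range (Sum.elim a b))) ^ U j i := by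
        intro i
        rw [hBε i, mul_zpow, ← zpow_mul, mul_comm (v i)]
      rw [Finset.prod_congr rfl fun i _ => h2 i, Finset.prod_mul_distrib, ← hH' j]
      have h3 : ∏ i, pl.t ^ (U j i * v i) = pl.t ^ (∑ i, U j i * v i) := by
        have : ∀ s : Finset (Fin (m + 1)), ∏ i ∈ s, pl.t ^ (U j i * v i) =
            pl.t ^ (∑ i ∈ s, U j i * v i) := by
          intro s
          classical
          induction s using Finset.induction_on with
          | empty => simp
          | insert x s hx ih =>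
            rw [Finset.prod_insert hx, Finset.sum_insert hx, ih, zpow_add₀ pl.t_ne]
        exact this Finset.univ
      rw [h3, ← Int.toNat_of_nonneg (hnn j), zpow_natCast, Int.toNat_of_nonneg (hnn j)]
      rfl
    show (((tt ^ (∑ i, U j i * v i).toNat * H j : pl.O) :
        IntermediateField.adjoin k (Set.range (Sum.elim a b))) : ℂ) = ∏ i, b i ^ U j i
    rw [h1]
    have h2 := map_prod (algebraMap (IntermediateField.adjoin k (Set.range (Sum.elim a b))) ℂ)
      (fun i => B0 i ^ U j i) Finset.univ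
    refine h2.trans (Finset.prod_congr rfl fun i _ => ?_)
    rw [map_zpow₀]
    exact congrArg (fun z : ℂ => z ^ U j i) (hB i)
  · show pl.ρ (tt ^ (∑ i, U 0 i * v i).toNat * H 0) = 0
    have h1 : (∑ i, U 0 i * v i).toNat ≠ 0 := by omega
    rw [map_mul, map_pow, htt, pl.ρt, zero_pow h1, zero_mul]
  · intro j
    show pl.ρ (tt ^ (∑ i, U j.succ i * v i).toNat * H j.succ) ≠ 0
    rw [hU0 j, Int.toNat_zero, pow_zero, one_mul]
    exact hH j.succ
  · intro f
    have h1 : ∀ x : Fin (m + 1) → ℂ, aeval x (bind₁ (fun j => ∑ i, C (U j i : k) * X i) f) =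
        aeval (fun j => ∑ i, (U j i : ℂ) * x i) f := by
      intro x
      rw [aeval_bind₁]
      congr 2
      funext j
      rw [map_sum]
      refine Finset.sum_congr rfl fun i _ => ?_
      rw [map_mul, aeval_X, aeval_C, map_intCast]
    have h2 := hrel (bind₁ (fun j => ∑ i, C (U j i : k) * X i) f)
    rw [h1, h1] at h2
    have h3 : (fun j => pl.ρ (∑ i, (U j i : pl.O) * θ i)) =
        fun j => ∑ i, (U j i : ℂ) * pl.ρ (θ i) := by
      funext j
      rw [map_sum]
      refine Finset.sum_congr rfl fun i _ => ?_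
      rw [map_mul, map_intCast]
    show aeval (fun j => pl.ρ (∑ i, (U j i : pl.O) * θ i)) f = 0 ↔ _
    rw [h3]
    exact h2

end Pool.Agent.EXK
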