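import Pool.Agent.EXK.KDefs
import Pool.Agent.EXI.CPlace
import Pool.Agent.EXI.CTd
import Pool.Agent.EXI.TFEmb
import Pool.Agent.EXI.TFTor
import Pool.Agent.EXI.TFSetup

/-!
# EXK / KPl: a place over `k(a)`

PROOF.  `td_basis` gives `s : Fin m → Fin (m+1)` with `a ∘ s` algebraically independent over `k`. Some
`b j₁` is not algebraic over `k(a ∘ s)` (otherwise `td (Sum.elim a b) ≤ m`), so
`t := Fin.snoc (a ∘ s) (b j₁) : Fin (m+1) → ℂ` is algebraically independent
(`AlgebraicIndependent.option_iff_transcendental`, see CTd `top_alg`), and every element of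
`K = k(a, b)` is algebraic over `k(t)`. Let `Ω = Om k (a ∘ s)` (algebraic closure of `k(a ∘ s)`,
`isAlgClosed_Om`). `base_of_inj` (TFTor) for `t`, `ψ = cst (le_Om ..)`,
`v = Fin.snoc (C (a (s i))) (single 1 1)`: `κ : k(t) →+* LaurentSeries Ω` (a nonzero polynomial in
constants, algebraically independent over `k`, and `ζ = single 1 1` is not zero). `emb` (TFEmb, `F` the
finite extension `k(t)(a, b)` of `k(t)`, as in `emb_top`, file CEmb) gives `e ≥ 1`, `χ`, `σ : F →+*
LaurentSeries Ω` with `σ = χ ∘ κ` on `k(t)`: `σ (a (s i)) = C (a (s i))`, `σ (b j₁) = single e 1`.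
`exists_place` (CPlace) for `σ` on `K` and `x₀ = b j₁` (order `e ≠ 0`): `pl`, `ρ x = (σ x).coeff 0`.
The other `a j` are algebraic over `k(a ∘ s)`: `σ (a j)` is a root of a nonzero polynomial whose
coefficients are constants `C c`, `c ∈ Ω`, `Ω` algebraically closed, so `σ (a j) = C θ_j`
(the polynomial splits over `Ω`). So `a j ∈ O`, `σ (f(a)) = C (f(θ))`, `ρ (a j) = θ_j`, and `σ` is
injective: `f(θ) = 0 ↔ f(a) = 0`. `pl.fac` gives `v`; `v j₁ ≠ 0` because `ρ (b j₁) = 0`.
-/

set_option autoImplicit false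

namespace Pool.Agent.EXK

open MvPolynomial Pool.Agent.EXL Pool.Agent.EXI

private theorem kp_range (K : Subfield ℂ) : Set.range (algebraMap K ℂ) = (K : Set ℂ) := by
  ext x
  constructor
  · rintro ⟨c, rfl⟩
    exact c.2
  · intro hx
    exact ⟨⟨x, hx⟩, rfl⟩

/-- one of the `b j` completes the transcendence basis -/
private theorem kp_basis (k : Subfield ℂ) {m : ℕ} (a b : Fin (m + 1) → ℂ)
    (htd : td (k : Set ℂ) (Sum.elim a b) = m + 1) (hta : td (k : Set ℂ) a = m)
    (s : Fin m → Fin (m + 1)) (hs : AlgebraicIndependent k (fun i => a (s i))) :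
    (∀ j, IsAlgebraic (Algebra.adjoin k (Set.range (a ∘ s))) (a j)) ∧
    ∃ j₁, td (k : Set ℂ) (Sum.elim a b ∘
      (Fin.snoc (fun i => Sum.inl (s i)) (Sum.inr j₁) :
        Fin (m + 1) → Fin (m + 1) ⊕ Fin (m + 1))) = (m + 1 : ℕ) := by
  have hs1 : td (k : Set ℂ) (a ∘ s) = m := (ind_iff k _).1 hs
  have hal : ∀ j, IsAlgebraic (Algebra.adjoin k (Set.range (a ∘ s))) (a j) := fun j =>
    alg_of_td k a s hta hs1 j
  refine ⟨hal, ?_⟩
  by_contra hcon
  push Not at hcon
  have hall : ∀ j, IsAlgebraic (Algebra.adjoin k (Set.range (a ∘ s))) (b j) := by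
    intro j
    by_contra hna
    apply hcon j
    have h3 : AlgebraicIndependent k (fun o : Option (Fin m) => o.elim (b j) (a ∘ s)) :=
      (hs.option_iff_transcendental (b j)).2 hna
    have h4 := (algInd_iff (k := k) _).1 h3
    rw [kp_range, Fintype.card_option, Fintype.card_fin] at h4
    refine le_antisymm (le_trans ?_ htd.le) (le_trans h4.ge ?_)
    · refine rk_le_of_dep _ _ _ ?_
      intro D _ hz i
      exact hz _
    · refine rk_le_of_dep _ _ _ ?_
      intro D _ hz o
      cases o with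
      | none =>
        have h5 := hz (Fin.last m)
        simpa using h5
      | some i =>
        have h5 := hz (Fin.castSucc i)
        simpa using h5
  have h6 : td (k : Set ℂ) (Sum.elim a b) ≤ td (k : Set ℂ) (a ∘ s) := by
    refine rk_le_of_dep _ _ _ ?_
    intro D hD hz i
    rcases i with i | i
    · exact kill_of_algebraic k (a ∘ s) D hD hz _ (hal i)
    · exact kill_of_algebraic k (a ∘ s) D hD hz _ (hall i)
  rw [htd, hs1] at h6
  omega

theorem exists_pl (k : Subfield ℂ) {m : ℕ} (a b : Fin (m + 1) → ℂ) (hb : ∀ j, b j ≠ 0)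
    (htd : td (k : Set ℂ) (Sum.elim a b) = m + 1) (hta : td (k : Set ℂ) a = m) :
    ∃ (pl : Place k (IntermediateField.adjoin k (Set.range (Sum.elim a b))))
      (A B : Fin (m + 1) → IntermediateField.adjoin k (Set.range (Sum.elim a b)))
      (v : Fin (m + 1) → ℤ) (θ : Fin (m + 1) → pl.O),
      (∀ j, (A j : ℂ) = a j) ∧ (∀ j, (B j : ℂ) = b j) ∧ (∀ j, (θ j :
        IntermediateField.adjoin k (Set.range (Sum.elim a b))) = A j) ∧
      (∀ f : MvPolynomial (Fin (m + 1)) k, aeval (fun j => pl.ρ (θ j)) f = 0 ↔ aeval a f = 0) ∧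
      v ≠ 0 ∧ ∀ j, ∃ ε : pl.O, pl.ρ ε ≠ 0 ∧ B j = pl.t ^ v j * ε := by
  classical
  obtain ⟨s, hs⟩ := td_basis k a hta
  obtain ⟨hal, j₁, hJ⟩ := kp_basis k a b htd hta s hs
  set J : Fin (m + 1) → Fin (m + 1) ⊕ Fin (m + 1) :=
    Fin.snoc (fun i => Sum.inl (s i)) (Sum.inr j₁) with hJdef
  have hJl : J (Fin.last m) = Sum.inr j₁ := by rw [hJdef, Fin.snoc_last]
  have hJc : ∀ i, J (Fin.castSucc i) = Sum.inl (s i) := fun i => by rw [hJdef, Fin.snoc_castSucc]
  have hind : AlgebraicIndependent k (Sum.elim a b ∘ J) := (ind_iff k _).2 hJ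
  let τ : Fin m → ℂ := a ∘ s
  have hac : IsAlgClosed (Om k τ) := isAlgClosed_Om k τ
  have hmem : ∀ i, a (s i) ∈ Om k τ := fun i _ hD => hD _ (Or.inr ⟨i, rfl⟩)
  let c : Fin (m + 1) → Om k τ := Fin.snoc (fun i => (⟨a (s i), hmem i⟩ : Om k τ)) 1
  let mm : Fin (m + 1) → ℤ := Fin.snoc (fun _ => (0 : ℤ)) 1
  have hcc : ∀ i, c (Fin.castSucc i) = ⟨a (s i), hmem i⟩ := fun i => by
    show Fin.snoc _ _ _ = _
    rw [Fin.snoc_castSucc]
  have hcl : c (Fin.last m) = 1 := by
    show Fin.snoc _ _ _ = _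
    rw [Fin.snoc_last]
  have hmc : ∀ i, mm (Fin.castSucc i) = 0 := fun i => by
    show Fin.snoc _ _ _ = _
    rw [Fin.snoc_castSucc]
  have hml : mm (Fin.last m) = 1 := by
    show Fin.snoc _ _ _ = _
    rw [Fin.snoc_last]
  have hindc : AlgebraicIndependent k
      fun l : {l : Fin (m + 1) // l ≠ Fin.last m} => ((c l : Om k τ) : ℂ) := by
    have h1 : (fun l : {l : Fin (m + 1) // l ≠ Fin.last m} => ((c l : Om k τ) : ℂ)) =
        (fun i => a (s i)) ∘ (fun l : {l : Fin (m + 1) // l ≠ Fin.last m} =>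
          (l : Fin (m + 1)).castPred l.2) := by
      funext l
      have h2 := hcc ((l : Fin (m + 1)).castPred l.2)
      rw [Fin.castSucc_castPred] at h2
      simp only [Function.comp_apply]
      rw [h2]
    rw [h1]
    refine hs.comp _ ?_
    intro x y hxy
    apply Subtype.ext
    exact Fin.castPred_inj.1 hxy
  obtain ⟨κ, hκc, hκt⟩ := tor_base (le_Om k τ) (Sum.elim a b ∘ J) hind c mm (Fin.last m)
    (by rw [hml]; exact one_ne_zero) hcl hindc
  have hfd : FiniteDimensional (EJ k (Sum.elim a b) J) (FJ k (Sum.elim a b) J) :=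
    setup_fd k (Sum.elim a b) (y := m + 1) htd J hJ
  obtain ⟨e, he, χ, hχc, hχ1, S, hS, hmin⟩ :=
    emb (F := FJ k (Sum.elim a b) J) (Ω := Om k τ) κ 0
  have hS0 : S ≠ 0 := by
    rintro rfl
    have hdeg := congrArg Polynomial.natDegree hmin
    rw [minpoly.zero, Polynomial.map_X, Polynomial.natDegree_X, Multiset.map_zero,
      Multiset.prod_zero, Polynomial.natDegree_one] at hdeg
    exact one_ne_zero hdeg
  obtain ⟨σ, hσS⟩ := Multiset.exists_mem_of_ne_zero hS0
  have hσ := hS σ hσS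
  have hle : ∀ x ∈ IntermediateField.adjoin k (Set.range (Sum.elim a b)),
      x ∈ FJ k (Sum.elim a b) J := by
    intro x hx
    induction hx using IntermediateField.adjoin_induction with
    | mem x hx => exact IntermediateField.subset_adjoin _ _ hx
    | algebraMap x =>
      exact (FJ k (Sum.elim a b) J).algebraMap_mem (algebraMap k (EJ k (Sum.elim a b) J) x)
    | add x y hx hy h1 h2 => exact (FJ k (Sum.elim a b) J).add_mem h1 h2
    | inv x hx h1 => exact (FJ k (Sum.elim a b) J).inv_mem h1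
    | mul x y hx hy h1 h2 => exact (FJ k (Sum.elim a b) J).mul_mem h1 h2
  let Kf := IntermediateField.adjoin k (Set.range (Sum.elim a b))
  let incl : Kf →+* FJ k (Sum.elim a b) J :=
    (algebraMap Kf ℂ).codRestrict (FJ k (Sum.elim a b) J) (fun x => hle x x.2)
  let σ0 : Kf →+* LaurentSeries (Om k τ) := σ.comp incl
  have hA0 : ∀ j, a j ∈ Kf := fun j => IntermediateField.subset_adjoin _ _ ⟨Sum.inl j, rfl⟩
  have hB0 : ∀ j, b j ∈ Kf := fun j => IntermediateField.subset_adjoin _ _ ⟨Sum.inr j, rfl⟩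
  let A : Fin (m + 1) → Kf := fun j => ⟨a j, hA0 j⟩
  let B : Fin (m + 1) → Kf := fun j => ⟨b j, hB0 j⟩
  have hσc : ∀ x : k, σ0 (algebraMap k Kf x) = HahnSeries.C (⟨x, le_Om k τ x.2⟩ : Om k τ) := by
    intro x
    have h1 := congrArg (fun g => g (algebraMap k (EJ k (Sum.elim a b) J) x)) hσ
    simp only [RingHom.comp_apply] at h1
    rw [hκc] at h1
    change σ (algebraMap (EJ k (Sum.elim a b) J) (FJ k (Sum.elim a b) J)
      (algebraMap k (EJ k (Sum.elim a b) J) x)) = _
    rw [h1]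
    exact hχc _
  have hσt : ∀ l (x : Kf), (x : ℂ) = (Sum.elim a b ∘ J) l → σ0 x =
      χ (HahnSeries.single (mm l) (c l)) := by
    intro l x hx
    have h1 := congrArg (fun g => g (⟨(Sum.elim a b ∘ J) l,
      IntermediateField.subset_adjoin k _ ⟨l, rfl⟩⟩ : EJ k (Sum.elim a b) J)) hσ
    simp only [RingHom.comp_apply] at h1
    rw [hκt] at h1
    rw [← h1]
    change σ _ = σ _
    congr 1
    apply Subtype.ext
    exact hx
  have hσs : ∀ i, σ0 (A (s i)) = HahnSeries.C (⟨a (s i), hmem i⟩ : Om k τ) := by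
    intro i
    rw [hσt (Fin.castSucc i) (A (s i)) (by
      rw [Function.comp_apply, hJc]
      rfl), hmc, hcc]
    exact hχc _
  have hσb : σ0 (B j₁) = HahnSeries.single (e : ℤ) 1 := by
    rw [hσt (Fin.last m) (B j₁) (by
      rw [Function.comp_apply, hJl]
      rfl), hml, hcl, hχ1]
  obtain ⟨pl, hO, hρ⟩ := exists_place k (Om k τ) (le_Om k τ) σ0 hσc (B j₁) (by
    rw [hσb, HahnSeries.order_single one_ne_zero]
    exact_mod_cast he.ne')
  -- the images of the `a j` are constants
  have hconst : ∀ j, ∃ r : Om k τ, σ0 (A j) = HahnSeries.C r := by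
    intro j
    obtain ⟨P, hP0, hP⟩ := hal j
    have hsub : ∀ x ∈ Algebra.adjoin k (Set.range (a ∘ s)), x ∈ Kf ∧ x ∈ Om k τ := by
      intro x hx
      induction hx using Algebra.adjoin_induction with
      | mem x hx =>
        obtain ⟨i, rfl⟩ := hx
        exact ⟨hA0 _, hmem i⟩
      | algebraMap r => exact ⟨Kf.algebraMap_mem r, le_Om k τ r.2⟩
      | add x y _ _ hx hy => exact ⟨Kf.add_mem hx.1 hy.1, add_mem hx.2 hy.2⟩
      | mul x y _ _ hx hy => exact ⟨Kf.mul_mem hx.1 hy.1, mul_mem hx.2 hy.2⟩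
    let g1 : Algebra.adjoin k (Set.range (a ∘ s)) →+* Kf :=
      (algebraMap (Algebra.adjoin k (Set.range (a ∘ s))) ℂ).codRestrict Kf
        (fun x => (hsub x x.2).1)
    let g2 : Algebra.adjoin k (Set.range (a ∘ s)) →+* Om k τ :=
      (algebraMap (Algebra.adjoin k (Set.range (a ∘ s))) ℂ).codRestrict (Om k τ)
        (fun x => (hsub x x.2).2)
    have hg : ∀ x (hx : x ∈ Algebra.adjoin k (Set.range (a ∘ s))),
        σ0 (g1 ⟨x, hx⟩) = HahnSeries.C (g2 ⟨x, hx⟩) := by
      intro x hx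
      induction hx using Algebra.adjoin_induction with
      | mem x hx =>
        obtain ⟨i, rfl⟩ := hx
        exact hσs i
      | algebraMap r => exact hσc r
      | add x y hx hy h1 h2 =>
        have e1 : (⟨x + y, add_mem hx hy⟩ : Algebra.adjoin k (Set.range (a ∘ s))) =
          ⟨x, hx⟩ + ⟨y, hy⟩ := rfl
        rw [e1, map_add, map_add, map_add, map_add, h1, h2]
      | mul x y hx hy h1 h2 =>
        have e1 : (⟨x * y, mul_mem hx hy⟩ : Algebra.adjoin k (Set.range (a ∘ s))) =
          ⟨x, hx⟩ * ⟨y, hy⟩ := rfl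
        rw [e1, map_mul, map_mul, map_mul, map_mul, h1, h2]
    have hg2 : Function.Injective g2 := by
      intro x y hxy
      have := congrArg Subtype.val hxy
      exact Subtype.ext this
    have hroot : Polynomial.eval₂ g1 (A j) P = 0 := by
      have h1 : (algebraMap Kf ℂ) (Polynomial.eval₂ g1 (A j) P) = 0 := by
        rw [Polynomial.hom_eval₂]
        exact hP
      exact (map_eq_zero_iff _ (algebraMap Kf ℂ).injective).1 h1
    have hroot2 : Polynomial.eval₂ ((HahnSeries.C : Om k τ →+* LaurentSeries (Om k τ)).comp g2)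
        (σ0 (A j)) P = 0 := by
      have h1 := congrArg σ0 hroot
      rw [Polynomial.hom_eval₂, map_zero] at h1
      rw [← h1]
      congr 1
      ext1 x
      exact (hg x.1 x.2).symm
    have hCa : (algebraMap (Om k τ) (LaurentSeries (Om k τ))) = HahnSeries.C :=
      RingHom.ext fun x => LaurentSeries.algebraMap_apply (Om k τ) x
    have hint : IsIntegral (Om k τ) (σ0 (A j)) := by
      have h1 : IsAlgebraic (Om k τ) (σ0 (A j)) := by
        refine ⟨P.map g2, (Polynomial.map_ne_zero_iff hg2).2 hP0, ?_⟩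
        rw [Polynomial.aeval_def, Polynomial.eval₂_map, hCa]
        exact hroot2
      exact h1.isIntegral
    have hdeg : (minpoly (Om k τ) (σ0 (A j))).degree = 1 :=
      IsAlgClosed.degree_eq_one_of_irreducible _ (minpoly.irreducible hint)
    obtain ⟨r, hr⟩ := minpoly.mem_range_of_degree_eq_one (Om k τ) (σ0 (A j)) hdeg
    exact ⟨r, by rw [← hr, hCa]⟩
  choose r hr using hconst
  have hAO : ∀ j, A j ∈ pl.O := by
    intro j
    rw [hO]
    intro i hi
    rw [hr, HahnSeries.C_apply, HahnSeries.coeff_single_of_ne hi.ne]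
  have hθ : ∀ j, pl.ρ ⟨A j, hAO j⟩ = (r j : ℂ) := by
    intro j
    rw [hρ]
    show (((σ0 (A j)).coeff 0 : Om k τ) : ℂ) = _
    rw [hr, HahnSeries.C_apply, HahnSeries.coeff_single_same]
  have hBne : ∀ j, B j ≠ 0 := by
    intro j h
    exact hb j (congrArg Subtype.val h)
  choose v ε hε hv using fun j => pl.fac (B j) (hBne j)
  refine ⟨pl, A, B, v, fun j => ⟨A j, hAO j⟩, fun _ => rfl, fun _ => rfl, fun _ => rfl, ?_, ?_,
    fun j => ⟨ε j, hε j, hv j⟩⟩
  · intro f
    have h1 : σ0 (aeval A f) = HahnSeries.C (eval₂ (Subfield.inclusion (le_Om k τ)) r f) := by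
      rw [aeval_def, eval₂_comp_left, eval₂_comp_left]
      congr 1
      · ext1 x
        exact hσc x
      · funext j
        exact hr j
    have h2 : (aeval a f : ℂ) = ((aeval A f : Kf) : ℂ) := by
      have h3 : ((aeval A f : Kf) : ℂ) = algebraMap Kf ℂ (aeval A f) := rfl
      rw [h3, aeval_def, aeval_def, eval₂_comp_left]
      rfl
    have h4 : (aeval (fun j => pl.ρ ⟨A j, hAO j⟩) f : ℂ) =
        ((eval₂ (Subfield.inclusion (le_Om k τ)) r f : Om k τ) : ℂ) := by
      have h5 : ((eval₂ (Subfield.inclusion (le_Om k τ)) r f : Om k τ) : ℂ) =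
        algebraMap (Om k τ) ℂ (eval₂ (Subfield.inclusion (le_Om k τ)) r f) := rfl
      rw [h5, aeval_def, eval₂_comp_left]
      congr 1
      funext j
      exact hθ j
    rw [h4, h2]
    constructor
    · intro h
      have h6 : eval₂ (Subfield.inclusion (le_Om k τ)) r f = 0 := Subtype.ext h
      rw [h6, map_zero] at h1
      have h7 : aeval A f = 0 := (map_eq_zero_iff σ0 σ0.injective).1 h1
      rw [h7]
      rfl
    · intro h
      have h7 : aeval A f = 0 := Subtype.ext h
      rw [h7, map_zero] at h1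
      have h6 : eval₂ (Subfield.inclusion (le_Om k τ)) r f = 0 :=
        (map_eq_zero_iff _ HahnSeries.C_injective).1 h1.symm
      rw [h6]
      rfl
  · intro h0
    have h1 : B j₁ = ε j₁ := by
      have := hv j₁
      rw [h0, Pi.zero_apply, zpow_zero, one_mul] at this
      exact this
    apply hε j₁
    rw [hρ, ← h1, hσb]
    have h2 : (HahnSeries.single (e : ℤ) (1 : Om k τ)).coeff 0 = 0 :=
      HahnSeries.coeff_single_of_ne (by exact_mod_cast he.ne)
    rw [h2]
    rfl

end Pool.Agent.EXK
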