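import Pool.Agent.EXK.KDefs
import Pool.Agent.EXI.CEmb

/-!
# EXK / KRoot: the Puiseux embedding at infinity with a prescribed leading coefficient

The relations of `(c₀, α)` are the multiples of `F = ∑_{i ≤ d} F_i` (`F_i` homogeneous of degree `i`),
`F_d(ρ₀, α) = 0`. Then `k(α, c) → Ω((ζ))`, `α_i ↦ α_i ζ^{-e}`, can be chosen such that
`c₀ ↦ ρ₀ ζ^{-e} + ...`.

PROOF.  As in `emb_top` (EXI/CEmb.lean): `E = k(α)`, `κ : E →+* LaurentSeries Ω`, `α_i ↦ α_i ζ⁻¹`,
`emb κ R` with `R = c j₀ ∈ F'` (`F' = k(α)(c)` finite over `E`): `e`, `χ`, and a multiset `s` of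
embeddings `σ` with `(minpoly E R).map (χ.comp κ) = ∏_{σ ∈ s} (X - C (σ R))`.
(1) `F(X, α) ∈ E[X]` is `q * minpoly E R` with `q ∈ E^*`: `minpoly ∣ F(X, α)` because `F(c₀, α) = 0`, and
the degrees agree: clear denominators in `minpoly` (`E` is the field of fractions of `k[α] ≅ k[X_1..X_m]`)
to get a polynomial of `k[X_0..X_m]` of the same degree in `X_0` which vanishes at `(c₀, α)`, so is a
multiple of `F`.
(2) For `θ ∈ Ω` put `x = θ ζ^{-e}`. `F(x, α ζ^{-e}) = ∑_i ζ^{-e i} F_i(θ, α)` has order `-e d` if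
`F_d(θ, α) ≠ 0` and order `> -e d` (or is zero) if `F_d(θ, α) = 0`. (`ρ₀ ∈ Ω` because it is a root of the
polynomial `F_d(X, α) ≠ 0` over `k(α)`: `F_d ≠ 0` and `α` is algebraically independent.) On the other hand
it is `χκ(q) ∏_{σ ∈ s} (x - σ R)`. Let `o_σ = min(-e, order (σ R))`; the order of `x - σ R` is `o_σ`
unless `σ R` has no coefficients of index `< -e` and the coefficient of index `-e` is `θ`, and is
`≥ o_σ` always. For all but finitely many `θ` (complex algebraic numbers in `Ω`, infinite field) the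
order is `-e d` and equal to `order (χκ q) + ∑ o_σ`. For `θ = ρ₀` the order is `> -e d`, so for some
`σ ∈ s` the exceptional case holds.
-/

set_option autoImplicit false

namespace Pool.Agent.EXK

open MvPolynomial Pool.Agent.EXL Pool.Agent.EXI

/-- If no negative coefficients and the coefficient of index `0` do not all vanish, the inverse has no
negative coefficients. -/
private lemma inv_coeff {Ω : Type} [Field Ω] (u : LaurentSeries Ω) (hu : ¬ ∀ i ≤ (0 : ℤ), u.coeff i = 0) :
    u ≠ 0 ∧ ∀ i < (0 : ℤ), (u⁻¹).coeff i = 0 := by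
  have h0 : u ≠ 0 := by
    rintro rfl
    exact hu fun i _ => rfl
  refine ⟨h0, fun i hi => ?_⟩
  have hord : u.order ≤ 0 := by
    by_contra hlt
    push Not at hlt
    exact hu fun i hi => HahnSeries.coeff_eq_zero_of_lt_order (lt_of_le_of_lt hi hlt)
  have h1 : u.order + (u⁻¹).order = 0 := by
    rw [← HahnSeries.order_mul h0 (inv_ne_zero h0), mul_inv_cancel₀ h0, HahnSeries.order_one]
  exact HahnSeries.coeff_eq_zero_of_lt_order (by omega)

private lemma mul_int {Ω : Type} [Field Ω] (u v : LaurentSeries Ω)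
    (hu : ∀ i < (0 : ℤ), u.coeff i = 0) (hv : ∀ i < (0 : ℤ), v.coeff i = 0) :
    ∀ i < (0 : ℤ), (u * v).coeff i = 0 := by
  intro i hi
  rw [HahnSeries.coeff_mul]
  refine Finset.sum_eq_zero fun p hp => ?_
  rw [Finset.mem_antidiagonal] at hp
  by_cases h1 : p.1 < 0
  · rw [hu _ h1, zero_mul]
  · rw [hv _ (by omega), mul_zero]

private lemma mul_max {Ω : Type} [Field Ω] (u v : LaurentSeries Ω)
    (hu : ∀ i ≤ (0 : ℤ), u.coeff i = 0) (hv : ∀ i < (0 : ℤ), v.coeff i = 0) :
    ∀ i ≤ (0 : ℤ), (u * v).coeff i = 0 := by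
  intro i hi
  rw [HahnSeries.coeff_mul]
  refine Finset.sum_eq_zero fun p hp => ?_
  rw [Finset.mem_antidiagonal] at hp
  by_cases h1 : p.1 ≤ 0
  · rw [hu _ h1, zero_mul]
  · rw [hv _ (by omega), mul_zero]

private lemma one_int {Ω : Type} [Field Ω] : ∀ i < (0 : ℤ), (1 : LaurentSeries Ω).coeff i = 0 := by
  intro i hi
  rw [HahnSeries.coeff_one, if_neg (ne_of_lt hi)]

/-- The factor for `θ` is the factor for `ρ` times an integral series. -/
private lemma factor {Ω : Type} [Field Ω] (e : ℤ) (θ ρ : Ω) (r : LaurentSeries Ω)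
    (h : ¬ ((∀ i < -e, r.coeff i = 0) ∧ r.coeff (-e) = ρ)) :
    ∃ w : LaurentSeries Ω, (∀ i < (0 : ℤ), w.coeff i = 0) ∧
      HahnSeries.single (-e) θ - r = (HahnSeries.single (-e) ρ - r) * w := by
  set u : LaurentSeries Ω := HahnSeries.single e 1 * (HahnSeries.single (-e) ρ - r) with hu
  have hcoeff : ∀ i : ℤ, u.coeff i = (HahnSeries.single (-e) ρ - r).coeff (i - e) := by
    intro i
    have h1 := HahnSeries.coeff_single_mul_add (r := (1 : Ω)) (x := HahnSeries.single (-e) ρ - r)
      (a := i - e) (b := e)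
    rw [sub_add_cancel, one_mul] at h1
    exact h1
  have hnot : ¬ ∀ i ≤ (0 : ℤ), u.coeff i = 0 := by
    intro hall
    apply h
    constructor
    · intro i hi
      have h1 := hall (i + e) (by omega)
      rw [hcoeff, add_sub_cancel_right, HahnSeries.coeff_sub,
        HahnSeries.coeff_single_of_ne (ne_of_lt hi), zero_sub, neg_eq_zero] at h1
      exact h1
    · have h1 := hall 0 le_rfl
      rw [hcoeff, zero_sub, HahnSeries.coeff_sub, HahnSeries.coeff_single_same, sub_eq_zero] at h1
      exact h1.symm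
  obtain ⟨hu0, hinv⟩ := inv_coeff u hnot
  have he : (HahnSeries.single e (1 : Ω) : LaurentSeries Ω) ≠ 0 :=
    HahnSeries.single_ne_zero one_ne_zero
  have hr0 : (HahnSeries.single (-e) ρ - r : LaurentSeries Ω) ≠ 0 := by
    intro h0
    apply hu0
    rw [hu, h0, mul_zero]
  refine ⟨1 + HahnSeries.C (θ - ρ) * u⁻¹, ?_, ?_⟩
  · intro i hi
    rw [HahnSeries.coeff_add, one_int i hi, zero_add]
    exact mul_int _ _ (fun i hi => by
      rw [HahnSeries.C_apply, HahnSeries.coeff_single_of_ne (ne_of_lt hi)]) hinv i hi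
  · have h1 : (HahnSeries.single (-e) ρ - r) * u⁻¹ = HahnSeries.single (-e) (1 : Ω) := by
      rw [hu, mul_inv, ← mul_assoc, mul_comm (HahnSeries.single (-e) ρ - r), mul_assoc,
        mul_inv_cancel₀ hr0, mul_one, HahnSeries.inv_single, inv_one]
    rw [mul_add, mul_one, mul_left_comm, h1, HahnSeries.C_apply, HahnSeries.single_mul_single,
      zero_add, mul_one, show HahnSeries.single (-e) (θ - ρ) =
        HahnSeries.single (-e) θ - HahnSeries.single (-e) ρ from
          map_sub (HahnSeries.single.addMonoidHom (-e)) θ ρ]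
    ring

/-- A root of the reduced polynomial is the leading coefficient of one of the roots. -/
private theorem lead_root {Ω : Type} [Field Ω] (e D : ℤ) (c : LaurentSeries Ω)
    (s : Multiset (LaurentSeries Ω)) (θ ρ : Ω)
    (h1 : ∀ i ≤ (0 : ℤ), (HahnSeries.single D 1 *
      (c * (s.map fun r => HahnSeries.single (-e) ρ - r).prod)).coeff i = 0)
    (h2 : ¬ ∀ i ≤ (0 : ℤ), (HahnSeries.single D 1 *
      (c * (s.map fun r => HahnSeries.single (-e) θ - r).prod)).coeff i = 0) :
    ∃ r ∈ s, (∀ i < -e, r.coeff i = 0) ∧ r.coeff (-e) = ρ := by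
  by_contra hno
  push Not at hno
  apply h2
  have key : ∀ t : Multiset (LaurentSeries Ω), (∀ r ∈ t, r ∈ s) →
      ∃ w : LaurentSeries Ω, (∀ i < (0 : ℤ), w.coeff i = 0) ∧
        (t.map fun r => HahnSeries.single (-e) θ - r).prod =
          (t.map fun r => HahnSeries.single (-e) ρ - r).prod * w := by
    intro t
    induction t using Multiset.induction_on with
    | empty => exact fun _ => ⟨1, one_int, by simp⟩
    | cons r t ih =>
      intro ht
      obtain ⟨w, hw, hwt⟩ := ih fun r' hr' => ht r' (Multiset.mem_cons_of_mem hr')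
      obtain ⟨w', hw', hwr⟩ := factor e θ ρ r (fun hh =>
        hno r (ht r (Multiset.mem_cons_self r t)) hh.1 hh.2)
      refine ⟨w' * w, mul_int _ _ hw' hw, ?_⟩
      rw [Multiset.map_cons, Multiset.prod_cons, Multiset.map_cons, Multiset.prod_cons, hwt, hwr]
      ring
  obtain ⟨w, hw, hws⟩ := key s fun r hr => hr
  rw [hws, ← mul_assoc c, ← mul_assoc (HahnSeries.single D 1)]
  exact mul_max _ _ h1 hw

lemma eval_fse {k A : Type} [CommRing k] [CommRing A] {m : ℕ} (φ : MvPolynomial (Fin m) k →+* A)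
    (x : A) (f : MvPolynomial (Fin (m + 1)) k) :
    Polynomial.eval₂ φ x (finSuccEquiv k m f) =
      eval₂ (φ.comp C) (Fin.cons x fun i => φ (X i)) f := by
  have h1 : (Polynomial.eval₂RingHom φ x).comp (finSuccEquiv k m).toAlgHom.toRingHom =
      eval₂Hom (φ.comp C) (Fin.cons x fun i => φ (X i)) := by
    apply MvPolynomial.ringHom_ext
    · intro a
      have h3 : MvPolynomial.finSuccEquiv k m (C a) = Polynomial.C (C a) := by
        rw [finSuccEquiv_apply, eval₂Hom_C]
        rfl
      have h4 : (finSuccEquiv k m).toAlgHom.toRingHom (C a) = Polynomial.C (C a) := h3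
      rw [RingHom.comp_apply, h4, Polynomial.coe_eval₂RingHom, Polynomial.eval₂_C, eval₂Hom_C,
        RingHom.comp_apply]
    · intro i
      refine Fin.cases ?_ (fun j => ?_) i
      · have h4 : (finSuccEquiv k m).toAlgHom.toRingHom (X 0) = Polynomial.X := finSuccEquiv_X_zero
        rw [RingHom.comp_apply, h4, Polynomial.coe_eval₂RingHom, Polynomial.eval₂_X, eval₂Hom_X',
          Fin.cons_zero]
      · have h4 : (finSuccEquiv k m).toAlgHom.toRingHom (X j.succ) = Polynomial.C (X j) :=
          finSuccEquiv_X_succ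
        rw [RingHom.comp_apply, h4, Polynomial.coe_eval₂RingHom, Polynomial.eval₂_C, eval₂Hom_X',
          Fin.cons_succ]
  exact congrArg (fun g => g f) h1

lemma eval_hom {K Ω : Subfield ℂ} (h : K ≤ Ω) {n : ℕ} (e : ℤ) (v : Fin n → Ω) (i : ℕ)
    (f : MvPolynomial (Fin n) K) (hf : f.IsHomogeneous i) :
    eval₂ (cst h) (fun j => (HahnSeries.single (-e) (v j) : LaurentSeries Ω)) f =
      HahnSeries.single (-(e * i)) (eval₂ (Subfield.inclusion h) v f) := by
  classical
  have hv : ∀ j, (HahnSeries.single (-e) (v j) : LaurentSeries Ω) =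
      HahnSeries.single (-e) 1 * HahnSeries.C (v j) := by
    intro j
    rw [HahnSeries.C_apply, HahnSeries.single_mul_single, add_zero, one_mul]
  have h1 : HahnSeries.single (-(e * i)) (eval₂ (Subfield.inclusion h) v f) =
      (HahnSeries.single (-e) (1 : Ω) : LaurentSeries Ω) ^ i *
        HahnSeries.C (eval₂ (Subfield.inclusion h) v f) := by
    rw [HahnSeries.single_pow, one_pow, HahnSeries.C_apply, HahnSeries.single_mul_single, add_zero,
      one_mul]
    congr 1
    rw [nsmul_eq_mul]
    ring_nf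
  rw [h1, MvPolynomial.hom_eval₂, eval₂_eq', eval₂_eq', Finset.mul_sum]
  refine Finset.sum_congr rfl fun s hs => ?_
  have hdeg : ∑ j, s j = i := by
    have h2 := hf (mem_support_iff.1 hs)
    rw [Finsupp.weight_apply, Finsupp.sum_fintype _ _ (by simp)] at h2
    simpa using h2
  have h3 : ∏ j, (HahnSeries.single (-e) (v j) : LaurentSeries Ω) ^ s j =
      (HahnSeries.single (-e) (1 : Ω) : LaurentSeries Ω) ^ i *
        ∏ j, ((HahnSeries.C (v j) : LaurentSeries Ω)) ^ s j := by
    rw [← hdeg, ← Finset.prod_pow_eq_pow_sum, ← Finset.prod_mul_distrib]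
    refine Finset.prod_congr rfl fun j _ => ?_
    rw [hv j, mul_pow]
  rw [h3, mul_left_comm]
  rfl

/-- evaluation `k[X_1, ..., X_m] → k(α)`. -/
noncomputable def evE (k : Subfield ℂ) {m : ℕ} (α : Fin m → ℂ) :
    MvPolynomial (Fin m) k →+* IntermediateField.adjoin k (Set.range α) :=
  (aeval fun i => (⟨α i, IntermediateField.subset_adjoin k _ ⟨i, rfl⟩⟩ :
    IntermediateField.adjoin k (Set.range α)) : MvPolynomial (Fin m) k →ₐ[k] _)

private lemma evE_val (k : Subfield ℂ) {m : ℕ} (α : Fin m → ℂ) (r : ℂ)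
    (f : MvPolynomial (Fin (m + 1)) k) :
    Polynomial.aeval r ((finSuccEquiv k m f).map (evE k α)) =
      aeval (Fin.cons r α : Fin (m + 1) → ℂ) f := by
  rw [Polynomial.aeval_def, Polynomial.eval₂_map, eval_fse, aeval_def]
  congr 1
  · refine RingHom.ext fun c => ?_
    rw [RingHom.comp_apply, RingHom.comp_apply, evE]
    change algebraMap _ ℂ (aeval _ (C c)) = _
    rw [aeval_C]
    rfl
  · funext i
    refine Fin.cases ?_ (fun j => ?_) i
    · rfl
    · rw [Fin.cons_succ, Fin.cons_succ, RingHom.comp_apply, evE]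
      change algebraMap _ ℂ (aeval _ (X j)) = _
      rw [aeval_X]
      rfl

theorem rel_minpoly (k : Subfield ℂ) {m : ℕ} (α : Fin m → ℂ) (r : ℂ)
    (F : MvPolynomial (Fin (m + 1)) k)
    (hF : ∀ f : MvPolynomial (Fin (m + 1)) k,
      aeval (Fin.cons r α : Fin (m + 1) → ℂ) f = 0 ↔ F ∣ f) :
    ∃ q : IntermediateField.adjoin k (Set.range α), q ≠ 0 ∧
      (finSuccEquiv k m F).map (evE k α) =
        Polynomial.C q * minpoly (IntermediateField.adjoin k (Set.range α)) r := by
  classical
  set E := IntermediateField.adjoin k (Set.range α) with hE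
  -- clear the denominators
  have hval : ∀ f : MvPolynomial (Fin m) k, ((evE k α f : E) : ℂ) = aeval α f := by
    intro f
    have h5 : (IntermediateField.adjoin k (Set.range α)).val.comp
        (aeval fun i => (⟨α i, IntermediateField.subset_adjoin k _ ⟨i, rfl⟩⟩ :
          IntermediateField.adjoin k (Set.range α))) = aeval α := by
      apply MvPolynomial.algHom_ext
      intro l
      rw [AlgHom.comp_apply, aeval_X, aeval_X]
      rfl
    exact congrArg (fun g => g f) h5
  have hfrac : ∀ x : E, ∃ n d : MvPolynomial (Fin m) k, evE k α d ≠ 0 ∧ evE k α d * x = evE k α n := by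
    intro x
    obtain ⟨n, d, hnd⟩ := IntermediateField.mem_adjoin_range_iff k α (x : ℂ) |>.1 x.2
    by_cases hd : aeval α d = 0
    · refine ⟨0, 1, by rw [map_one]; exact one_ne_zero, ?_⟩
      have hx : x = 0 := by
        apply Subtype.ext
        rw [hnd, hd, div_zero]
        rfl
      rw [hx, map_zero, mul_zero]
    · refine ⟨n, d, fun h0 => hd ?_, ?_⟩
      · rw [← hval, h0]
        rfl
      · apply Subtype.ext
        change ((evE k α d : E) : ℂ) * (x : ℂ) = _
        rw [hval, hval, hnd, mul_div_cancel₀ _ hd]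
  have hclear : ∀ p : Polynomial E, ∃ (g : Polynomial (MvPolynomial (Fin m) k))
      (d : MvPolynomial (Fin m) k), evE k α d ≠ 0 ∧ g.map (evE k α) = Polynomial.C (evE k α d) * p := by
    intro p
    induction p using Polynomial.induction_on' with
    | add p q hp hq =>
      obtain ⟨g, d, hd, hg⟩ := hp
      obtain ⟨g', d', hd', hg'⟩ := hq
      refine ⟨Polynomial.C d' * g + Polynomial.C d * g', d * d', ?_, ?_⟩
      · rw [map_mul]
        exact mul_ne_zero hd hd'
      · rw [Polynomial.map_add, Polynomial.map_mul, Polynomial.map_mul, hg, hg', Polynomial.map_C,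
          Polynomial.map_C, map_mul, map_mul]
        ring
    | monomial i x =>
      obtain ⟨n, d, hd, hn⟩ := hfrac x
      refine ⟨Polynomial.monomial i n, d, hd, ?_⟩
      rw [Polynomial.map_monomial, Polynomial.C_mul_monomial, hn]
  obtain ⟨g, d, hd, hg⟩ := hclear (minpoly E r)
  have h1 : (finSuccEquiv k m F).map (evE k α) ∣ minpoly E r := by
    have h2 : F ∣ (finSuccEquiv k m).symm g := by
      rw [← hF, ← evE_val, AlgEquiv.apply_symm_apply, hg, map_mul, minpoly.aeval, mul_zero]
    have h3 : (finSuccEquiv k m F).map (evE k α) ∣ g.map (evE k α) := by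
      obtain ⟨f, hf⟩ := h2
      have h4 := congrArg (finSuccEquiv k m) hf
      rw [AlgEquiv.apply_symm_apply, map_mul] at h4
      rw [h4, Polynomial.map_mul]
      exact dvd_mul_right _ _
    rw [hg] at h3
    exact (Polynomial.isUnit_C.2 (isUnit_iff_ne_zero.2 hd)).dvd_mul_left.1 h3
  have h2 : minpoly E r ∣ (finSuccEquiv k m F).map (evE k α) := by
    apply minpoly.dvd
    rw [evE_val, hF]
  obtain ⟨u, hu⟩ := associated_of_dvd_dvd h2 h1
  obtain ⟨q, hq, hqu⟩ := Polynomial.isUnit_iff.1 u.isUnit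
  refine ⟨q, hq.ne_zero, ?_⟩
  rw [← hu, ← hqu, mul_comm]

/-- Evaluation at `a_i ζ⁻¹` is injective. -/
private lemma scale_ne (k : Subfield ℂ) {n : ℕ} (a : Fin n → ℂ) (ha : AlgebraicIndependent k a)
    (f : MvPolynomial (Fin n) k) (hf : f ≠ 0) :
    eval₂ (cst (le_Om k a)) (fun i : Fin n =>
      (HahnSeries.single (-1 : ℤ) (⟨a i, mem_Om k a i⟩ : Om k a) : LaurentSeries (Om k a))) f ≠ 0 := by
  classical
  intro h0
  apply hf
  have hcomp : ∀ i, homogeneousComponent i f = 0 := by
    intro i
    by_cases hi : i ∈ Finset.range (f.totalDegree + 1)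
    · apply (algebraicIndependent_iff.1 ha)
      have h1 : eval₂ (cst (le_Om k a)) (fun i : Fin n =>
          (HahnSeries.single (-1 : ℤ) (⟨a i, mem_Om k a i⟩ : Om k a) : LaurentSeries (Om k a))) f =
          ∑ j ∈ Finset.range (f.totalDegree + 1), (HahnSeries.single (-((1 : ℤ) * j))
            (eval₂ (Subfield.inclusion (le_Om k a)) (fun i => (⟨a i, mem_Om k a i⟩ : Om k a))
              (homogeneousComponent j f)) : LaurentSeries (Om k a)) := by
        conv_lhs => rw [← sum_homogeneousComponent f]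
        rw [eval₂_sum]
        exact Finset.sum_congr rfl fun j _ =>
          eval_hom (le_Om k a) 1 _ j _ (homogeneousComponent_isHomogeneous j f)
      have h2 := congrArg (fun x => HahnSeries.coeff x (-((1 : ℤ) * i))) h1
      simp only [h0] at h2
      rw [HahnSeries.coeff_zero, HahnSeries.coeff_sum, Finset.sum_eq_single_of_mem i hi] at h2
      · rw [HahnSeries.coeff_single_same] at h2
        have h3 := congrArg (Om k a).subtype h2
        rw [map_zero, MvPolynomial.hom_eval₂] at h3
        exact h3.symm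
      · intro j _ hji
        apply HahnSeries.coeff_single_of_ne
        intro h3
        apply hji
        omega
    · apply homogeneousComponent_eq_zero
      rw [Finset.mem_range] at hi
      omega
  rw [← sum_homogeneousComponent f]
  exact Finset.sum_eq_zero fun i _ => hcomp i

theorem emb_root (k : Subfield ℂ) {m N : ℕ} (α : Fin m → ℂ) (hα : AlgebraicIndependent k α)
    (c : Fin N → ℂ) (halg : ∀ j, IsAlgebraic (Algebra.adjoin k (Set.range α)) (c j)) (j₀ : Fin N)
    (F : MvPolynomial (Fin (m + 1)) k)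
    (hF : ∀ f : MvPolynomial (Fin (m + 1)) k,
      aeval (Fin.cons (c j₀) α : Fin (m + 1) → ℂ) f = 0 ↔ F ∣ f)
    (d : ℕ) (Fc : ℕ → MvPolynomial (Fin (m + 1)) k) (hFc : ∀ i, (Fc i).IsHomogeneous i)
    (hFs : F = ∑ i ∈ Finset.range (d + 1), Fc i) (hFd : Fc d ≠ 0) (ρ₀ : ℂ)
    (hroot : aeval (Fin.cons ρ₀ α : Fin (m + 1) → ℂ) (Fc d) = 0) :
    ∃ (e : ℕ) (σ : Kb k (Sum.elim α c) →+* LaurentSeries (Om k α)), 1 ≤ e ∧
      (∀ (x : ℂ) (hx : x ∈ k), σ ⟨x, mem_Kb_of_mem _ hx⟩ =
        HahnSeries.C (⟨x, le_Om k α hx⟩ : Om k α)) ∧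
      (∀ i : Fin m, σ ⟨α i, mem_Kb k (Sum.elim α c) (Sum.inl i)⟩ =
        HahnSeries.single (-(e : ℤ)) (⟨α i, mem_Om k α i⟩ : Om k α)) ∧
      (∀ i : ℤ, i < -(e : ℤ) → (σ ⟨c j₀, mem_Kb k (Sum.elim α c) (Sum.inr j₀)⟩).coeff i = 0) ∧
      (((σ ⟨c j₀, mem_Kb k (Sum.elim α c) (Sum.inr j₀)⟩).coeff (-(e : ℤ)) : Om k α) : ℂ) = ρ₀ := by
  classical
  have hsub : Set.range α ⊆ (IntermediateField.adjoin k (Set.range α) : Set ℂ) :=
    IntermediateField.subset_adjoin k _
  obtain ⟨κ, hκc, hκa⟩ := base_of_inj α hα (cst (le_Om k α)) _ (scale_ne k α hα)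
  let E := IntermediateField.adjoin k (Set.range α)
  let F' : IntermediateField (IntermediateField.adjoin k (Set.range α)) ℂ :=
    IntermediateField.adjoin (IntermediateField.adjoin k (Set.range α)) (Set.range c)
  have hint : ∀ j, IsIntegral (IntermediateField.adjoin k (Set.range α)) (c j) := by
    intro j
    have h1 := halg j
    have hle := IntermediateField.algebra_adjoin_le_adjoin k (Set.range α)
    have h2 : IsAlgebraic (IntermediateField.adjoin k (Set.range α)) (c j) := by
      obtain ⟨p, hp0, hp⟩ := h1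
      refine ⟨p.map (Subalgebra.inclusion hle).toRingHom,
        (Polynomial.map_ne_zero_iff (Subalgebra.inclusion_injective hle)).2 hp0, ?_⟩
      rw [Polynomial.aeval_def, Polynomial.eval₂_map]
      exact hp
    exact h2.isIntegral
  have hfd : FiniteDimensional (IntermediateField.adjoin k (Set.range α)) F' := by
    refine IntermediateField.finiteDimensional_adjoin ?_
    rintro x ⟨j, rfl⟩
    exact hint j
  have hac := isAlgClosed_Om k α
  let R : F' := ⟨c j₀, IntermediateField.subset_adjoin _ _ ⟨j₀, rfl⟩⟩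
  obtain ⟨e, he, χ, hχc, hχ1, s, hs, hmin⟩ := emb (F := F') (Ω := Om k α) κ R
  have hRmin : minpoly (IntermediateField.adjoin k (Set.range α)) R =
      minpoly (IntermediateField.adjoin k (Set.range α)) (c j₀) :=
    (minpoly.algebraMap_eq (algebraMap F' ℂ).injective R).symm
  obtain ⟨q, hq0, hq⟩ := rel_minpoly k α (c j₀) F hF
  -- the values of the embeddings
  have hχa : ∀ i, χ (HahnSeries.single (-1 : ℤ) (⟨α i, mem_Om k α i⟩ : Om k α)) =
      HahnSeries.single (-(e : ℤ)) (⟨α i, mem_Om k α i⟩ : Om k α) := by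
    intro i
    have h2 : (HahnSeries.single (-1 : ℤ) (⟨α i, mem_Om k α i⟩ : Om k α) :
        LaurentSeries (Om k α)) =
        HahnSeries.C (⟨α i, mem_Om k α i⟩ : Om k α) * (HahnSeries.single (1 : ℤ) 1)⁻¹ := by
      rw [HahnSeries.inv_single, HahnSeries.C_apply, HahnSeries.single_mul_single, zero_add,
        inv_one, mul_one]
    rw [h2, map_mul, hχc, map_inv₀, hχ1, HahnSeries.inv_single, HahnSeries.C_apply,
      HahnSeries.single_mul_single, zero_add, inv_one, mul_one]
  -- `ρ₀ ∈ Ω`
  let evΩ : MvPolynomial (Fin m) k →+* Om k α :=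
    eval₂Hom (Subfield.inclusion (le_Om k α)) fun i => (⟨α i, mem_Om k α i⟩ : Om k α)
  have hevinj : Function.Injective evΩ := by
    rw [injective_iff_map_eq_zero]
    intro f hf
    apply (algebraicIndependent_iff.1 hα)
    have h3 := congrArg (Om k α).subtype hf
    change (Om k α).subtype (eval₂ _ _ f) = _ at h3
    rw [map_zero, MvPolynomial.hom_eval₂] at h3
    exact h3
  have hFd0 : (finSuccEquiv k m (Fc d)).map evΩ ≠ 0 := by
    rw [Ne, Polynomial.map_eq_zero_iff hevinj, EmbeddingLike.map_eq_zero_iff]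
    exact hFd
  have hρ : ρ₀ ∈ Om k α := by
    apply consts_algebraic
    refine ⟨(finSuccEquiv k m (Fc d)).map evΩ, hFd0, ?_⟩
    rw [Polynomial.aeval_def, Polynomial.eval₂_map, eval_fse, ← hroot, aeval_def]
    congr 1
    · refine RingHom.ext fun x => ?_
      rw [RingHom.comp_apply, RingHom.comp_apply]
      change algebraMap _ ℂ (eval₂Hom _ _ (C x)) = _
      rw [eval₂Hom_C]
      rfl
    · funext i
      refine Fin.cases ?_ (fun j => ?_) i
      · rfl
      · rw [Fin.cons_succ, Fin.cons_succ, RingHom.comp_apply]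
        change algebraMap _ ℂ (eval₂Hom _ _ (X j)) = _
        rw [eval₂Hom_X']
        rfl
  -- evaluation of `F` at `θ ζ^{-e}, α ζ^{-e}`
  have hval : ∀ θ : Om k α, χ (κ q) * (s.map fun σ => HahnSeries.single (-(e : ℤ)) θ - σ R).prod =
      ∑ i ∈ Finset.range (d + 1), (HahnSeries.single (-((e : ℤ) * i))
        (eval₂ (Subfield.inclusion (le_Om k α)) (Fin.cons θ fun i => (⟨α i, mem_Om k α i⟩ : Om k α))
          (Fc i)) : LaurentSeries (Om k α)) := by
    intro θ
    have h1 : Polynomial.eval (HahnSeries.single (-(e : ℤ)) θ : LaurentSeries (Om k α))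
        (((finSuccEquiv k m F).map (evE k α)).map (χ.comp κ)) =
        χ (κ q) * (s.map fun σ => HahnSeries.single (-(e : ℤ)) θ - σ R).prod := by
      rw [hq, Polynomial.map_mul, Polynomial.map_C, ← hRmin, hmin, Polynomial.eval_mul,
        Polynomial.eval_C, Polynomial.eval_multiset_prod, Multiset.map_map]
      simp
    rw [← h1, Polynomial.map_map, Polynomial.eval_map, eval_fse]
    have h2 : (((χ.comp κ).comp (evE k α)).comp C : k →+* LaurentSeries (Om k α)) =
        cst (le_Om k α) := by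
      refine RingHom.ext fun x => ?_
      rw [RingHom.comp_apply, RingHom.comp_apply, RingHom.comp_apply, evE]
      change χ (κ (aeval _ (C x))) = _
      rw [aeval_C, hκc]
      exact hχc _
    have h3 : (Fin.cons (HahnSeries.single (-(e : ℤ)) θ) fun i =>
        ((χ.comp κ).comp (evE k α)) (X i) : Fin (m + 1) → LaurentSeries (Om k α)) =
        fun i => HahnSeries.single (-(e : ℤ)) ((Fin.cons θ fun i =>
          (⟨α i, mem_Om k α i⟩ : Om k α) : Fin (m + 1) → Om k α) i) := by
      funext i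
      refine Fin.cases ?_ (fun j => ?_) i
      · rfl
      · rw [Fin.cons_succ, Fin.cons_succ, RingHom.comp_apply, RingHom.comp_apply, evE]
        change χ (κ (aeval _ (X j))) = _
        rw [aeval_X, hκa, hχa]
    rw [h2, h3, hFs, eval₂_sum]
    exact Finset.sum_congr rfl fun i _ => eval_hom (le_Om k α) e _ i _ (hFc i)
  -- the coefficients of the scaled values
  have hco : ∀ θ : Om k α, (∀ i ≤ (0 : ℤ), (HahnSeries.single ((e : ℤ) * d) 1 * (χ (κ q) *
      ((s.map fun σ : F' →+* LaurentSeries (Om k α) => σ R).map fun r => HahnSeries.single (-(e : ℤ)) θ - r).prod)).coeff i = 0) ↔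
      eval₂ (Subfield.inclusion (le_Om k α)) (Fin.cons θ fun i => (⟨α i, mem_Om k α i⟩ : Om k α))
          (Fc d) = 0 := by
    intro θ
    rw [Multiset.map_map]
    have h1 := hval θ
    simp only [Function.comp_def]
    rw [h1, Finset.mul_sum]
    simp only [HahnSeries.single_mul_single, one_mul, HahnSeries.coeff_sum]
    have hep : (0 : ℤ) < e := by exact_mod_cast he
    have hz : ∀ i ≤ (0 : ℤ), ∀ j ∈ Finset.range (d + 1), j ≠ d →
        (HahnSeries.single ((e : ℤ) * d + -((e : ℤ) * j)) (eval₂ (Subfield.inclusion (le_Om k α))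
          (Fin.cons θ fun i => (⟨α i, mem_Om k α i⟩ : Om k α)) (Fc j)) :
            LaurentSeries (Om k α)).coeff i = 0 := by
      intro i hi j hj hjd
      apply HahnSeries.coeff_single_of_ne
      have h4 : (j : ℤ) < d := by
        have := Finset.mem_range.1 hj
        omega
      have h5 : (0 : ℤ) < (e : ℤ) * d + -((e : ℤ) * j) := by nlinarith
      omega
    constructor
    · intro hall
      have h2 := hall 0 le_rfl
      rw [Finset.sum_eq_single_of_mem d (Finset.self_mem_range_succ d) (hz 0 le_rfl)] at h2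
      rw [add_neg_cancel, HahnSeries.coeff_single_same] at h2
      exact h2
    · intro h0 i hi
      rw [Finset.sum_eq_single_of_mem d (Finset.self_mem_range_succ d) (hz i hi), h0, map_zero,
        HahnSeries.coeff_zero]
  obtain ⟨θ, hθ⟩ : ∃ θ : Om k α, ((finSuccEquiv k m (Fc d)).map evΩ).eval θ ≠ 0 := by
    by_contra hno
    push Not at hno
    exact hFd0 (Polynomial.funext fun x => by rw [hno, Polynomial.eval_zero])
  have hθ2 : ∀ θ : Om k α, ((finSuccEquiv k m (Fc d)).map evΩ).eval θ =
      eval₂ (Subfield.inclusion (le_Om k α)) (Fin.cons θ fun i => (⟨α i, mem_Om k α i⟩ : Om k α))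
          (Fc d) := by
    intro θ
    rw [Polynomial.eval_map, eval_fse]
    congr 1
    · refine RingHom.ext fun x => ?_
      rw [RingHom.comp_apply]
      change eval₂Hom _ _ (C x) = _
      rw [eval₂Hom_C]
    · funext i
      refine Fin.cases ?_ (fun j => ?_) i
      · rfl
      · rw [Fin.cons_succ, Fin.cons_succ]
        change eval₂Hom _ _ (X j) = _
        rw [eval₂Hom_X']
  have hρ2 : eval₂ (Subfield.inclusion (le_Om k α)) (Fin.cons (⟨ρ₀, hρ⟩ : Om k α)
      fun i => (⟨α i, mem_Om k α i⟩ : Om k α)) (Fc d) = 0 := by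
    apply (Om k α).subtype.injective
    rw [map_zero, MvPolynomial.hom_eval₂, ← hroot, aeval_def]
    congr 1
    funext i
    refine Fin.cases ?_ (fun j => ?_) i
    · rfl
    · rfl
  obtain ⟨r, hr, hr1, hr2⟩ := lead_root (e : ℤ) ((e : ℤ) * d) (χ (κ q)) (s.map fun σ : F' →+* LaurentSeries (Om k α) => σ R) θ
    (⟨ρ₀, hρ⟩ : Om k α) ((hco _).2 hρ2) (fun hall => hθ (by rw [hθ2]; exact (hco θ).1 hall))
  obtain ⟨σ, hσs, rfl⟩ := Multiset.mem_map.1 hr
  have hσ := hs σ hσs
  have hle : ∀ x ∈ Kb k (Sum.elim α c), x ∈ F' := by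
    intro x hx
    have h1 : Kb k (Sum.elim α c) ≤ F'.toSubfield := by
      rw [Subfield.closure_le]
      rintro y (hy | ⟨j | j, rfl⟩)
      · exact F'.algebraMap_mem (algebraMap k (IntermediateField.adjoin k (Set.range α)) ⟨y, hy⟩)
      · exact F'.algebraMap_mem ⟨α j, IntermediateField.subset_adjoin k _ ⟨j, rfl⟩⟩
      · exact IntermediateField.subset_adjoin _ _ ⟨j, rfl⟩
    exact h1 hx
  let incl : Kb k (Sum.elim α c) →+* F' :=
    (Kb k (Sum.elim α c)).subtype.codRestrict F' (fun x => hle x x.2)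
  refine ⟨e, σ.comp incl, he, ?_, ?_, ?_, ?_⟩
  · intro x hx
    have h1 := congrArg (fun g => g (algebraMap k (IntermediateField.adjoin k (Set.range α))
      ⟨x, hx⟩)) hσ
    simp only [RingHom.comp_apply] at h1
    rw [hκc] at h1
    change σ (algebraMap (IntermediateField.adjoin k (Set.range α)) F'
      (algebraMap k (IntermediateField.adjoin k (Set.range α)) ⟨x, hx⟩)) = _
    rw [h1]
    exact hχc _
  · intro i
    have h1 := congrArg (fun g => g (⟨α i, IntermediateField.subset_adjoin k _ ⟨i, rfl⟩⟩ :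
      IntermediateField.adjoin k (Set.range α))) hσ
    simp only [RingHom.comp_apply] at h1
    rw [hκa] at h1
    change σ (algebraMap (IntermediateField.adjoin k (Set.range α)) F'
      ⟨α i, IntermediateField.subset_adjoin k _ ⟨i, rfl⟩⟩) = _
    rw [h1, hχa]
  · exact hr1
  · exact congrArg Subtype.val hr2

end Pool.Agent.EXK
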